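import Pool.Agent.V5helper75.SG.SerLF

/-!
# The statements in all universes
-/

set_option autoImplicit false

open scoped commutatorElement

namespace Pool.Agent.V5helper75.SG

open Pool.Agent.H32BU

universe u v

variable {N : ℕ}

/-- the nonabelian finite simple sections are generated by two elements -/
def STG (X : Type u) [Group X] : Prop :=
  ∀ (S : Type) [Group S] [Finite S], IsSimpleGroup S → (∃ a b : S, a * b ≠ b * a) →
    (∃ (H : Subgroup X) (f : H →* S), Function.Surjective f) →
      ∃ a b : S, Subgroup.closure {a, b} = ⊤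

/-- the six-generator subgroups are finite of order at most `N`, and their nonabelian simple
sections are generated by two elements -/
def Sm (N : ℕ) (G : Type u) [Group G] : Prop :=
  ∀ a : Fin 6 → G, Finite (Subgroup.closure (Set.range a)) ∧
    Nat.card (Subgroup.closure (Set.range a)) ≤ N ∧ STG (Subgroup.closure (Set.range a))

theorem STG.of_equiv {X : Type u} {Y : Type v} [Group X] [Group Y] (e : Y ≃* X) (h : STG X) :
    STG Y := by
  intro S _ _ hS hab hsec
  obtain ⟨H, f, hf⟩ := hsec
  refine h S hS hab ⟨H.map e.toMonoidHom, f.comp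
    (H.equivMapOfInjective e.toMonoidHom e.injective).symm.toMonoidHom, ?_⟩
  exact hf.comp (MulEquiv.surjective _)

theorem good_of_sm {X : Type} {G : Type u} [Group X] [Group G] (i : X →* G)
    (hi : Function.Injective i) (h : Sm N G) : Good N N X := by
  intro a
  obtain ⟨h1, h2, h3⟩ := h (i ∘ a)
  have e1 : (g6 a).map i = Subgroup.closure (Set.range (i ∘ a)) := by
    unfold g6
    rw [MonoidHom.map_closure, Set.range_comp]
  rw [← e1] at h1 h2 h3
  let e := (g6 a).equivMapOfInjective i hi
  have hfin : Finite (g6 a) := Finite.of_equiv _ e.symm.toEquiv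
  have hcard : Nat.card (g6 a) ≤ N := (Nat.card_congr e.toEquiv).le.trans h2
  refine ⟨hcard, FC.of_card hcard, ?_⟩
  have h4 := h3.of_equiv e
  intro S _ hS hfS hsec
  exact h4 S hS.simple hS.nonab hsec

/-- finitely generated subgroups have models in the smallest universe -/
theorem exists_model {G : Type u} [Group G] {S : Set G} (hS : S.Finite) :
    ∃ (X : Type) (_ : Group X) (_ : Group.FG X) (i : X →* G), Function.Injective i ∧
      i.range = Subgroup.closure S := by
  have := hS.to_subtype
  obtain ⟨k, ⟨e⟩⟩ := Finite.exists_equiv_fin S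
  let f : FreeGroup (Fin k) →* G := FreeGroup.lift fun i => (e.symm i : G)
  have hr : f.range = Subgroup.closure S := by
    rw [FreeGroup.range_lift_eq_closure]
    congr 1
    ext g
    constructor
    · rintro ⟨i, rfl⟩
      exact (e.symm i).2
    · intro hg
      exact ⟨e ⟨g, hg⟩, by simp⟩
  refine ⟨FreeGroup (Fin k) ⧸ f.ker, inferInstance, ?_, QuotientGroup.kerLift f,
    QuotientGroup.kerLift_injective f, ?_⟩
  · infer_instance
  · rw [← hr]
    ext g
    constructor
    · rintro ⟨x, rfl⟩
      obtain ⟨w, rfl⟩ := QuotientGroup.mk_surjective x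
      exact ⟨w, rfl⟩
    · rintro ⟨w, rfl⟩
      exact ⟨QuotientGroup.mk w, rfl⟩

theorem group_level {n : ℕ} (hn : 1 ≤ n)
    (hq : ∀ p k : ℕ, p.Prime → p ^ k ∣ n → 5 < p ^ k → InL.{u} (p ^ k))
    (G : Type u) [Group G] (hexp : ∀ x : G, x ^ n = 1) (hG : Sm N G) (S : Set G)
    (hS : S.Finite) : Finite (Subgroup.closure S) := by
  obtain ⟨X, _, hfg, i, hi, hr⟩ := exists_model hS
  have hq' : ∀ p k : ℕ, p.Prime → p ^ k ∣ n → 5 < p ^ k → LocFin (p ^ k) :=
    fun p k hp hk h => (inL_iff x_LFD _).1 (hq p k hp hk h)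
  have hX : LF X := lf_of_good hn hq' (fun x => hi (by rw [map_pow, hexp, map_one]))
    (good_of_sm i hi hG)
  have hXf : Finite X := finite_of_lf hX hfg
  rw [← hr]
  exact Finite.of_surjective _ i.rangeRestrict_surjective

/-- the structure theorem -/
theorem structure_thm (n : ℕ) (hn : 1 ≤ n) (N : ℕ) : ∃ l : ℕ, ∀ (G : Type) [Group G],
    (∀ x : G, x ^ n = 1) → Sm N G → SerTo n (N ^ N) l (⊤ : Subgroup G) := by
  obtain ⟨l, hl⟩ := ser_main N n hn N
  exact ⟨l, fun G _ hexp hG => hl G hexp (good_of_sm (MonoidHom.id G) (fun _ _ h => h) hG)⟩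

theorem bu_onto {m n : ℕ} {G : Type} [Group G] (hG : ∀ x : G, x ^ n = 1) (v : Fin m → G) :
    ∃ f : Bu m n →* G, f.range = Subgroup.closure (Set.range v) := by
  let f : FreeGroup (Fin m) →* G := FreeGroup.lift v
  have hker : Subgroup.normalClosure (Set.range fun w : FreeGroup (Fin m) => w ^ n) ≤ f.ker := by
    apply Subgroup.normalClosure_le_normal
    rintro _ ⟨w, rfl⟩
    simp [MonoidHom.mem_ker, hG]
  refine ⟨QuotientGroup.lift _ f hker, ?_⟩
  rw [← FreeGroup.range_lift_eq_closure]
  ext g
  constructor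
  · rintro ⟨x, rfl⟩
    obtain ⟨w, rfl⟩ := QuotientGroup.mk_surjective x
    exact ⟨w, rfl⟩
  · rintro ⟨w, rfl⟩
    exact ⟨QuotientGroup.mk w, rfl⟩

/-- the nonabelian finite simple groups of exponent dividing `n` are generated by two elements -/
def STn (n : ℕ) : Prop :=
  ∀ (S : Type) [Group S] [Finite S], IsSimpleGroup S → (∃ a b : S, a * b ≠ b * a) →
    (∀ x : S, x ^ n = 1) → ∃ a b : S, Subgroup.closure {a, b} = ⊤

theorem inL_six {n : ℕ} (hn : 1 ≤ n) (hS : STn n)
    (hq : ∀ p k : ℕ, p.Prime → p ^ k ∣ n → 5 < p ^ k → InL.{u} (p ^ k)) :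
    InL.{u} n ↔ Finite (Bu 6 n) := by
  constructor
  · intro h
    exact bu_of_inL x_LFD n h 6
  · intro hf
    rw [inL_iff x_LFD]
    intro G _ hG
    have hsm : Sm (Nat.card (Bu 6 n)) G := by
      intro a
      obtain ⟨f, hfr⟩ := bu_onto hG a
      rw [← hfr]
      have hfin : Finite f.range := Finite.of_surjective _ f.rangeRestrict_surjective
      refine ⟨hfin, Nat.card_le_card_of_surjective _ f.rangeRestrict_surjective, ?_⟩
      intro S _ _ hsimp hab hsec
      obtain ⟨H, φ, hφ⟩ := hsec
      refine hS S hsimp hab (fun y => ?_)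
      obtain ⟨x, rfl⟩ := hφ y
      rw [← map_pow]
      have : x ^ n = 1 := Subtype.ext (Subtype.ext (hG x.1.1))
      rw [this, map_one]
    intro T
    have hq0 : ∀ p k : ℕ, p.Prime → p ^ k ∣ n → 5 < p ^ k → InL.{0} (p ^ k) :=
      fun p k hp hk h => (inL_iff x_LFD _).2 ((inL_iff x_LFD _).1 (hq p k hp hk h))
    exact group_level hn hq0 G hG hsm (T : Set G) T.finite_toSet

end Pool.Agent.V5helper75.SG
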