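import Pool.Agent.V5helper75.SG.Comp

/-!
# Actions on simple groups of order `c + 1`
-/

set_option autoImplicit false

open scoped commutatorElement

namespace Pool.Agent.V5helper75.SG

variable {V W A X : Type} [Group V] [Group W] [Group A] [Group X] {c : ℕ}

/-- the inner automorphisms -/
abbrev Inn (V : Type) [Group V] : Subgroup (MulAut V) := (MulAut.conj : V →* MulAut V).range

theorem mul_conj (φ : MulAut V) (v : V) : φ * MulAut.conj v * φ⁻¹ = MulAut.conj (φ v) := by
  ext u
  simp [MulAut.conj_apply, MulAut.mul_apply]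

instance inn_normal (V : Type) [Group V] : (Inn V).Normal := by
  constructor
  rintro _ ⟨v, rfl⟩ φ
  exact ⟨φ v, (mul_conj φ v).symm⟩

theorem conj_inj (hV : NAS V) : Function.Injective (MulAut.conj : V →* MulAut V) := by
  rw [injective_iff_map_eq_one]
  intro v hv
  apply hV.center
  intro s
  have h1 : MulAut.conj v s = s := by rw [hv]; rfl
  rw [MulAut.conj_apply] at h1
  calc v * s = (v * s * v⁻¹) * v := by group
    _ = s * v := by rw [h1]

theorem card_inn (hV : NAS V) (hc : Nat.card V = c + 1) : Nat.card (Inn V) = c + 1 := by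
  rw [← hc]
  exact (Nat.card_congr (MonoidHom.ofInjective (conj_inj hV)).toEquiv).symm

theorem card_out (hV : NAS V) (hc : Nat.card V = c + 1) (ht : TG V) :
    Finite (MulAut V ⧸ Inn V) ∧ Nat.card (MulAut V ⧸ Inn V) ≤ c := by
  have hfin : Finite V := Nat.finite_of_card_ne_zero (by omega)
  obtain ⟨a, b, hab⟩ := ht
  have ha : a ≠ 1 := by
    rintro rfl
    obtain ⟨x, y, hxy⟩ := hV.nonab
    apply hxy
    have h1 : ∀ z : V, z ∈ Subgroup.zpowers b := by
      intro z
      have : z ∈ Subgroup.closure {(1 : V), b} := by rw [hab]; trivial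
      have h2 : Subgroup.closure {(1 : V), b} ≤ Subgroup.zpowers b := by
        rw [Subgroup.closure_le]
        rintro z (rfl | rfl)
        · exact Subgroup.one_mem _
        · exact Subgroup.mem_zpowers _
      exact h2 this
    obtain ⟨i, rfl⟩ := h1 x
    obtain ⟨j, rfl⟩ := h1 y
    simp only [← zpow_add, add_comm]
  let g : MulAut V → {x : V // x ≠ 1} × V := fun φ => (⟨φ a, by simpa using ha⟩, φ b)
  have hg : Function.Injective g := by
    intro φ ψ h
    have h1 : φ a = ψ a := congrArg (fun x => x.1.1) h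
    have h2 : φ b = ψ b := congrArg Prod.snd h
    have h3 : Set.EqOn φ.toMonoidHom ψ.toMonoidHom {a, b} := by
      rintro x (rfl | rfl)
      · exact h1
      · exact h2
    have h4 := MonoidHom.eqOn_closure h3
    ext x
    exact h4 (by rw [hab]; trivial)
  have hfin2 : Finite (MulAut V) := Finite.of_injective g hg
  have h5 : Nat.card (MulAut V) ≤ c * (c + 1) := by
    have h6 := Nat.card_le_card_of_injective g hg
    rw [Nat.card_prod, hc] at h6
    have h7 : Nat.card {x : V // x ≠ 1} = c := by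
      have : Fintype V := Fintype.ofFinite V
      classical
      rw [Nat.card_eq_fintype_card] at hc ⊢
      rw [Fintype.card_subtype_compl, Fintype.card_subtype_eq, hc]
      rfl
    rwa [h7] at h6
  refine ⟨inferInstance, ?_⟩
  have h8 : Nat.card (MulAut V) = Nat.card (MulAut V ⧸ Inn V) * Nat.card (Inn V) :=
    Subgroup.card_eq_card_quotient_mul_card_subgroup _
  rw [card_inn hV hc] at h8
  rw [h8] at h5
  exact Nat.le_of_mul_le_mul_right h5 (by omega)

/-- a group acting on `V` induces all inner automorphisms or a group of class `FC c` -/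
theorem inn_le_or (hV : NAS V) (hc : Nat.card V = c + 1) (ht : TG V) (B : Subgroup (MulAut V))
    (h : ¬ Inn V ≤ B) : FC c B := by
  obtain ⟨hf, ho⟩ := card_out hV hc ht
  have hfI : Finite (Inn V) := Nat.finite_of_card_ne_zero (by rw [card_inn hV hc]; omega)
  let p : B →* MulAut V ⧸ Inn V := (QuotientGroup.mk' (Inn V)).comp B.subtype
  apply FC.ext p
  · have h1 : FC c ↥(B ⊓ Inn V) := by
      have : Finite ↥(B ⊓ Inn V) := Finite.of_injective _ (Subgroup.inclusion_injective inf_le_right)
      apply FC.of_card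
      have h2 : Nat.card ↥(B ⊓ Inn V) ≤ Nat.card (Inn V) :=
        Nat.card_le_card_of_injective _ (Subgroup.inclusion_injective inf_le_right)
      rw [card_inn hV hc] at h2
      by_contra h3
      apply h
      have h4 : B ⊓ Inn V = Inn V := by
        apply Subgroup.eq_of_le_of_card_ge inf_le_right
        rw [card_inn hV hc]
        omega
      rw [← h4]
      exact inf_le_left
    refine h1.emb B.subtype (fun n hn => ?_) (fun n _ h => Subtype.ext h)
    exact Subgroup.mem_inf.2 ⟨n.2, (QuotientGroup.eq_one_iff n.1).1 hn⟩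
  · have : FC c (MulAut V ⧸ Inn V) := FC.of_card ho
    exact this.sub _

theorem perf_aut (hV : NAS V) (hc : Nat.card V = c + 1) (ht : TG V) (hW : Perf c W)
    (β : W →* MulAut V) : (∀ w, β w = 1) ∨ β.range = Inn V := by
  by_cases h : Inn V ≤ β.range
  · right
    apply le_antisymm _ h
    rintro _ ⟨w, rfl⟩
    obtain ⟨hf, ho⟩ := card_out hV hc ht
    have h1 : FC c (MulAut V ⧸ Inn V) := FC.of_card ho
    have := hW _ ((QuotientGroup.mk' (Inn V)).comp β) (h1.sub _) w
    exact (QuotientGroup.eq_one_iff _).1 this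
  · left
    exact hW _ β (inn_le_or hV hc ht _ h)

/-- a normal subgroup of class `FC c` of a group acting with all inner automorphisms is trivial
there -/
theorem aut_eq_one (hV : NAS V) (hc : Nat.card V = c + 1) (B M : Subgroup (MulAut V))
    (hB : Inn V ≤ B) (hM : FC c M) (hn : ∀ b ∈ B, ∀ m ∈ M, b * m * b⁻¹ ∈ M) {m : MulAut V}
    (hm : m ∈ M) : m = 1 := by
  by_contra hne
  obtain ⟨v, hv⟩ : ∃ v, m v ≠ v := by
    by_contra h
    push Not at h
    exact hne (MulEquiv.ext h)
  -- `m conj(v⁻¹) m⁻¹ conj(v)` is a nontrivial inner automorphism in `M`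
  have h1 : MulAut.conj (v⁻¹ * m v) ∈ M := by
    have h2 := M.mul_mem (hn _ (hB ⟨v⁻¹, rfl⟩) m hm) (M.inv_mem hm)
    convert h2 using 1
    rw [map_mul, ← mul_conj m v]
    simp only [map_inv]
    group
  have h3 : NAS (Inn V) := hV.iso (MonoidHom.ofInjective (conj_inj hV))
  have h4 : (M.subgroupOf (Inn V)).Normal := ⟨fun a ha b => hn b.1 (hB b.2) a.1 ha⟩
  rcases h3.simple.eq_bot_or_eq_top_of_normal _ h4 with h5 | h5
  · have h6 : (⟨MulAut.conj (v⁻¹ * m v), _, rfl⟩ : Inn V) ∈ M.subgroupOf (Inn V) := h1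
    rw [h5, Subgroup.mem_bot] at h6
    have h7 : MulAut.conj (v⁻¹ * m v) = 1 := congrArg Subtype.val h6
    have h8 : v⁻¹ * m v = 1 := conj_inj hV (h7.trans (map_one _).symm)
    exact hv (inv_mul_eq_one.1 h8).symm
  · have h6 : Inn V ≤ M := by
      intro a ha
      have : (⟨a, ha⟩ : Inn V) ∈ M.subgroupOf (Inn V) := by rw [h5]; trivial
      exact this
    have h7 := (hM.of_le h6).2 (Inn V) h3 Sec.self
    rw [card_inn hV hc] at h7
    omega

/-- the action by conjugation on a subgroup which is normalised -/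
def actHom (φ : W →* A) (U : Subgroup A) (h : ∀ w, ∀ u ∈ U, φ w * u * (φ w)⁻¹ ∈ U) :
    W →* MulAut U where
  toFun w :=
    { toFun := fun u => ⟨φ w * u.1 * (φ w)⁻¹, h w u.1 u.2⟩
      invFun := fun u => ⟨(φ w)⁻¹ * u.1 * φ w, by simpa using h w⁻¹ u.1 u.2⟩
      left_inv := fun u => Subtype.ext (by group)
      right_inv := fun u => Subtype.ext (by group)
      map_mul' := fun u v => Subtype.ext (by
        change φ w * (u.1 * v.1) * (φ w)⁻¹ = φ w * u.1 * (φ w)⁻¹ * (φ w * v.1 * (φ w)⁻¹)
        group) }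
  map_one' := by
    ext u
    change φ 1 * u.1 * (φ 1)⁻¹ = u.1
    simp
  map_mul' a b := by
    ext u
    change φ (a * b) * u.1 * (φ (a * b))⁻¹ = φ a * (φ b * u.1 * (φ b)⁻¹) * (φ a)⁻¹
    rw [map_mul]
    group

theorem actHom_apply (φ : W →* A) (U : Subgroup A) (h : ∀ w, ∀ u ∈ U, φ w * u * (φ w)⁻¹ ∈ U)
    (w : W) (u : U) : ((actHom φ U h w u : U) : A) = φ w * u.1 * (φ w)⁻¹ := rfl

theorem actHom_eq_one (φ : W →* A) (U : Subgroup A) (h : ∀ w, ∀ u ∈ U, φ w * u * (φ w)⁻¹ ∈ U)
    (w : W) : actHom φ U h w = 1 ↔ ∀ u ∈ U, φ w * u = u * φ w := by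
  constructor
  · intro h1 u hu
    have h2 := congrArg (fun f : MulAut U => ((f ⟨u, hu⟩ : U) : A)) h1
    simp only [actHom_apply] at h2
    change φ w * u * (φ w)⁻¹ = u at h2
    calc φ w * u = (φ w * u * (φ w)⁻¹) * φ w := by group
      _ = u * φ w := by rw [h2]
  · intro h1
    ext u
    rw [actHom_apply, h1 u.1 u.2]
    simp

end Pool.Agent.V5helper75.SG
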