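import Pool.Agent.V5helper75.SG.Exp

/-!
# Finite groups all of whose elements normalise the components
-/

set_option autoImplicit false

open scoped commutatorElement

namespace Pool.Agent.V5helper75.SG

variable {X Y A G : Type} [Group X] [Group Y] [Group A] [Group G] {c : ℕ}

theorem IsComp.ne_bot {V : Subgroup A} (hV : IsComp V) : V ≠ ⊥ := by
  rintro rfl
  obtain ⟨a, ha, b, hb, hab⟩ := hV.exists_ne
  apply hab
  rw [Subgroup.mem_bot] at ha hb
  rw [ha, hb]

theorem alive [Finite X] (h1 : FC (c + 1) X) (hk : OK X) (hN : NrmS c X = ⊤) {D P : Subgroup X}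
    (hD : Perf c D) (hP : P.Normal) (hDP : ¬ D ≤ P) :
    ∃ V : Subgroup (X ⧸ rad c X), IsComp V ∧ (∃ d ∈ D, ∃ u ∈ V,
      QuotientGroup.mk' (rad c X) d * u ≠ u * QuotientGroup.mk' (rad c X) d) ∧
      V ⊓ P.map (QuotientGroup.mk' (rad c X)) = ⊥ := by
  by_contra hcon
  push Not at hcon
  apply hDP
  set π := QuotientGroup.mk' (rad c X) with hπ
  have hs : Function.Surjective π := QuotientGroup.mk'_surjective _
  have hB : (P.map π).Normal := hP.map π hs
  have hDN : D ≤ NrmS c X := by rw [hN]; exact le_top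
  -- the element of a component with the same action
  have hstep : ∀ V : Subgroup (X ⧸ rad c X), IsComp V → ∀ d ∈ D, ∃ v ∈ V, v ∈ P.map π ∧
      ∀ u ∈ V, π d * u * (π d)⁻¹ = v * u * v⁻¹ := by
    intro V hV d hd
    by_cases hne : ∃ d ∈ D, ∃ u ∈ V, π d * u ≠ u * π d
    · have h2 := hcon V hV hne
      have hVP : V ≤ P.map π := by
        obtain ⟨z, hz⟩ := (Subgroup.ne_bot_iff_exists_ne_one.1 h2)
        exact hV.le_of (fun u _ w hw => hB.conj_mem w hw.2 u) z.2.1 z.2.2
          (fun h => hz (Subtype.ext h))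
      have h3 := perf_act h1 hk hV hD hDN hne
      have h4 : act hV ⟨d, hDN hd⟩ ∈ Inn V := by
        rw [← h3]
        exact ⟨⟨d, hd⟩, rfl⟩
      obtain ⟨v, hv⟩ := h4
      refine ⟨v.1, v.2, hVP v.2, ?_⟩
      intro u hu
      have h5 := congrArg (fun f : MulAut V => ((f ⟨u, hu⟩ : V) : X ⧸ rad c X)) hv
      simp only [act_apply] at h5
      rw [← h5]
      rfl
    · push Not at hne
      refine ⟨1, V.one_mem, Subgroup.one_mem _, ?_⟩
      intro u hu
      rw [hne d hd u hu]
      simp
  apply hD.le_of (rad_FC c X)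
  intro d hd
  have hF : ∀ F : Finset (Subgroup (X ⧸ rad c X)), ∃ e ∈ P.map π,
      (∀ V ∈ F, IsComp V → ∀ u ∈ V, (π d * e⁻¹) * u = u * (π d * e⁻¹)) ∧
      ∀ V, V ∉ F → IsComp V → ∀ u ∈ V, e * u = u * e := by
    classical
    intro F
    induction F using Finset.induction_on with
    | empty => exact ⟨1, Subgroup.one_mem _, by simp, by simp⟩
    | insert V F hVF ih =>
      obtain ⟨e, he, he1, he2⟩ := ih
      by_cases hV : IsComp V
      · obtain ⟨v, hv, hvP, hvd⟩ := hstep V hV d hd
        refine ⟨v * e, Subgroup.mul_mem _ hvP he, ?_, ?_⟩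
        · intro W hWF hW u hu
          rcases Finset.mem_insert.1 hWF with rfl | hWF
          · have e1 : v⁻¹ * u * v ∈ W := W.mul_mem (W.mul_mem (W.inv_mem hv) hu) hv
            have e2 := he2 W hVF hW _ e1
            have e3 := hvd _ e1
            have e4 : e⁻¹ * (v⁻¹ * u * v) = (v⁻¹ * u * v) * e⁻¹ :=
              (show Commute e (v⁻¹ * u * v) from e2).inv_left
            calc π d * (v * e)⁻¹ * u = π d * (e⁻¹ * (v⁻¹ * u * v)) * v⁻¹ := by group
              _ = (π d * (v⁻¹ * u * v) * (π d)⁻¹) * (π d * e⁻¹ * v⁻¹) := by rw [e4]; group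
              _ = u * (π d * (v * e)⁻¹) := by rw [e3]; group
          · have hne : V ≠ W := by
              rintro rfl
              exact hVF hWF
            have e1 := he1 W hWF hW u hu
            have e2 := hV.comm (quot_h0 c X) (quot_h1 h1) hW hne _ (V.inv_mem hv) u hu
            calc π d * (v * e)⁻¹ * u = π d * e⁻¹ * (v⁻¹ * u) := by group
              _ = (π d * e⁻¹ * u) * v⁻¹ := by rw [e2]; group
              _ = u * (π d * (v * e)⁻¹) := by rw [e1]; group
        · intro W hWF hW u hu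
          rw [Finset.mem_insert, not_or] at hWF
          have e1 := he2 W hWF.2 hW u hu
          have e2 := hV.comm (quot_h0 c X) (quot_h1 h1) hW (Ne.symm hWF.1) _ hv u hu
          rw [mul_assoc, e1, ← mul_assoc, e2, mul_assoc]
      · refine ⟨e, he, ?_, ?_⟩
        · intro W hWF hW
          rcases Finset.mem_insert.1 hWF with rfl | hWF
          · exact absurd hW hV
          · exact he1 W hWF hW
        · intro W hWF hW
          rw [Finset.mem_insert, not_or] at hWF
          exact he2 W hWF.2 hW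
  have : Fintype (Subgroup (X ⧸ rad c X)) := Fintype.ofFinite _
  obtain ⟨e, ⟨p, hp, hpe⟩, he1, -⟩ := hF Finset.univ
  have h5 : π d * e⁻¹ = 1 :=
    eq_one_of_comm (quot_h0 c X) fun V hV u hu => he1 V (Finset.mem_univ _) hV u hu
  refine ⟨p, hp, p⁻¹ * d, ?_, by group⟩
  rw [← QuotientGroup.eq_one_iff]
  change π (p⁻¹ * d) = 1
  rw [map_mul, map_inv, hpe, mul_inv_eq_one.1 h5, inv_mul_cancel]

theorem key [Finite X] (h1 : FC (c + 1) X) (hk : OK X) (hN : NrmS c X = ⊤) {D M : Subgroup X}
    (hD : Perf c D) (hDM : D ≤ M) {u g : X} (hu : u ∈ D)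
    (hgd : ∀ d ∈ D, InRad c M ⁅g, d⁆) (y : X) : ⁅y * u * y⁻¹, g⁆ ∈ rad c X := by
  by_contra hcon
  obtain ⟨W, hW, hne⟩ := exists_comp_ne hcon
  have hDN : D ≤ NrmS c X := by rw [hN]; exact le_top
  have hall : ∀ x : X, x ∈ NrmS c X := fun x => by rw [hN]; trivial
  let α : X →* MulAut W := (act hW).comp
    ((MonoidHom.id X).codRestrict (NrmS c X) hall)
  have hα : ∀ x : X, α x = act hW ⟨x, hall x⟩ := fun x => rfl
  have hα1 : ∀ x : X, α x = 1 ↔ ∀ u ∈ W, QuotientGroup.mk' (rad c X) x * u =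
      u * QuotientGroup.mk' (rad c X) x := fun x => act_eq_one hW ⟨x, hall x⟩
  have h2 : α ⁅y * u * y⁻¹, g⁆ ≠ 1 := by
    intro h
    obtain ⟨v, hv, hvne⟩ := hne
    exact hvne ((hα1 _).1 h v hv)
  apply h2
  by_cases hDW : ∃ d ∈ D, ∃ u ∈ W,
      QuotientGroup.mk' (rad c X) d * u ≠ u * QuotientGroup.mk' (rad c X) d
  · have h3 := perf_act h1 hk hW hD hDN hDW
    have h4 : α g = 1 := by
      have hc := hW.card (quot_h0 c X) (quot_h1 h1)
      have hrad : ∀ d ∈ D, α ⁅g, d⁆ = 1 := by
        intro d hd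
        obtain ⟨R, hRM, hRn, hR, hgR⟩ := hgd d hd
        apply aut_eq_one hW.nas hc (M.map α) (R.map α)
        · intro a ha
          rw [← h3] at ha
          obtain ⟨b, rfl⟩ := ha
          exact ⟨b.1, hDM b.2, rfl⟩
        · exact hR.map α
        · rintro _ ⟨b, hb, rfl⟩ _ ⟨m, hm, rfl⟩
          exact ⟨b * m * b⁻¹, hRn b hb m hm, by simp⟩
        · exact ⟨_, hgR, rfl⟩
      have hcm : ∀ v : W, α g * MulAut.conj v * (α g)⁻¹ = MulAut.conj v := by
        intro v
        have h5 : MulAut.conj v ∈ ((act hW).comp (Subgroup.inclusion hDN)).range := by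
          rw [h3]
          exact ⟨v, rfl⟩
        obtain ⟨d, hd⟩ := h5
        have h6 := hrad d.1 d.2
        rw [map_commutatorElement, commutatorElement_eq_one_iff_mul_comm] at h6
        have h7 : α d.1 = MulAut.conj v := hd
        rw [h7] at h6
        rw [h6, mul_assoc, mul_inv_cancel, mul_one]
      ext v
      have h8 := hcm v
      rw [mul_conj] at h8
      rw [conj_inj hW.nas h8]
      rfl
    rw [map_commutatorElement, h4, commutatorElement_one_right]
  · push Not at hDW
    have h4 : α u = 1 := (hα1 u).2 (hDW u hu)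
    rw [map_commutatorElement, map_mul, map_mul, h4, mul_one, map_inv, mul_inv_cancel,
      commutatorElement_one_left]

end Pool.Agent.V5helper75.SG
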