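import Pool.Agent.V5helper75.SG.AS

/-!
# Elements normalising the components
-/

set_option autoImplicit false

open scoped commutatorElement

namespace Pool.Agent.V5helper75.SG

variable {X Y A G : Type} [Group X] [Group Y] [Group A] [Group G] {c : ℕ}

theorem cj_cj (x y : A) (U : Subgroup A) : cj x (cj y U) = cj (x * y) U := by
  ext v
  simp only [mem_cj]
  rw [show y⁻¹ * (x⁻¹ * v * x) * y = (x * y)⁻¹ * v * (x * y) by group]

theorem cj_one (U : Subgroup A) : cj 1 U = U := by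
  ext v
  simp [mem_cj]

theorem cj_eq_of [Finite A] {x : A} {U : Subgroup A} (h : ∀ u ∈ U, x * u * x⁻¹ ∈ U) : cj x U = U := by
  apply Subgroup.eq_of_le_of_card_ge
  · rintro _ ⟨u, hu, rfl⟩
    exact h u hu
  · exact (card_cj _ _).ge

theorem quot_h0 (c : ℕ) (X : Type) [Group X] [Finite X] :
    ∀ N : Subgroup (X ⧸ rad c X), N.Normal → FC c N → N = ⊥ := by
  intro N hN hF
  have := le_rad hN hF
  rw [rad_quot] at this
  exact le_bot_iff.1 this

theorem quot_h1 (h : FC (c + 1) X) : FC (c + 1) (X ⧸ rad c X) :=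
  h.of_surj (QuotientGroup.mk' _) (QuotientGroup.mk'_surjective _)

theorem quot_ok (h : OK X) : OK (X ⧸ rad c X) :=
  h.of_surj (QuotientGroup.mk' _) (QuotientGroup.mk'_surjective _)

theorem Sec.sub (U : Subgroup X) : Sec X U := ⟨U, MonoidHom.id U, Function.surjective_id⟩

theorem le_of_comm {U M : Subgroup A} (hU : NAS U) (h : ∀ a ∈ U, ∀ b ∈ U, ⁅a, b⁆ ∈ M) : U ≤ M := by
  have h1 : commutator U ≤ M.subgroupOf U := by
    rw [commutator, Subgroup.commutator_le]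
    intro a _ b _
    exact h a.1 a.2 b.1 b.2
  rw [hU.comm_top] at h1
  intro u hu
  exact h1 (Subgroup.mem_top (⟨u, hu⟩ : U))

theorem IsComp.absorb {U M : Subgroup A} (hU : IsComp U)
    (hM : ∀ u ∈ U, ∀ m ∈ M, u * m * u⁻¹ ∈ M) {e : A} (he : e ∈ M)
    (hne : ∃ u ∈ U, e * u ≠ u * e) : U ≤ M := by
  have hn : ∀ u ∈ U, ∀ w ∈ U ⊓ M, u * w * u⁻¹ ∈ M := fun u hu w hw => hM u hu w hw.2
  rcases hU.conj e with h | h
  · obtain ⟨u, hu, hc⟩ := hne
    refine hU.le_of hn (z := e * u * e⁻¹ * u⁻¹) ?_ ?_ ?_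
    · exact U.mul_mem (h u hu) (U.inv_mem hu)
    · have := M.mul_mem he (hM u hu _ (M.inv_mem he))
      convert this using 1
      group
    · intro h1
      apply hc
      calc e * u = (e * u * e⁻¹ * u⁻¹) * (u * e) := by group
        _ = u * e := by rw [h1, one_mul]
  · obtain ⟨a, ha, b, hb, hab⟩ := hU.exists_ne
    have ht : e * a * e⁻¹ * a⁻¹ ∈ M := by
      have := M.mul_mem he (hM a ha _ (M.inv_mem he))
      convert this using 1
      group
    have h2 := M.mul_mem ht (hM b hb _ (M.inv_mem ht))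
    have hc : a⁻¹ * b * a ∈ U := U.mul_mem (U.mul_mem (U.inv_mem ha) hb) ha
    refine hU.le_of hn (z := a⁻¹ * b * a * b⁻¹) ?_ ?_ ?_
    · exact U.mul_mem hc (U.inv_mem hb)
    · have h3 := h a ha _ hc
      convert h2 using 1
      calc a⁻¹ * b * a * b⁻¹ = ((a⁻¹ * b * a) * (e * a * e⁻¹)) * (e * a * e⁻¹)⁻¹ * b⁻¹ := by group
        _ = ((e * a * e⁻¹) * (a⁻¹ * b * a)) * (e * a * e⁻¹)⁻¹ * b⁻¹ := by rw [h3]
        _ = _ := by group
    · intro h1
      apply hab
      calc a * b = a * (a⁻¹ * b * a * b⁻¹)⁻¹ * (a⁻¹ * b * a) := by group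
        _ = b * a := by rw [h1]; group

theorem IsComp.not_FC [Finite A] (h0 : ∀ N : Subgroup A, N.Normal → FC c N → N = ⊥) (h1 : FC (c + 1) A)
    {U M : Subgroup A} (hU : IsComp U) (h : U ≤ M) : ¬ FC c M := by
  intro hM
  have h2 := (hM.of_le h).2 U hU.nas Sec.self
  rw [hU.card h0 h1] at h2
  omega

theorem exists_lift (π : X →* A) (hπ : Function.Surjective π) {U : Subgroup A} (ht : TG U) :
    ∃ h₁ h₂ : X, (Subgroup.closure {h₁, h₂}).map π = U := by
  obtain ⟨a, b, hab⟩ := ht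
  obtain ⟨h₁, e₁⟩ := hπ a.1
  obtain ⟨h₂, e₂⟩ := hπ b.1
  refine ⟨h₁, h₂, ?_⟩
  have h3 : (Subgroup.closure {a, b}).map U.subtype = U := by
    rw [hab]
    ext x
    constructor
    · rintro ⟨y, _, rfl⟩
      exact y.2
    · intro h
      exact ⟨⟨x, h⟩, trivial, rfl⟩
  rw [MonoidHom.map_closure, Set.image_pair, e₁, e₂]
  rw [MonoidHom.map_closure, Set.image_pair] at h3
  exact h3

theorem exists_perf_in [Finite X] {L : Subgroup X} {V : Subgroup A} (π : X →* A) (hV : NAS V)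
    (hc : ¬ FC c V) (hL : V ≤ L.map π) : ∃ D ≤ L, Perf c D ∧ D.map π = V := by
  let L' : Subgroup X := L ⊓ V.comap π
  let q : L' →* V := (π.comp L'.subtype).codRestrict V (fun x => x.2.2)
  have hq : Function.Surjective q := by
    intro v
    obtain ⟨l, hl, hlv⟩ := hL v.2
    have h1 : π l ∈ V := by rw [hlv]; exact v.2
    exact ⟨⟨l, hl, h1⟩, Subtype.ext hlv⟩
  obtain ⟨D₀, hD₀, hD1⟩ := exists_perf_onto q hq hV hc
  refine ⟨D₀.map L'.subtype, ?_, ?_, ?_⟩
  · rintro _ ⟨x, _, rfl⟩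
    exact x.2.1
  · exact hD₀.iso (D₀.equivMapOfInjective L'.subtype L'.subtype_injective)
  · ext v
    constructor
    · rintro ⟨_, ⟨x, _, rfl⟩, rfl⟩
      exact x.2.2
    · intro hv
      have h2 : (⟨v, hv⟩ : V) ∈ D₀.map q := by rw [hD1]; trivial
      obtain ⟨x, hx, hxv⟩ := h2
      exact ⟨x, ⟨x, hx, rfl⟩, congrArg Subtype.val hxv⟩

/-- outside the radical -/
theorem exists_comp_ne [Finite X] {e : X} (he : e ∉ rad c X) :
    ∃ U : Subgroup (X ⧸ rad c X), IsComp U ∧ ∃ u ∈ U,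
      QuotientGroup.mk' (rad c X) e * u ≠ u * QuotientGroup.mk' (rad c X) e := by
  by_contra h
  push Not at h
  apply he
  rw [← QuotientGroup.eq_one_iff]
  exact eq_one_of_comm (quot_h0 c X) h

theorem bs_rad [Finite X] (h1 : FC (c + 1) X) (hk : OK X) {e : X} (he : e ∉ rad c X) :
    ∃ h₁ h₂ : X, ¬ InRad c (Subgroup.closure {e, h₁, h₂}) e := by
  obtain ⟨U, hU, hne⟩ := exists_comp_ne he
  have hk' : OK (X ⧸ rad c X) := quot_ok hk
  obtain ⟨h₁, h₂, hh⟩ := exists_lift (QuotientGroup.mk' (rad c X)) (QuotientGroup.mk'_surjective _)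
    (hk' U hU.nas inferInstance (Sec.sub U))
  refine ⟨h₁, h₂, ?_⟩
  rintro ⟨M, hM, hn, hF, heM⟩
  have h2 : U ≤ M.map (QuotientGroup.mk' (rad c X)) := by
    refine hU.absorb ?_ ⟨e, heM, rfl⟩ hne
    rintro u hu _ ⟨m, hm, rfl⟩
    rw [← hh] at hu
    obtain ⟨y, hy, rfl⟩ := hu
    refine ⟨y * m * y⁻¹, hn y ?_ m hm, by simp⟩
    have h3 : Subgroup.closure {h₁, h₂} ≤ Subgroup.closure {e, h₁, h₂} :=
      Subgroup.closure_mono (by
        rintro z (rfl | rfl)
        · simp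
        · simp)
    exact h3 hy
  exact hU.not_FC (quot_h0 c X) (quot_h1 h1) h2 (hF.map _)

/-! ## Elements normalising all components -/

/-- the elements of `X` which normalise all components of `X / rad` -/
def NrmS (c : ℕ) (X : Type) [Group X] : Subgroup X where
  carrier := {x | ∀ U : Subgroup (X ⧸ rad c X), IsComp U → cj (QuotientGroup.mk' (rad c X) x) U = U}
  one_mem' := fun U _ => by rw [map_one, cj_one]
  mul_mem' := by
    intro x y hx hy U hU
    rw [map_mul, ← cj_cj, hy U hU, hx U hU]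
  inv_mem' := by
    intro x hx U hU
    have := congrArg (cj (QuotientGroup.mk' (rad c X) x)⁻¹) (hx U hU)
    rw [cj_cj, inv_mul_cancel, cj_one] at this
    rw [map_inv]
    exact this.symm

theorem mem_NrmS {x : X} : x ∈ NrmS c X ↔
    ∀ U : Subgroup (X ⧸ rad c X), IsComp U → cj (QuotientGroup.mk' (rad c X) x) U = U := Iff.rfl

instance NrmS_normal (c : ℕ) (X : Type) [Group X] : (NrmS c X).Normal := by
  constructor
  intro x hx g U hU
  rw [map_mul, map_mul, ← cj_cj, ← cj_cj, hx _ (hU.cjg _), cj_cj, ← map_mul, mul_inv_cancel, map_one,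
    cj_one]

/-- the subgroup generated by the conjugates of `x` under `Y` -/
def rnc (Y : Subgroup X) (x : X) : Subgroup X := Subgroup.closure {g | ∃ y ∈ Y, g = y * x * y⁻¹}

theorem rnc_mono {Y Y' : Subgroup X} (h : Y ≤ Y') (x : X) : rnc Y x ≤ rnc Y' x := by
  apply Subgroup.closure_mono
  rintro g ⟨y, hy, rfl⟩
  exact ⟨y, h hy, rfl⟩

theorem self_mem_rnc (Y : Subgroup X) (x : X) : x ∈ rnc Y x :=
  Subgroup.subset_closure ⟨1, Y.one_mem, by simp⟩

theorem rnc_conj {Y : Subgroup X} {x y m : X} (hy : y ∈ Y) (hm : m ∈ rnc Y x) :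
    y * m * y⁻¹ ∈ rnc Y x := by
  have h : rnc Y x ≤ (rnc Y x).comap (MulAut.conj y).toMonoidHom := by
    unfold rnc
    rw [Subgroup.closure_le]
    rintro g ⟨z, hz, rfl⟩
    refine Subgroup.subset_closure ⟨y * z, Y.mul_mem hy hz, ?_⟩
    change y * (z * x * z⁻¹) * y⁻¹ = _
    group
  exact h hm

theorem rnc_le {Y M : Subgroup X} {x : X} (hM : ∀ y ∈ Y, ∀ m ∈ M, y * m * y⁻¹ ∈ M) (hx : x ∈ M) :
    rnc Y x ≤ M := by
  unfold rnc
  rw [Subgroup.closure_le]
  rintro g ⟨y, hy, rfl⟩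
  exact hM y hy x hx

theorem rnc_map (i : X →* G) (Y : Subgroup X) (x : X) : (rnc Y x).map i = rnc (Y.map i) (i x) := by
  unfold rnc
  rw [MonoidHom.map_closure]
  congr 1
  ext g
  constructor
  · rintro ⟨_, ⟨y, hy, rfl⟩, rfl⟩
    exact ⟨i y, ⟨y, hy, rfl⟩, by simp⟩
  · rintro ⟨_, ⟨y, hy, rfl⟩, rfl⟩
    exact ⟨y * x * y⁻¹, ⟨y, hy, rfl⟩, by simp⟩

/-- witness for not normalising the components -/
def Bad (c : ℕ) (Y : Subgroup X) (x : X) : Prop :=
  ∃ D R : Subgroup X, Perf c D ∧ D ≠ ⊥ ∧ D ≤ rnc Y x ∧ FC c R ∧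
    ∀ d ∈ D, ∀ d' ∈ D, ⁅d, x * d' * x⁻¹⁆ ∈ R

theorem Bad.mono {Y Y' : Subgroup X} {x : X} (h : Y ≤ Y') (hb : Bad c Y x) : Bad c Y' x := by
  obtain ⟨D, R, h1, h2, h3, h4, h5⟩ := hb
  exact ⟨D, R, h1, h2, h3.trans (rnc_mono h x), h4, h5⟩

theorem bad_map (i : X →* G) (hi : Function.Injective i) {Y : Subgroup X} {x : X} :
    Bad c (Y.map i) (i x) ↔ Bad c Y x := by
  constructor
  · rintro ⟨D, R, h1, h2, h3, h4, h5⟩
    rw [← rnc_map] at h3
    have h6 : (D.comap i).map i = D := by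
      apply le_antisymm (Subgroup.map_comap_le i D)
      intro d hd
      obtain ⟨y, _, rfl⟩ := h3 hd
      exact ⟨y, hd, rfl⟩
    refine ⟨D.comap i, R.comap i, ?_, ?_, ?_, ?_, ?_⟩
    · rw [← h6] at h1
      exact h1.iso ((D.comap i).equivMapOfInjective i hi).symm
    · intro h
      apply h2
      rw [← h6, h, Subgroup.map_bot]
    · intro d hd
      obtain ⟨y, hy, hyd⟩ := h3 hd
      rwa [← hi hyd]
    · exact h4.emb i (fun n hn => hn) (fun n _ h => hi (h.trans (map_one i).symm))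
    · intro d hd d' hd'
      rw [Subgroup.mem_comap, map_commutatorElement, map_mul, map_mul, map_inv]
      exact h5 _ hd _ hd'
  · rintro ⟨D, R, h1, h2, h3, h4, h5⟩
    refine ⟨D.map i, R.map i, ?_, ?_, ?_, ?_, ?_⟩
    · exact h1.iso (D.equivMapOfInjective i hi)
    · intro h
      apply h2
      exact (Subgroup.map_eq_bot_iff_of_injective D hi).1 h
    · rw [← rnc_map]
      exact Subgroup.map_mono h3
    · exact h4.map i
    · rintro _ ⟨d, hd, rfl⟩ _ ⟨d', hd', rfl⟩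
      refine ⟨_, h5 d hd d' hd', ?_⟩
      rw [map_commutatorElement, map_mul, map_mul, map_inv]

theorem exists_bad [Finite X] (h1 : FC (c + 1) X) (hk : OK X) {x : X} (hx : x ∉ NrmS c X) :
    ∃ h₁ h₂ : X, Bad c (Subgroup.closure {x, h₁, h₂}) x := by
  rw [mem_NrmS] at hx
  push Not at hx
  obtain ⟨V, hV, hVx⟩ := hx
  set π := QuotientGroup.mk' (rad c X) with hπ
  have hs : Function.Surjective π := QuotientGroup.mk'_surjective _
  have hk' : OK (X ⧸ rad c X) := quot_ok hk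
  have hcm : ∀ u ∈ V, ∀ v ∈ V, π x * u * (π x)⁻¹ * v = v * (π x * u * (π x)⁻¹) := by
    rcases hV.conj (π x) with h | h
    · exact absurd (cj_eq_of h) hVx
    · exact h
  have hne : ∃ u ∈ V, π x * u ≠ u * π x := by
    by_contra h
    push Not at h
    apply hVx
    apply cj_eq_of
    intro u hu
    rw [h u hu, mul_assoc, mul_inv_cancel, mul_one]
    exact hu
  obtain ⟨h₁, h₂, hh⟩ := exists_lift π hs (hk' V hV.nas inferInstance (Sec.sub V))
  refine ⟨h₁, h₂, ?_⟩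
  set L := rnc (Subgroup.closure {x, h₁, h₂}) x with hL
  have h3 : Subgroup.closure {h₁, h₂} ≤ Subgroup.closure {x, h₁, h₂} :=
    Subgroup.closure_mono (by
      rintro z (rfl | rfl)
      · simp
      · simp)
  have h2 : V ≤ L.map π := by
    refine hV.absorb ?_ ⟨x, self_mem_rnc _ x, rfl⟩ hne
    rintro u hu _ ⟨m, hm, rfl⟩
    rw [← hh] at hu
    obtain ⟨y, hy, rfl⟩ := hu
    exact ⟨y * m * y⁻¹, rnc_conj (h3 hy) hm, by simp⟩
  have hnF : ¬ FC c V := hV.not_FC (quot_h0 c X) (quot_h1 h1) le_rfl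
  obtain ⟨D, hDL, hDp, hDm⟩ := exists_perf_in π hV.nas hnF h2
  refine ⟨D, rad c X, hDp, ?_, hDL, rad_FC c X, ?_⟩
  · rintro rfl
    rw [Subgroup.map_bot] at hDm
    apply hnF
    rw [← hDm]
    exact FC.bot
  · intro d hd d' hd'
    rw [← QuotientGroup.eq_one_iff]
    change π ⁅d, x * d' * x⁻¹⁆ = 1
    rw [map_commutatorElement, map_mul, map_mul, map_inv, commutatorElement_eq_one_iff_mul_comm]
    have e1 : π d ∈ V := by rw [← hDm]; exact ⟨d, hd, rfl⟩
    have e2 : π d' ∈ V := by rw [← hDm]; exact ⟨d', hd', rfl⟩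
    exact (hcm _ e2 _ e1).symm

/-- the action of the elements normalising the components on a component -/
noncomputable def act {V : Subgroup (X ⧸ rad c X)} (hV : IsComp V) : NrmS c X →* MulAut V :=
  actHom ((QuotientGroup.mk' (rad c X)).comp (NrmS c X).subtype) V (by
    intro w u hu
    have h1 := w.2 V hV
    have h2 := conj_mem_cj (x := QuotientGroup.mk' (rad c X) w.1) hu
    rw [h1] at h2
    exact h2)

theorem act_apply {V : Subgroup (X ⧸ rad c X)} (hV : IsComp V) (w : NrmS c X) (u : V) :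
    ((act hV w u : V) : X ⧸ rad c X) =
      QuotientGroup.mk' (rad c X) w.1 * u.1 * (QuotientGroup.mk' (rad c X) w.1)⁻¹ := rfl

theorem act_eq_one {V : Subgroup (X ⧸ rad c X)} (hV : IsComp V) (w : NrmS c X) :
    act hV w = 1 ↔ ∀ u ∈ V,
      QuotientGroup.mk' (rad c X) w.1 * u = u * QuotientGroup.mk' (rad c X) w.1 :=
  actHom_eq_one _ _ _ _

/-- a nontrivial perfect subgroup is not of class `FC c` -/
theorem Perf.not_le_rad [Finite X] {D : Subgroup X} (hD : Perf c D) (h1 : D ≠ ⊥) :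
    ∃ d ∈ D, d ∉ rad c X := by
  by_contra h
  push Not at h
  apply h1
  rw [eq_bot_iff]
  intro d hd
  have h2 : FC c D := (rad_FC c X).of_le h
  have h3 := hD D (MonoidHom.id D) (h2.sub _) ⟨d, hd⟩
  exact congrArg Subtype.val h3

theorem perf_act [Finite X] (h1 : FC (c + 1) X) (hk : OK X) {V : Subgroup (X ⧸ rad c X)}
    (hV : IsComp V) {D : Subgroup X} (hD : Perf c D) (hle : D ≤ NrmS c X)
    (hne : ∃ d ∈ D, ∃ u ∈ V,
      QuotientGroup.mk' (rad c X) d * u ≠ u * QuotientGroup.mk' (rad c X) d) :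
    ((act hV).comp (Subgroup.inclusion hle)).range = Inn V := by
  have hk' : OK (X ⧸ rad c X) := quot_ok hk
  rcases perf_aut hV.nas (hV.card (quot_h0 c X) (quot_h1 h1))
    (hk' V hV.nas inferInstance (Sec.sub V)) hD ((act hV).comp (Subgroup.inclusion hle)) with h | h
  · exfalso
    obtain ⟨d, hd, u, hu, hdu⟩ := hne
    have h2 := h ⟨d, hd⟩
    exact hdu ((act_eq_one hV _).1 h2 u hu)
  · exact h

theorem not_bad [Finite X] (h1 : FC (c + 1) X) (hk : OK X) {x : X} (hx : x ∈ NrmS c X) :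
    ¬ Bad c ⊤ x := by
  rintro ⟨D, R, hD, hD1, hDle, hR, hcomm⟩
  have hDN : D ≤ NrmS c X :=
    hDle.trans (rnc_le (fun y _ m hm => (NrmS_normal c X).conj_mem m hm y) hx)
  obtain ⟨d, hd, hdr⟩ := hD.not_le_rad hD1
  obtain ⟨V, hV, u, hu, hdu⟩ := exists_comp_ne hdr
  have hβ := perf_act h1 hk hV hD hDN ⟨d, hd, u, hu, hdu⟩
  let S : Subgroup (MulAut V) := (R.subgroupOf (NrmS c X)).map (act hV)
  have hS : FC c S := by
    have h2 : FC c (R.subgroupOf (NrmS c X)) :=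
      hR.emb (NrmS c X).subtype (fun n hn => hn) (fun n _ h => Subtype.ext h)
    exact h2.map _
  have hc := hV.card (quot_h0 c X) (quot_h1 h1)
  have hI : NAS (Inn V) := hV.nas.iso (MonoidHom.ofInjective (conj_inj hV.nas))
  have hle : Inn V ≤ S := by
    apply le_of_comm hI
    intro a ha b hb
    have hb' : (act hV ⟨x, hx⟩)⁻¹ * b * act hV ⟨x, hx⟩ ∈ Inn V := by
      have := (inn_normal V).conj_mem b hb (act hV ⟨x, hx⟩)⁻¹
      rwa [inv_inv] at this
    rw [← hβ] at ha hb'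
    obtain ⟨d₁, rfl⟩ := ha
    obtain ⟨d₂, h2⟩ := hb'
    have h3 : act hV ⟨x, hx⟩ * ((act hV).comp (Subgroup.inclusion hDN)) d₂ *
        (act hV ⟨x, hx⟩)⁻¹ = b := by
      rw [h2]
      group
    refine ⟨⁅(⟨d₁.1, hDN d₁.2⟩ : NrmS c X), ⟨x, hx⟩ * ⟨d₂.1, hDN d₂.2⟩ * (⟨x, hx⟩ : NrmS c X)⁻¹⁆, ?_, ?_⟩
    · exact hcomm d₁.1 d₁.2 d₂.1 d₂.2
    · rw [map_commutatorElement, map_mul, map_mul, map_inv, ← h3]
      rfl
  have h7 := (hS.of_le hle).2 (Inn V) hI Sec.self
  rw [card_inn hV.nas hc] at h7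
  omega

end Pool.Agent.V5helper75.SG
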