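import Pool.Agent.V5helper75.SG.Perf

/-!
# Components of a finite group without normal subgroups of class `FC c`
-/

set_option autoImplicit false

open scoped commutatorElement

namespace Pool.Agent.V5helper75.SG

variable {A : Type} [Group A]

/-- the conjugate subgroup -/
def cj (x : A) (U : Subgroup A) : Subgroup A := U.map (MulAut.conj x).toMonoidHom

theorem mem_cj {x v : A} {U : Subgroup A} : v ∈ cj x U ↔ x⁻¹ * v * x ∈ U := by
  constructor
  · rintro ⟨u, hu, rfl⟩
    change x⁻¹ * (x * u * x⁻¹) * x ∈ U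
    rwa [show x⁻¹ * (x * u * x⁻¹) * x = u by group]
  · intro h
    exact ⟨_, h, by change x * (x⁻¹ * v * x) * x⁻¹ = v; group⟩

theorem conj_mem_cj {x u : A} {U : Subgroup A} (h : u ∈ U) : x * u * x⁻¹ ∈ cj x U := ⟨u, h, rfl⟩

/-- `U` is simple, nonabelian, and each conjugate is equal to `U` or commutes with `U` -/
structure IsComp (U : Subgroup A) : Prop where
  nas : NAS U
  conj : ∀ x : A, (∀ u ∈ U, x * u * x⁻¹ ∈ U) ∨ ∀ u ∈ U, ∀ v ∈ U, x * u * x⁻¹ * v = v * (x * u * x⁻¹)

theorem card_cj (x : A) (U : Subgroup A) : Nat.card (cj x U) = Nat.card U :=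
  (Nat.card_congr (U.equivMapOfInjective _ (MulAut.conj x).injective).toEquiv).symm

theorem IsComp.exists_ne {U : Subgroup A} (h : IsComp U) : ∃ a ∈ U, ∃ b ∈ U, a * b ≠ b * a := by
  obtain ⟨a, b, hab⟩ := h.nas.nonab
  exact ⟨a.1, a.2, b.1, b.2, fun h => hab (Subtype.ext h)⟩

theorem IsComp.cjg {U : Subgroup A} (h : IsComp U) (x : A) : IsComp (cj x U) := by
  constructor
  · exact h.nas.iso (U.equivMapOfInjective _ (MulAut.conj x).injective)
  · intro y
    rcases h.conj (x⁻¹ * y * x) with h1 | h1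
    · left
      intro u hu
      rw [mem_cj] at hu ⊢
      have := h1 _ hu
      convert this using 1
      group
    · right
      intro u hu v hv
      rw [mem_cj] at hu hv
      have h2 := h1 _ hu _ hv
      have h3 : x * (x⁻¹ * y * x * (x⁻¹ * u * x) * (x⁻¹ * y * x)⁻¹ * (x⁻¹ * v * x)) * x⁻¹ =
          x * (x⁻¹ * v * x * (x⁻¹ * y * x * (x⁻¹ * u * x) * (x⁻¹ * y * x)⁻¹)) * x⁻¹ := by rw [h2]
      calc y * u * y⁻¹ * v = x * (x⁻¹ * y * x * (x⁻¹ * u * x) * (x⁻¹ * y * x)⁻¹ * (x⁻¹ * v * x)) * x⁻¹ := by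
            group
        _ = _ := h3
        _ = v * (y * u * y⁻¹) := by group

theorem IsComp.center {U : Subgroup A} (h : IsComp U) {z : A} (hz : z ∈ U)
    (hc : ∀ u ∈ U, z * u = u * z) : z = 1 :=
  congrArg Subtype.val (h.nas.center (z := ⟨z, hz⟩) fun u => Subtype.ext (hc u.1 u.2))

/-- a normal subgroup of a component which is not trivial is everything -/
theorem IsComp.le_of {U W : Subgroup A} (h : IsComp U) (hn : ∀ u ∈ U, ∀ w ∈ U ⊓ W, u * w * u⁻¹ ∈ W)
    {z : A} (hz : z ∈ U) (hzW : z ∈ W) (hz1 : z ≠ 1) : U ≤ W := by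
  have hN : (W.subgroupOf U).Normal := ⟨fun w hw u => hn u.1 u.2 w.1 ⟨w.2, hw⟩⟩
  rcases h.nas.simple.eq_bot_or_eq_top_of_normal _ hN with h0 | h1
  · exfalso
    have : (⟨z, hz⟩ : U) ∈ W.subgroupOf U := hzW
    rw [h0, Subgroup.mem_bot] at this
    exact hz1 (congrArg Subtype.val this)
  · intro u hu
    have : (⟨u, hu⟩ : U) ∈ W.subgroupOf U := by rw [h1]; trivial
    exact this

section

variable {c : ℕ}

/-- the normal closure of `U` normalises the conjugates of `U` -/
theorem norm_of_conj {U V : Subgroup A}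
    (hU : ∀ x : A, (∀ u ∈ U, x * u * x⁻¹ ∈ U) ∨ ∀ u ∈ U, ∀ v ∈ U, x * u * x⁻¹ * v = v * (x * u * x⁻¹))
    (hV : V ≤ U) (hn : ∀ u ∈ U, ∀ v ∈ V, u * v * u⁻¹ ∈ V) (x : A) {m : A}
    (hm : m ∈ Subgroup.normalClosure (U : Set A)) : ∀ v ∈ cj x V, m * v * m⁻¹ ∈ cj x V := by
  have key : ∀ y : A, ∀ u ∈ U, ∀ v ∈ cj x V, (y * u * y⁻¹) * v * (y * u * y⁻¹)⁻¹ ∈ cj x V := by
    intro y u hu v hv
    rw [mem_cj] at hv ⊢
    rcases hU (x⁻¹ * y) with h1 | h1
    · have h2 := hn _ (h1 u hu) _ hv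
      convert h2 using 1
      group
    · have h2 := h1 u hu _ (hV hv)
      have h3 : x⁻¹ * (y * u * y⁻¹ * v * (y * u * y⁻¹)⁻¹) * x =
          (x⁻¹ * y * u * (x⁻¹ * y)⁻¹ * (x⁻¹ * v * x)) * (x⁻¹ * y * u * (x⁻¹ * y)⁻¹)⁻¹ := by group
      rw [h3, h2, mul_assoc, mul_inv_cancel, mul_one]
      exact hv
  have : ∀ m ∈ Subgroup.normalClosure (U : Set A), ∀ v ∈ cj x V, m * v * m⁻¹ ∈ cj x V ∧
      m⁻¹ * v * m ∈ cj x V := by
    intro m hm
    unfold Subgroup.normalClosure at hm
    induction hm using Subgroup.closure_induction with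
    | mem m hm =>
      intro v hv
      obtain ⟨u, hu, hum⟩ := Group.mem_conjugatesOfSet_iff.1 hm
      obtain ⟨y, hy⟩ := isConj_iff.1 hum
      rw [← hy]
      refine ⟨key y u hu v hv, ?_⟩
      have h2 := key y u⁻¹ (U.inv_mem hu) v hv
      convert h2 using 1
      group
    | one => intro v hv; simpa using hv
    | mul a b _ _ ha hb =>
      intro v hv
      constructor
      · have := (ha _ (hb v hv).1).1
        convert this using 1
        group
      · have := (hb _ (ha v hv).2).2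
        convert this using 1
        group
    | inv a _ ha =>
      intro v hv
      rw [inv_inv]
      exact ⟨(ha v hv).2, (ha v hv).1⟩
  exact fun v hv => (this m hm v hv).1

theorem exists_comp [Finite A] (h0 : ∀ N : Subgroup A, N.Normal → FC c N → N = ⊥)
    {N : Subgroup A} (hN : N.Normal) (hN1 : N ≠ ⊥) : ∃ U ≤ N, IsComp U := by
  obtain ⟨M, hM⟩ := (Set.toFinite {M : Subgroup A | M.Normal ∧ M ≠ ⊥ ∧ M ≤ N}).exists_minimal
    ⟨N, hN, hN1, le_rfl⟩
  obtain ⟨hMn, hM1, hMN⟩ := hM.1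
  obtain ⟨U, hU⟩ := (Set.toFinite {U : Subgroup A | U ≠ ⊥ ∧ U ≤ M ∧
    ∀ m ∈ M, ∀ u ∈ U, m * u * m⁻¹ ∈ U}).exists_minimal ⟨M, hM1, le_rfl,
      fun m hm u hu => M.mul_mem (M.mul_mem hm hu) (M.inv_mem hm)⟩
  obtain ⟨hU1, hUM, hUn⟩ := hU.1
  have hcjM : ∀ x, cj x U ≤ M := by
    rintro x _ ⟨u, hu, rfl⟩
    exact hMn.conj_mem u (hUM hu) x
  have hcjn : ∀ x, ∀ m ∈ M, ∀ v ∈ cj x U, m * v * m⁻¹ ∈ cj x U := by
    intro x m hm v hv
    rw [mem_cj] at hv ⊢
    have h1 := hUn (x⁻¹ * m * x) (by simpa using hMn.conj_mem m hm x⁻¹) _ hv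
    convert h1 using 1
    group
  have hconj : ∀ x : A, (∀ u ∈ U, x * u * x⁻¹ ∈ U) ∨
      ∀ u ∈ U, ∀ v ∈ U, x * u * x⁻¹ * v = v * (x * u * x⁻¹) := by
    intro x
    by_cases hx : U ⊓ cj x U = ⊥
    · right
      intro u hu v hv
      have h1 : x * u * x⁻¹ * v * (x * u * x⁻¹)⁻¹ * v⁻¹ ∈ U ⊓ cj x U := by
        refine Subgroup.mem_inf.2 ⟨?_, ?_⟩
        · exact U.mul_mem (hUn _ (hcjM x (conj_mem_cj hu)) v hv) (U.inv_mem hv)
        · have := (cj x U).mul_mem (conj_mem_cj (x := x) hu)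
            (hcjn x v (hUM hv) _ ((cj x U).inv_mem (conj_mem_cj (x := x) hu)))
          convert this using 1
          group
      rw [hx, Subgroup.mem_bot] at h1
      calc x * u * x⁻¹ * v = (x * u * x⁻¹ * v * (x * u * x⁻¹)⁻¹ * v⁻¹) * (v * (x * u * x⁻¹)) := by group
        _ = v * (x * u * x⁻¹) := by rw [h1, one_mul]
    · left
      have h1 : U ≤ U ⊓ cj x U := hU.2 ⟨hx, inf_le_left.trans hUM, fun m hm u hu =>
        ⟨hUn m hm u hu.1, hcjn x m hm u hu.2⟩⟩ inf_le_left
      have h2 : U = cj x U := Subgroup.eq_of_le_of_card_ge (h1.trans inf_le_right) (card_cj x U).le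
      intro u hu
      have := conj_mem_cj (x := x) hu
      rwa [← h2] at this
  have hgen : M ≤ Subgroup.normalClosure (U : Set A) := by
    refine hM.2 ⟨inferInstance, ?_, (Subgroup.normalClosure_le_normal hUM).trans hMN⟩
      (Subgroup.normalClosure_le_normal hUM)
    intro h
    apply hU1
    rw [eq_bot_iff, ← h]
    exact Subgroup.subset_normalClosure
  have hnt : Nontrivial U := (Subgroup.nontrivial_iff_ne_bot U).2 hU1
  refine ⟨U, hUM.trans hMN, ⟨⟨⟨?_⟩, ?_⟩, hconj⟩⟩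
  · intro V hV
    by_cases hV1 : V = ⊥
    · exact Or.inl hV1
    · right
      have h1 : U ≤ V.map U.subtype := by
        refine hU.2 ⟨?_, ?_, ?_⟩ ?_
        · intro h
          apply hV1
          rw [eq_bot_iff]
          intro v hv
          have : (v : A) ∈ V.map U.subtype := ⟨v, hv, rfl⟩
          rw [h, Subgroup.mem_bot] at this
          exact Subtype.ext this
        · rintro _ ⟨v, _, rfl⟩
          exact hUM v.2
        · intro m hm v hv
          have h2 := norm_of_conj (V := V.map U.subtype) hconj (by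
            rintro _ ⟨v, _, rfl⟩
            exact v.2) (by
            rintro u hu _ ⟨v, hv, rfl⟩
            exact ⟨⟨u, hu⟩ * v * ⟨u, hu⟩⁻¹, hV.conj_mem v hv ⟨u, hu⟩, rfl⟩) 1 (hgen hm) v (by
              rw [mem_cj]; simpa using hv)
          rw [mem_cj] at h2
          simpa using h2
        · rintro _ ⟨v, _, rfl⟩
          exact v.2
      rw [eq_top_iff]
      intro u _
      obtain ⟨v, hv, hvu⟩ := h1 u.2
      rwa [← Subtype.ext hvu]
  · by_contra hab
    push Not at hab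
    apply hM1
    apply h0 M hMn
    have hcomm : ∀ a ∈ Group.conjugatesOfSet (U : Set A), ∀ b ∈ Group.conjugatesOfSet (U : Set A),
        a * b = b * a := by
      intro a ha b hb
      obtain ⟨u, hu, hua⟩ := Group.mem_conjugatesOfSet_iff.1 ha
      obtain ⟨x, rfl⟩ := isConj_iff.1 hua
      obtain ⟨v, hv, hvb⟩ := Group.mem_conjugatesOfSet_iff.1 hb
      obtain ⟨y, rfl⟩ := isConj_iff.1 hvb
      have h1 : (y⁻¹ * x) * u * (y⁻¹ * x)⁻¹ * v = v * ((y⁻¹ * x) * u * (y⁻¹ * x)⁻¹) := by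
        rcases hconj (y⁻¹ * x) with h | h
        · exact congrArg Subtype.val (hab ⟨_, h u hu⟩ ⟨v, hv⟩)
        · exact h u hu v hv
      calc x * u * x⁻¹ * (y * v * y⁻¹) = y * ((y⁻¹ * x) * u * (y⁻¹ * x)⁻¹ * v) * y⁻¹ := by group
        _ = y * (v * ((y⁻¹ * x) * u * (y⁻¹ * x)⁻¹)) * y⁻¹ := by rw [h1]
        _ = y * v * y⁻¹ * (x * u * x⁻¹) := by group
    have : FC c (Subgroup.normalClosure (U : Set A)) := by
      apply FC.of_comm
      intro a b
      exact (Subgroup.isMulCommutative_closure hcomm).is_comm.comm a b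
    exact this.of_le hgen

theorem IsComp.card [Finite A] (h0 : ∀ N : Subgroup A, N.Normal → FC c N → N = ⊥)
    (h1 : FC (c + 1) A) {U : Subgroup A} (hU : IsComp U) : Nat.card U = c + 1 := by
  apply le_antisymm
  · exact h1.2 U hU.nas (Sec.self.of_inj U.subtype U.subtype_injective)
  · by_contra hlt
    have hc : Nat.card U ≤ c := by omega
    have hFC : FC c U := FC.of_card hc
    obtain ⟨a, ha, b, hb, hab⟩ := hU.exists_ne
    have hM : FC c (Subgroup.normalClosure (U : Set A)) := by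
      rw [FC_iff_rad, eq_top_iff]
      have h2 : Subgroup.normalClosure (U : Set A) ≤
          (rad c (Subgroup.normalClosure (U : Set A))).map
            (Subgroup.normalClosure (U : Set A)).subtype := by
        conv_lhs => unfold Subgroup.normalClosure
        rw [Subgroup.closure_le]
        intro g hg
        have hg' : g ∈ Subgroup.normalClosure (U : Set A) := Subgroup.subset_closure hg
        obtain ⟨u, hu, hug⟩ := Group.mem_conjugatesOfSet_iff.1 hg
        obtain ⟨x, rfl⟩ := isConj_iff.1 hug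
        refine ⟨⟨_, hg'⟩, ?_, rfl⟩
        have hn : ((cj x U).subgroupOf (Subgroup.normalClosure (U : Set A))).Normal := by
          constructor
          intro v hv m
          exact norm_of_conj hU.conj le_rfl
            (fun u hu v hv => U.mul_mem (U.mul_mem hu hv) (U.inv_mem hu)) x m.2 v.1 hv
        have hF : FC c ((cj x U).subgroupOf (Subgroup.normalClosure (U : Set A))) := by
          have h3 : FC c (cj x U) := hFC.iso (U.equivMapOfInjective _ (MulAut.conj x).injective)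
          exact h3.emb (Subgroup.normalClosure (U : Set A)).subtype (fun n hn => hn)
            (fun n _ h => Subtype.ext h)
        exact le_rad hn hF (conj_mem_cj (x := x) hu)
      intro g _
      obtain ⟨g', hg', h3⟩ := h2 g.2
      rwa [← Subtype.ext h3]
    have h3 := h0 _ inferInstance hM
    have h4 : a = 1 := by
      have : a ∈ Subgroup.normalClosure (U : Set A) := Subgroup.subset_normalClosure ha
      rwa [h3, Subgroup.mem_bot] at this
    exact hab (by rw [h4]; simp)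

/-- the centraliser of all components is trivial -/
theorem eq_one_of_comm [Finite A] (h0 : ∀ N : Subgroup A, N.Normal → FC c N → N = ⊥) {e : A}
    (he : ∀ U : Subgroup A, IsComp U → ∀ u ∈ U, e * u = u * e) : e = 1 := by
  let C : Subgroup A := Subgroup.centralizer {u | ∃ U : Subgroup A, IsComp U ∧ u ∈ U}
  have hC : C.Normal := by
    constructor
    intro g hg x
    rw [Subgroup.mem_centralizer_iff] at hg ⊢
    rintro u ⟨U, hU, hu⟩
    have h1 := hg (x⁻¹ * u * x) ⟨cj x⁻¹ U, hU.cjg x⁻¹, by rw [mem_cj]; simpa [mul_assoc] using hu⟩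
    calc u * (x * g * x⁻¹) = x * (x⁻¹ * u * x * g) * x⁻¹ := by group
      _ = x * (g * (x⁻¹ * u * x)) * x⁻¹ := by rw [h1]
      _ = x * g * x⁻¹ * u := by group
  have heC : e ∈ C := by
    rw [Subgroup.mem_centralizer_iff]
    rintro u ⟨U, hU, hu⟩
    exact (he U hU u hu).symm
  by_contra hne
  have hC1 : C ≠ ⊥ := by
    intro h
    rw [h, Subgroup.mem_bot] at heC
    exact hne heC
  obtain ⟨U, hUC, hU⟩ := exists_comp h0 hC hC1
  obtain ⟨a, ha, b, hb, hab⟩ := hU.exists_ne
  exact hab ((Subgroup.mem_centralizer_iff.1 (hUC hb)) a ⟨U, hU, ha⟩)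

theorem eq_cj_of_le [Finite A] (h0 : ∀ N : Subgroup A, N.Normal → FC c N → N = ⊥)
    (h1 : FC (c + 1) A) {U W : Subgroup A} (hU : IsComp U) (hW : IsComp W)
    (hle : W ≤ Subgroup.normalClosure (U : Set A)) : ∃ x, W = cj x U := by
  by_contra hne
  push Not at hne
  -- `W` commutes with all conjugates of `U`
  have key : ∀ x, ∀ w ∈ W, ∀ v ∈ cj x U, w * v = v * w := by
    intro x w₀ hw₀ u₀ hu₀
    by_contra hc
    have hV := hU.cjg x
    have hnorm : ∀ w ∈ W, ∀ v ∈ cj x U, w * v * w⁻¹ ∈ cj x U := fun w hw v hv =>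
      norm_of_conj hU.conj le_rfl (fun u hu v hv => U.mul_mem (U.mul_mem hu hv) (U.inv_mem hu)) x
        (hle hw) v hv
    have hw1 : w₀ ≠ 1 := by
      rintro rfl
      exact hc (by simp)
    -- a nontrivial element of the intersection
    have hz : ∃ z ∈ W, z ∈ cj x U ∧ z ≠ 1 := by
      let z₀ := w₀ * u₀ * w₀⁻¹ * u₀⁻¹
      have hz₀ : z₀ ≠ 1 := by
        intro h
        apply hc
        calc w₀ * u₀ = (w₀ * u₀ * w₀⁻¹ * u₀⁻¹) * (u₀ * w₀) := by group
          _ = u₀ * w₀ := by rw [show w₀ * u₀ * w₀⁻¹ * u₀⁻¹ = 1 from h, one_mul]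
      have hzU : z₀ ∈ cj x U := (cj x U).mul_mem (hnorm w₀ hw₀ u₀ hu₀) ((cj x U).inv_mem hu₀)
      rcases hW.conj u₀ with h | h
      · refine ⟨z₀, ?_, hzU, hz₀⟩
        have := W.mul_mem hw₀ (h _ (W.inv_mem hw₀))
        convert this using 1
        simp [z₀, mul_assoc]
      · obtain ⟨w', hw', hww⟩ : ∃ w' ∈ W, w₀ * w' ≠ w' * w₀ := by
          by_contra h2
          push Not at h2
          exact hw1 (hW.center hw₀ h2)
        refine ⟨w₀ * w' * w₀⁻¹ * w'⁻¹, ?_, ?_, ?_⟩
        · exact W.mul_mem (W.mul_mem (W.mul_mem hw₀ hw') (W.inv_mem hw₀)) (W.inv_mem hw')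
        · have h3 := h _ (W.inv_mem hw₀) w' hw'
          have h4 : w₀ * w' * w₀⁻¹ * w'⁻¹ = z₀ * (w' * z₀⁻¹ * w'⁻¹) := by
            have h5 : z₀ = w₀ * (u₀ * w₀⁻¹ * u₀⁻¹) := by simp [z₀, mul_assoc]
            rw [h5]
            calc w₀ * w' * w₀⁻¹ * w'⁻¹ =
                w₀ * (w' * (u₀ * w₀⁻¹ * u₀⁻¹)) * (u₀ * w₀⁻¹ * u₀⁻¹)⁻¹ * w₀⁻¹ * w'⁻¹ := by group
              _ = w₀ * (u₀ * w₀⁻¹ * u₀⁻¹ * w') * (u₀ * w₀⁻¹ * u₀⁻¹)⁻¹ * w₀⁻¹ * w'⁻¹ := by rw [h3]
              _ = _ := by group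
          rw [h4]
          exact (cj x U).mul_mem hzU (hnorm w' hw' _ ((cj x U).inv_mem hzU))
        · intro h5
          apply hww
          calc w₀ * w' = (w₀ * w' * w₀⁻¹ * w'⁻¹) * (w' * w₀) := by group
            _ = w' * w₀ := by rw [h5, one_mul]
    obtain ⟨z, hzW, hzU, hz1⟩ := hz
    have h3 : W ≤ cj x U := hW.le_of (fun w hw v hv => hnorm w hw v hv.2) hzW hzU hz1
    apply hne x
    apply Subgroup.eq_of_le_of_card_ge h3
    rw [hW.card h0 h1, hV.card h0 h1]
  have h2 : ∀ w ∈ W, ∀ m ∈ Subgroup.normalClosure (U : Set A), w * m = m * w := by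
    intro w hw m hm
    have : m ∈ Subgroup.centralizer {w} := by
      have h3 : Subgroup.normalClosure (U : Set A) ≤ Subgroup.centralizer {w} := by
        unfold Subgroup.normalClosure
        rw [Subgroup.closure_le]
        intro g hg
        obtain ⟨u, hu, hug⟩ := Group.mem_conjugatesOfSet_iff.1 hg
        obtain ⟨x, rfl⟩ := isConj_iff.1 hug
        rw [SetLike.mem_coe, Subgroup.mem_centralizer_iff]
        intro h hh
        rw [Set.mem_singleton_iff.1 hh]
        exact key x w hw _ (conj_mem_cj hu)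
      exact h3 hm
    rw [Subgroup.mem_centralizer_iff] at this
    exact this w rfl
  obtain ⟨a, ha, b, hb, hab⟩ := hW.exists_ne
  exact hab (h2 a ha b (hle hb))

/-- distinct components commute -/
theorem IsComp.comm [Finite A] (h0 : ∀ N : Subgroup A, N.Normal → FC c N → N = ⊥)
    (h1 : FC (c + 1) A) {U V : Subgroup A} (hU : IsComp U) (hV : IsComp V) (hne : U ≠ V) :
    ∀ u ∈ U, ∀ v ∈ V, u * v = v * u := by
  by_cases hUV : Subgroup.normalClosure (U : Set A) ⊓ Subgroup.normalClosure (V : Set A) = ⊥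
  · intro u hu v hv
    have hu' : u ∈ Subgroup.normalClosure (U : Set A) := Subgroup.subset_normalClosure hu
    have hv' : v ∈ Subgroup.normalClosure (V : Set A) := Subgroup.subset_normalClosure hv
    have h2 : u * v * u⁻¹ * v⁻¹ ∈
        Subgroup.normalClosure (U : Set A) ⊓ Subgroup.normalClosure (V : Set A) := by
      refine Subgroup.mem_inf.2 ⟨?_, ?_⟩
      · have := Subgroup.mul_mem _ hu' (Subgroup.normalClosure_normal.conj_mem _
          (Subgroup.inv_mem _ hu') v)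
        convert this using 1
        group
      · exact Subgroup.mul_mem _ (Subgroup.normalClosure_normal.conj_mem _ hv' u)
          (Subgroup.inv_mem _ hv')
    rw [hUV, Subgroup.mem_bot] at h2
    calc u * v = (u * v * u⁻¹ * v⁻¹) * (v * u) := by group
      _ = v * u := by rw [h2, one_mul]
  · obtain ⟨W, hWle, hW⟩ := exists_comp h0 (N := Subgroup.normalClosure (U : Set A) ⊓
      Subgroup.normalClosure (V : Set A)) inferInstance hUV
    obtain ⟨x, hx⟩ := eq_cj_of_le h0 h1 hU hW (hWle.trans inf_le_left)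
    obtain ⟨y, hy⟩ := eq_cj_of_le h0 h1 hV hW (hWle.trans inf_le_right)
    have h2 : V = cj (y⁻¹ * x) U := by
      ext v
      rw [mem_cj]
      have h3 : y * v * y⁻¹ ∈ W ↔ v ∈ V := by
        rw [hy, mem_cj]
        rw [show y⁻¹ * (y * v * y⁻¹) * y = v by group]
      have h4 : y * v * y⁻¹ ∈ W ↔ x⁻¹ * (y * v * y⁻¹) * x ∈ U := by rw [hx, mem_cj]
      rw [← h3, h4]
      rw [show x⁻¹ * (y * v * y⁻¹) * x = (y⁻¹ * x)⁻¹ * v * (y⁻¹ * x) by group]
    rcases hU.conj (y⁻¹ * x) with h | h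
    · exfalso
      apply hne
      rw [h2]
      symm
      apply Subgroup.eq_of_le_of_card_ge
      · rintro _ ⟨u, hu, rfl⟩
        exact h u hu
      · exact (card_cj _ _).ge
    · intro u hu v hv
      rw [h2] at hv
      obtain ⟨v', hv', rfl⟩ := hv
      exact (h v' hv' u hu).symm

/-- the components are permuted by conjugation -/
theorem IsComp.move [Finite A] (h0 : ∀ N : Subgroup A, N.Normal → FC c N → N = ⊥)
    (h1 : FC (c + 1) A) {U : Subgroup A} (hU : IsComp U) (x : A)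
    (hx : ¬ ∀ u ∈ U, x * u * x⁻¹ ∈ U) : cj x U ≠ U ∧ ∀ u ∈ U, ∀ v ∈ cj x U, u * v = v * u := by
  have h2 : cj x U ≠ U := by
    intro h
    apply hx
    intro u hu
    have := conj_mem_cj (x := x) hu
    rwa [h] at this
  exact ⟨h2, hU.comm h0 h1 (hU.cjg x) h2.symm⟩

end

end Pool.Agent.V5helper75.SG
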