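import Pool.Agent.V5helper75.SG.Bad

/-!
# Dividing the exponent by a prime
-/

set_option autoImplicit false

open scoped commutatorElement

namespace Pool.Agent.V5helper75.SG

variable {X Y A G : Type} [Group X] [Group Y] [Group A] [Group G] {c : ℕ}

theorem cj_pow {y : A} {U : Subgroup A} (h : cj y U = U) (j : ℕ) : cj (y ^ j) U = U := by
  induction j with
  | zero => rw [pow_zero, cj_one]
  | succ j ih => rw [pow_succ, ← cj_cj, h, ih]

theorem pow_mem_NrmS [Finite X] (h1 : FC (c + 1) X) {p : ℕ} (hp : p.Prime) (hpc : p ∣ c + 1)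
    {k : ℕ} (hk0 : k ≠ 0) (hexp : ∀ y : X, y ^ (p * k) = 1) (x : X) : x ^ k ∈ NrmS c X := by
  obtain ⟨a, m, hm, hk2⟩ := Nat.exists_eq_pow_mul_and_not_dvd hk0 p hp.ne_one
  intro V hV
  by_contra hne
  set π := QuotientGroup.mk' (rad c X) with hπ
  have hs : Function.Surjective π := QuotientGroup.mk'_surjective _
  obtain ⟨x', hx'⟩ : ∃ x', x' = π x ^ m := ⟨_, rfl⟩
  have hM : x' ^ (p ^ (a + 1)) = 1 := by
    rw [hx', ← pow_mul, ← map_pow, show m * p ^ (a + 1) = p * k by rw [hk2]; ring, hexp, map_one]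
  have hne' : cj (x' ^ p ^ a) V ≠ V := by
    rw [hx', ← pow_mul, ← map_pow, show m * p ^ a = k by rw [hk2]; ring]
    exact hne
  have hpos : 0 < p ^ (a + 1) := pow_pos hp.pos _
  obtain ⟨v₀, hv₀⟩ : ∃ v : V, orderOf v = p := by
    have : Fact p.Prime := ⟨hp⟩
    apply exists_prime_orderOf_dvd_card' p
    rw [hV.card (quot_h0 c X) (quot_h1 h1)]
    exact hpc
  obtain ⟨v, hvV, hv1⟩ : ∃ v ∈ V, orderOf v = p :=
    ⟨v₀.1, v₀.2, (Subgroup.orderOf_coe v₀).trans hv₀⟩
  have hcm : ∀ i, 0 < i → i < p ^ (a + 1) → ∀ u ∈ V,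
      (x' ^ i * v * (x' ^ i)⁻¹) * u = u * (x' ^ i * v * (x' ^ i)⁻¹) := by
    intro i hi0 hi
    rcases hV.conj (x' ^ i) with h | h
    · exfalso
      apply hne'
      have h2 := cj_eq_of h
      obtain ⟨b, q, hq, hbq⟩ := Nat.exists_eq_pow_mul_and_not_dvd hi0.ne' p hp.ne_one
      have hb : b ≤ a := by
        by_contra hba
        have h3 : p ^ (a + 1) ≤ p ^ b := Nat.pow_le_pow_right hp.pos (by omega)
        have h4 : p ^ b * 1 ≤ p ^ b * q := Nat.mul_le_mul_left _ (by
          rcases Nat.eq_zero_or_pos q with h0 | h0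
          · exact absurd (h0 ▸ dvd_zero p) hq
          · exact h0)
        omega
      obtain ⟨r, -, hr⟩ := Nat.exists_mul_mod_eq_one_of_coprime
        (((Nat.Prime.coprime_iff_not_dvd hp).2 hq).symm) hp.one_lt
      have h3 := cj_pow h2 (p ^ (a - b) * r)
      have h5 : (x' ^ i) ^ (p ^ (a - b) * r) = x' ^ p ^ a := by
        have e1 : q * r = p * (q * r / p) + 1 := by
          have := Nat.div_add_mod (q * r) p
          rw [hr] at this
          exact this.symm
        rw [← pow_mul, hbq, show p ^ b * q * (p ^ (a - b) * r) = p ^ a * (q * r) by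
          rw [show p ^ a = p ^ b * p ^ (a - b) by rw [← pow_add]; congr 1; omega]; ring, e1,
          show p ^ a * (p * (q * r / p) + 1) = p ^ (a + 1) * (q * r / p) + p ^ a by ring, pow_add,
          pow_mul, hM, one_pow, one_mul]
      rwa [h5] at h3
    · exact fun u hu => h v hvV u hu
  have hP : ∀ j, j < p ^ (a + 1) → ∃ P : X ⧸ rad c X, (∀ u ∈ V, P * u = u * P) ∧
      (v * x') ^ (j + 1) = v * P * x' ^ (j + 1) := by
    intro j
    induction j with
    | zero =>
      intro _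
      exact ⟨1, fun u _ => by simp, by simp⟩
    | succ j ih =>
      intro hj
      obtain ⟨P, hP1, hP2⟩ := ih (by omega)
      refine ⟨P * (x' ^ (j + 1) * v * (x' ^ (j + 1))⁻¹), ?_, ?_⟩
      · intro u hu
        rw [mul_assoc, hcm (j + 1) (by omega) hj u hu, ← mul_assoc, hP1 u hu, mul_assoc]
      · rw [pow_succ, hP2]
        have e1 : x' ^ (j + 1 + 1) = x' ^ (j + 1) * x' := pow_succ _ _
        rw [e1]
        group
  obtain ⟨P, hP1, hP2⟩ := hP (p ^ (a + 1) - 1) (Nat.sub_lt hpos (by norm_num))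
  rw [Nat.sub_add_cancel hpos, hM, mul_one] at hP2
  have h3 : (v * P) ^ m = 1 := by
    rw [← hP2, ← pow_mul, show p ^ (a + 1) * m = p * k by rw [hk2]; ring]
    obtain ⟨y, hy⟩ := hs (v * x')
    rw [← hy, ← map_pow, hexp, map_one]
  have hcv : Commute v P := (hP1 v hvV).symm
  rw [hcv.mul_pow] at h3
  have h5 : v ^ m = (P ^ m)⁻¹ := eq_inv_of_mul_eq_one_left h3
  have h7 : v ^ m = 1 := by
    apply hV.center (V.pow_mem hvV m)
    intro u hu
    have h6 : Commute (P ^ m)⁻¹ u := ((show Commute P u from hP1 u hu).pow_left m).inv_left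
    rw [h5]
    exact h6
  apply hm
  rw [← hv1]
  exact orderOf_dvd_of_pow_eq_one h7

/-- the exponent is not divisible by `p` -/
theorem FC_of_not_dvd (h1 : FC (c + 1) X) {p n : ℕ} (hp : p.Prime) (hpc : p ∣ c + 1)
    (hn : ¬ p ∣ n) (hexp : ∀ y : X, y ^ n = 1) : FC c X := by
  refine ⟨h1.fin, fun S _ hS hX => ?_⟩
  have h2 := h1.2 S hS hX
  rcases Nat.lt_or_ge c (Nat.card S) with h3 | h3
  · exfalso
    have h4 : Nat.card S = c + 1 := by omega
    obtain ⟨H, f, hf⟩ := hX
    have hfin := h1.fin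
    have hfS : Finite S := Finite.of_surjective f hf
    obtain ⟨v, hv⟩ : ∃ v : S, orderOf v = p := by
      have : Fact p.Prime := ⟨hp⟩
      apply exists_prime_orderOf_dvd_card' p
      rw [h4]
      exact hpc
    obtain ⟨h, rfl⟩ := hf v
    have h5 : h ^ n = 1 := Subtype.ext (hexp h.1)
    apply hn
    rw [← hv]
    exact orderOf_dvd_of_pow_eq_one (by rw [← map_pow, h5, map_one])
  · exact h3

theorem FC_zero_of_one (h1 : FC 1 X) : FC 0 X := by
  refine ⟨h1.fin, fun S _ hS hX => ?_⟩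
  have h2 := h1.2 S hS hX
  exfalso
  obtain ⟨H, f, hf⟩ := hX
  have hfin := h1.fin
  have hfS : Finite S := Finite.of_surjective f hf
  have h3 : Subsingleton S := Finite.card_le_one_iff_subsingleton.1 h2
  obtain ⟨a, b, hab⟩ := hS.nonab
  exact hab (Subsingleton.elim _ _)

end Pool.Agent.V5helper75.SG
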