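import Pool.Agent.V5helper75.SG.Alive

/-!
# Groups with small six-generator subgroups
-/

set_option autoImplicit false

open scoped commutatorElement

namespace Pool.Agent.V5helper75.SG

variable {X Y A G K Q : Type} [Group X] [Group Y] [Group A] [Group G] [Group K] [Group Q] {N c : ℕ}

/-- the subgroup generated by six elements -/
def g6 (a : Fin 6 → G) : Subgroup G := Subgroup.closure (Set.range a)

/-- the six-generator subgroups have order at most `N`, are of class `FC c`, and their nonabelian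
simple sections are generated by two elements -/
def Good (N c : ℕ) (G : Type) [Group G] : Prop :=
  ∀ a : Fin 6 → G, Nat.card (g6 a) ≤ N ∧ FC c (g6 a) ∧ OK (g6 a)

theorem mem_g6 (a : Fin 6 → G) (i : Fin 6) : a i ∈ g6 a := Subgroup.subset_closure ⟨i, rfl⟩

theorem c3_le (x y z : G) : Subgroup.closure {x, y, z} ≤ g6 ![x, y, z, 1, 1, 1] := by
  rw [Subgroup.closure_le]
  rintro w (rfl | rfl | rfl)
  · exact mem_g6 ![w, y, z, 1, 1, 1] 0
  · exact mem_g6 ![x, w, z, 1, 1, 1] 1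
  · exact mem_g6 ![x, y, w, 1, 1, 1] 2

theorem c4_le (x y z w : G) : Subgroup.closure {x, y, z, w} ≤ g6 ![x, y, z, w, 1, 1] := by
  rw [Subgroup.closure_le]
  rintro v (rfl | rfl | rfl | rfl)
  · exact mem_g6 ![v, y, z, w, 1, 1] 0
  · exact mem_g6 ![x, v, z, w, 1, 1] 1
  · exact mem_g6 ![x, y, v, w, 1, 1] 2
  · exact mem_g6 ![x, y, z, v, 1, 1] 3

theorem g6_map (i : K →* G) (a : Fin 6 → K) : (g6 a).map i = g6 (i ∘ a) := by
  unfold g6
  rw [MonoidHom.map_closure, Set.range_comp]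

theorem Good.sub (h : Good N c G) {X : Subgroup G} {a : Fin 6 → G} (hX : X ≤ g6 a) :
    Nat.card X ≤ N ∧ FC c X ∧ OK X := by
  obtain ⟨h1, h2, h3⟩ := h a
  have := h2.fin
  refine ⟨?_, h2.of_le hX, h3.of_inj (Subgroup.inclusion hX) (Subgroup.inclusion_injective hX)⟩
  exact (Nat.card_le_card_of_injective _ (Subgroup.inclusion_injective hX)).trans h1

theorem Good.mono {d : ℕ} (hcd : c ≤ d) (h : Good N c G) : Good N d G :=
  fun a => ⟨(h a).1, (h a).2.1.mono hcd, (h a).2.2⟩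

theorem Good.of_inj (i : K →* G) (hi : Function.Injective i) (h : Good N c G) : Good N c K := by
  intro a
  obtain ⟨h1, h2, h3⟩ := h (i ∘ a)
  rw [← g6_map] at h1 h2 h3
  let e := (g6 a).equivMapOfInjective i hi
  exact ⟨(Nat.card_congr e.toEquiv).le.trans h1, h2.iso e.symm,
    h3.of_inj e.toMonoidHom e.injective⟩

theorem Good.of_surj (p : G →* Q) (hp : Function.Surjective p) (h : Good N c G) : Good N c Q := by
  intro a
  choose b hb using fun i => hp (a i)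
  obtain ⟨h1, h2, h3⟩ := h b
  have hab : (g6 b).map p = g6 a := by
    rw [g6_map]
    congr 1
    funext i
    exact hb i
  have hs := p.subgroupMap_surjective (g6 b)
  have := h2.fin
  rw [← hab]
  exact ⟨(Nat.card_le_card_of_surjective _ hs).trans h1, h2.of_surj _ hs, h3.of_surj _ hs⟩

/-- trivial radical -/
def R1 (c : ℕ) (G : Type) [Group G] : Prop :=
  ∀ e : G, (∀ h₁ h₂ : G, InRad c (Subgroup.closure {e, h₁, h₂}) e) → e = 1

/-- all elements normalise the components -/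
def KT (c : ℕ) (G : Type) [Group G] : Prop :=
  ∀ e h₁ h₂ : G, ¬ Bad c (Subgroup.closure {e, h₁, h₂}) e

theorem closure3_map (i : K →* G) (x y z : K) :
    (Subgroup.closure {x, y, z}).map i = Subgroup.closure {i x, i y, i z} := by
  rw [MonoidHom.map_closure, Set.image_insert_eq, Set.image_pair]

theorem Good.nrm (hG : Good N (c + 1) G) {X : Subgroup G} {a : Fin 6 → G} (hX : X ≤ g6 a) (e : X)
    (he : ∀ h₁ h₂ : G, ¬ Bad c (Subgroup.closure {e.1, h₁, h₂}) e.1) : e ∈ NrmS c X := by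
  obtain ⟨-, h1, hk⟩ := hG.sub hX
  have := h1.fin
  by_contra hne
  obtain ⟨h₁, h₂, hb⟩ := exists_bad h1 hk hne
  apply he h₁.1 h₂.1
  have h2 := (bad_map X.subtype X.subtype_injective).2 hb
  rw [closure3_map] at h2
  exact h2

theorem Good.inrad (hG : Good N (c + 1) G) {X : Subgroup G} {a : Fin 6 → G} (hX : X ≤ g6 a) (e : X)
    (he : ∀ h₁ h₂ : G, InRad c (Subgroup.closure {e.1, h₁, h₂}) e.1) : e ∈ rad c X := by
  obtain ⟨-, h1, hk⟩ := hG.sub hX
  have := h1.fin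
  by_contra hne
  obtain ⟨h₁, h₂, hb⟩ := bs_rad h1 hk hne
  apply hb
  have h2 := he h₁.1 h₂.1
  rw [← inRad_map X.subtype X.subtype_injective, closure3_map]
  exact h2

theorem Good.step (hG : Good N (c + 1) K) (hT : KT c K) (hR : R1 c K) {P : Subgroup K}
    (hP : P.Normal) (hprime : ∀ u g : K, (∀ y, ⁅y * u * y⁻¹, g⁆ ∈ P) → u ∈ P ∨ g ∈ P)
    {t₁ t₂ : K} {D₀ : Subgroup K} (hD : Perf c D₀) (hDt : D₀ ≤ Subgroup.closure {t₁, t₂})
    (hDP : ¬ D₀ ≤ P) (e : K) {z : K} (hz : z ∈ D₀) : ∃ z' ∈ D₀, e * z * e⁻¹ * z'⁻¹ ∈ P := by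
  obtain ⟨X₀, hX₀⟩ : ∃ X₀ : Subgroup K, X₀ = Subgroup.closure {t₁, t₂, e} := ⟨_, rfl⟩
  have hX : X₀ ≤ g6 ![t₁, t₂, e, 1, 1, 1] := by rw [hX₀]; exact c3_le t₁ t₂ e
  obtain ⟨-, h1, hk⟩ := hG.sub hX
  have hfin := h1.fin
  have hN : NrmS c X₀ = ⊤ := eq_top_iff.2 fun x _ => hG.nrm hX x (hT x.1)
  have hDX : D₀ ≤ X₀ := by
    rw [hX₀]
    refine hDt.trans (Subgroup.closure_mono ?_)
    rintro w (rfl | rfl) <;> simp
  have heX : e ∈ X₀ := by
    rw [hX₀]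
    exact Subgroup.subset_closure (by simp)
  have hD' : Perf c (D₀.subgroupOf X₀) := hD.iso (Subgroup.subgroupOfEquivOfLe hDX).symm
  have hnP : ¬ D₀.subgroupOf X₀ ≤ P.subgroupOf X₀ := by
    intro h
    apply hDP
    intro d hd
    exact h (show (⟨d, hDX hd⟩ : X₀) ∈ D₀.subgroupOf X₀ from hd)
  obtain ⟨V, hV, hne, hVP⟩ := alive h1 hk hN hD' (hP.subgroupOf X₀) hnP
  have hDN : D₀.subgroupOf X₀ ≤ NrmS c X₀ := by rw [hN]; exact le_top
  have hall : ∀ x : X₀, x ∈ NrmS c X₀ := fun x => by rw [hN]; trivial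
  have h3 := perf_act h1 hk hV hD' hDN hne
  let zX : X₀ := ⟨z, hDX hz⟩
  let eX : X₀ := ⟨e, heX⟩
  have h4 : act hV ⟨eX * zX * eX⁻¹, hall _⟩ ∈ Inn V := by
    have h5 : act hV ⟨zX, hall _⟩ ∈ Inn V := by
      rw [← h3]
      exact ⟨⟨zX, hz⟩, rfl⟩
    have h6 := (inn_normal V).conj_mem _ h5 (act hV ⟨eX, hall _⟩)
    rw [← map_mul, ← map_inv, ← map_mul] at h6
    exact h6
  rw [← h3] at h4
  obtain ⟨d, hd⟩ := h4
  let g : X₀ := eX * zX * eX⁻¹ * d.1⁻¹
  have hg : act hV ⟨g, hall _⟩ = 1 := by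
    have h5 : (⟨g, hall g⟩ : NrmS c X₀) = ⟨eX * zX * eX⁻¹, hall _⟩ * (⟨d.1, hall _⟩)⁻¹ := rfl
    rw [h5, map_mul, map_inv, ← hd]
    exact mul_inv_cancel _
  have hg' := (act_eq_one hV _).1 hg
  have hnF : ¬ FC c V := hV.not_FC (quot_h0 c X₀) (quot_h1 h1) le_rfl
  obtain ⟨D₂, -, hD₂, hD₂V⟩ := exists_perf_in (L := ⊤) (QuotientGroup.mk' (rad c X₀)) hV.nas hnF (by
    rw [← MonoidHom.range_eq_map, MonoidHom.range_eq_top.2 (QuotientGroup.mk'_surjective _)]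
    exact le_top)
  obtain ⟨u, hu, hu1⟩ : ∃ u ∈ D₂, QuotientGroup.mk' (rad c X₀) u ≠ 1 := by
    by_contra h
    push Not at h
    apply hV.ne_bot
    rw [← hD₂V, eq_bot_iff]
    rintro _ ⟨u, hu, rfl⟩
    exact h u hu
  have hgd : ∀ d ∈ D₂, ⁅g, d⁆ ∈ rad c X₀ := by
    intro d hd
    rw [← QuotientGroup.eq_one_iff]
    change QuotientGroup.mk' (rad c X₀) ⁅g, d⁆ = 1
    rw [map_commutatorElement, commutatorElement_eq_one_iff_mul_comm]
    apply hg'
    rw [← hD₂V]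
    exact ⟨d, hd, rfl⟩
  have huP : u.1 ∉ P := by
    intro h
    have h5 : QuotientGroup.mk' (rad c X₀) u ∈
        V ⊓ (P.subgroupOf X₀).map (QuotientGroup.mk' (rad c X₀)) := by
      refine ⟨?_, ⟨u, h, rfl⟩⟩
      rw [SetLike.mem_coe, ← hD₂V]
      exact ⟨u, hu, rfl⟩
    rw [hVP, Subgroup.mem_bot] at h5
    exact hu1 h5
  refine ⟨d.1.1, d.2, ?_⟩
  have hgP : u.1 ∈ P ∨ g.1 ∈ P := by
    apply hprime
    intro y
    have h5 : ⁅y * u.1 * y⁻¹, g.1⁆ = 1 := by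
      apply hR
      intro h₁ h₂
      obtain ⟨X₁, hX₁⟩ : ∃ X₁ : Subgroup K, X₁ = g6 ![t₁, t₂, e, y, h₁, h₂] := ⟨_, rfl⟩
      obtain ⟨-, k1, kk⟩ := hG.sub hX₁.le
      have kfin := k1.fin
      have kN : NrmS c X₁ = ⊤ := eq_top_iff.2 fun x _ => hG.nrm hX₁.le x (hT x.1)
      have hX01 : X₀ ≤ X₁ := by
        rw [hX₀, hX₁, Subgroup.closure_le]
        rintro w (rfl | rfl | rfl)
        · exact mem_g6 ![w, t₂, e, y, h₁, h₂] 0
        · exact mem_g6 ![t₁, w, e, y, h₁, h₂] 1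
        · exact mem_g6 ![t₁, t₂, w, y, h₁, h₂] 2
      have hy : y ∈ X₁ := by rw [hX₁]; exact mem_g6 ![t₁, t₂, e, y, h₁, h₂] 3
      have hh₁ : h₁ ∈ X₁ := by rw [hX₁]; exact mem_g6 ![t₁, t₂, e, y, h₁, h₂] 4
      have hh₂ : h₂ ∈ X₁ := by rw [hX₁]; exact mem_g6 ![t₁, t₂, e, y, h₁, h₂] 5
      have hle : D₂.map X₀.subtype ≤ X₀ := by
        rintro _ ⟨x, _, rfl⟩
        exact x.2
      have kD : Perf c ((D₂.map X₀.subtype).subgroupOf X₁) :=
        (hD₂.iso (D₂.equivMapOfInjective X₀.subtype X₀.subtype_injective)).iso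
          (Subgroup.subgroupOfEquivOfLe (hle.trans hX01)).symm
      have kmap : (X₀.subgroupOf X₁).map X₁.subtype = X₀ := Subgroup.map_subgroupOf_eq_of_le hX01
      have h6 := key k1 kk kN (M := X₀.subgroupOf X₁) kD
        (fun d hd => hle hd) (u := ⟨u.1, hX01 u.2⟩) (g := ⟨g.1, hX01 g.2⟩) ⟨u, hu, rfl⟩ (by
          intro d hd
          obtain ⟨d', hd', hdd⟩ := hd
          rw [← inRad_map X₁.subtype X₁.subtype_injective, kmap, map_commutatorElement]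
          have h7 : InRad c X₀ ⁅g.1, d'.1⁆ := inRad_iff.2 ⟨⁅g, d'⁆.2, hgd d' hd'⟩
          have h8 : X₁.subtype d = d'.1 := hdd.symm
          rw [h8]
          exact h7) ⟨y, hy⟩
      have h7 : InRad c X₁ ⁅y * u.1 * y⁻¹, g.1⁆ := inRad_iff.2
        ⟨(⁅(⟨y, hy⟩ : X₁) * ⟨u.1, hX01 u.2⟩ * (⟨y, hy⟩ : X₁)⁻¹, ⟨g.1, hX01 g.2⟩⁆ : X₁).2, h6⟩
      have h8 : ⁅y * u.1 * y⁻¹, g.1⁆ ∈ X₁ := by
        obtain ⟨h9, -⟩ := inRad_iff.1 h7
        exact h9
      apply h7.restrict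
      · rw [Subgroup.closure_le]
        rintro w (rfl | rfl | rfl)
        · exact h8
        · exact hh₁
        · exact hh₂
      · exact Subgroup.subset_closure (by simp)
    rw [h5]
    exact P.one_mem
  rcases hgP with h | h
  · exact absurd h huP
  · exact h

end Pool.Agent.V5helper75.SG
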