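import Pool.Agent.V5helper75.SG.Res

/-!
# The radical and the subgroup normalising the components
-/

set_option autoImplicit false

open scoped commutatorElement

namespace Pool.Agent.V5helper75.SG

variable {X Y A G K Q : Type} [Group X] [Group Y] [Group A] [Group G] [Group K] [Group Q] {N c : ℕ}

theorem conj3 (g x h₁ h₂ : G) : (Subgroup.closure {x, g⁻¹ * h₁ * g, g⁻¹ * h₂ * g}).map
    (MulAut.conj g).toMonoidHom = Subgroup.closure {g * x * g⁻¹, h₁, h₂} := by
  rw [closure3_map]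
  have e : ∀ y : G, (MulAut.conj g).toMonoidHom y = g * y * g⁻¹ := fun _ => rfl
  rw [e, e, e, show g * (g⁻¹ * h₁ * g) * g⁻¹ = h₁ by group,
    show g * (g⁻¹ * h₂ * g) * g⁻¹ = h₂ by group]

/-- the radical -/
def Good.RS (hG : Good N (c + 1) G) : Subgroup G where
  carrier := {e | ∀ h₁ h₂ : G, InRad c (Subgroup.closure {e, h₁, h₂}) e}
  one_mem' := fun _ _ => inRad_one _ _
  mul_mem' := by
    intro e f he hf h₁ h₂
    have hX := c4_le e f h₁ h₂
    have he' : e ∈ Subgroup.closure {e, f, h₁, h₂} := Subgroup.subset_closure (by simp)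
    have hf' : f ∈ Subgroup.closure {e, f, h₁, h₂} := Subgroup.subset_closure (by simp)
    have h1 : InRad c (Subgroup.closure {e, f, h₁, h₂}) e :=
      inRad_iff.2 ⟨he', hG.inrad hX ⟨e, he'⟩ he⟩
    have h2 : InRad c (Subgroup.closure {e, f, h₁, h₂}) f :=
      inRad_iff.2 ⟨hf', hG.inrad hX ⟨f, hf'⟩ hf⟩
    refine (h1.mul h2).restrict ?_ (Subgroup.subset_closure (by simp))
    rw [Subgroup.closure_le]
    rintro w (rfl | rfl | rfl)
    · exact Subgroup.mul_mem _ he' hf'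
    · exact Subgroup.subset_closure (by simp)
    · exact Subgroup.subset_closure (by simp)
  inv_mem' := by
    intro e he h₁ h₂
    refine (he h₁ h₂).inv.restrict ?_ (Subgroup.subset_closure (by simp))
    rw [Subgroup.closure_le]
    rintro w (rfl | rfl | rfl)
    · exact Subgroup.inv_mem _ (Subgroup.subset_closure (by simp))
    · exact Subgroup.subset_closure (by simp)
    · exact Subgroup.subset_closure (by simp)

theorem Good.mem_RS (hG : Good N (c + 1) G) {e : G} :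
    e ∈ hG.RS ↔ ∀ h₁ h₂ : G, InRad c (Subgroup.closure {e, h₁, h₂}) e := Iff.rfl

instance (hG : Good N (c + 1) G) : hG.RS.Normal := by
  constructor
  intro e he g h₁ h₂
  rw [← conj3]
  exact (inRad_map (MulAut.conj g).toMonoidHom (MulAut.conj g).injective).2
    (he (g⁻¹ * h₁ * g) (g⁻¹ * h₂ * g))

theorem Good.RS_inf (hG : Good N (c + 1) G) {X : Subgroup G} {a : Fin 6 → G} (hX : X ≤ g6 a) :
    FC c ↥(X ⊓ hG.RS) := by
  have := (hG.sub hX).2.1.fin
  refine ((rad_FC c X).map X.subtype).of_le ?_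
  rintro x ⟨hx, hxR⟩
  exact ⟨⟨x, hx⟩, hG.inrad hX ⟨x, hx⟩ hxR, rfl⟩

theorem Good.good_RS (hG : Good N (c + 1) G) : Good N c hG.RS := by
  intro a
  obtain ⟨h1, h2, h3⟩ := (hG.of_inj hG.RS.subtype hG.RS.subtype_injective) a
  refine ⟨h1, ?_, h3⟩
  have e := (g6 a).equivMapOfInjective hG.RS.subtype hG.RS.subtype_injective
  have h4 : (g6 a).map hG.RS.subtype ≤ g6 (hG.RS.subtype ∘ a) := (g6_map _ _).le
  have h5 : (g6 a).map hG.RS.subtype ≤ g6 (hG.RS.subtype ∘ a) ⊓ hG.RS := by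
    refine le_inf h4 ?_
    rintro _ ⟨x, _, rfl⟩
    exact x.2
  exact ((hG.RS_inf le_rfl).of_le h5).iso e.symm

theorem Good.R1_quot (hG : Good N (c + 1) G) : R1 c (G ⧸ hG.RS) := by
  intro e' he'
  obtain ⟨e, rfl⟩ := QuotientGroup.mk'_surjective hG.RS e'
  refine (QuotientGroup.eq_one_iff e).2 ?_
  intro h₁ h₂
  set q := QuotientGroup.mk' hG.RS with hq
  obtain ⟨M, hM, hn, hF, heM⟩ := he' (q h₁) (q h₂)
  rw [← closure3_map] at hM hn
  obtain ⟨X, hX⟩ : ∃ X : Subgroup G, X = Subgroup.closure {e, h₁, h₂} := ⟨_, rfl⟩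
  rw [← hX] at hM hn ⊢
  have hXa : X ≤ g6 ![e, h₁, h₂, 1, 1, 1] := by rw [hX]; exact c3_le e h₁ h₂
  have heX : e ∈ X := by
    rw [hX]
    exact Subgroup.subset_closure (by simp)
  refine ⟨X ⊓ M.comap q, inf_le_left, ?_, ?_, heX, heM⟩
  · rintro y hy m ⟨hm, hmM⟩
    refine ⟨X.mul_mem (X.mul_mem hy hm) (X.inv_mem hy), ?_⟩
    change q (y * m * y⁻¹) ∈ M
    rw [map_mul, map_mul, map_inv]
    exact hn _ ⟨y, hy, rfl⟩ _ hmM
  · apply FC.ext (q.comp (X ⊓ M.comap q).subtype)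
    · refine (hG.RS_inf hXa).emb (X ⊓ M.comap q).subtype ?_ (fun n _ h => Subtype.ext h)
      intro n hn
      exact ⟨n.2.1, (QuotientGroup.eq_one_iff n.1).1 hn⟩
    · refine hF.of_le ?_
      rintro _ ⟨x, rfl⟩
      exact x.2.2

/-! ## The elements normalising the components -/

theorem Good.not_bad_of (hG : Good N (c + 1) G) {X : Subgroup G} {a : Fin 6 → G} (hX : X ≤ g6 a)
    (e : X) (he : e ∈ NrmS c X) {Y : Subgroup G} (hY : Y ≤ X) : ¬ Bad c Y e.1 := by
  intro hb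
  obtain ⟨-, h1, hk⟩ := hG.sub hX
  have := h1.fin
  apply not_bad h1 hk he
  rw [← bad_map X.subtype X.subtype_injective]
  refine Bad.mono ?_ hb
  intro y hy
  exact ⟨⟨y, hY hy⟩, trivial, rfl⟩

/-- the elements normalising the components -/
def Good.KS (hG : Good N (c + 1) G) : Subgroup G where
  carrier := {e | ∀ h₁ h₂ : G, ¬ Bad c (Subgroup.closure {e, h₁, h₂}) e}
  one_mem' := by
    intro h₁ h₂
    have hX := c3_le (1 : G) h₁ h₂
    have h := hG.not_bad_of hX (1 : Subgroup.closure {(1 : G), h₁, h₂}) (Subgroup.one_mem _) le_rfl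
    exact h
  mul_mem' := by
    intro e f he hf h₁ h₂
    have hX := c4_le e f h₁ h₂
    have he' : e ∈ Subgroup.closure {e, f, h₁, h₂} := Subgroup.subset_closure (by simp)
    have hf' : f ∈ Subgroup.closure {e, f, h₁, h₂} := Subgroup.subset_closure (by simp)
    have h1 := hG.nrm hX ⟨e, he'⟩ he
    have h2 := hG.nrm hX ⟨f, hf'⟩ hf
    have h3 := (NrmS c _).mul_mem h1 h2
    have h4 : Subgroup.closure {e * f, h₁, h₂} ≤ Subgroup.closure {e, f, h₁, h₂} := by
      rw [Subgroup.closure_le]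
      rintro w (rfl | rfl | rfl)
      · exact Subgroup.mul_mem _ he' hf'
      · exact Subgroup.subset_closure (by simp)
      · exact Subgroup.subset_closure (by simp)
    have h5 := hG.not_bad_of hX _ h3 h4
    exact h5
  inv_mem' := by
    intro e he h₁ h₂
    have hX := c3_le e h₁ h₂
    have he' : e ∈ Subgroup.closure {e, h₁, h₂} := Subgroup.subset_closure (by simp)
    have h1 := hG.nrm hX ⟨e, he'⟩ he
    have h3 := (NrmS c _).inv_mem h1
    have h4 : Subgroup.closure {e⁻¹, h₁, h₂} ≤ Subgroup.closure {e, h₁, h₂} := by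
      rw [Subgroup.closure_le]
      rintro w (rfl | rfl | rfl)
      · exact Subgroup.inv_mem _ he'
      · exact Subgroup.subset_closure (by simp)
      · exact Subgroup.subset_closure (by simp)
    have h5 := hG.not_bad_of hX _ h3 h4
    exact h5

theorem Good.mem_KS (hG : Good N (c + 1) G) {e : G} :
    e ∈ hG.KS ↔ ∀ h₁ h₂ : G, ¬ Bad c (Subgroup.closure {e, h₁, h₂}) e := Iff.rfl

instance (hG : Good N (c + 1) G) : hG.KS.Normal := by
  constructor
  intro e he g h₁ h₂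
  rw [← conj3]
  intro hb
  exact he (g⁻¹ * h₁ * g) (g⁻¹ * h₂ * g)
    ((bad_map (MulAut.conj g).toMonoidHom (MulAut.conj g).injective).1 hb)

theorem Good.pow_mem_KS (hG : Good N (c + 1) G) {p : ℕ} (hp : p.Prime) (hpc : p ∣ c + 1)
    {k : ℕ} (hk0 : k ≠ 0) (hexp : ∀ y : G, y ^ (p * k) = 1) (x : G) : x ^ k ∈ hG.KS := by
  intro h₁ h₂
  have hX := c3_le x h₁ h₂
  obtain ⟨-, h1, hk⟩ := hG.sub hX
  have := h1.fin
  have hx' : x ∈ Subgroup.closure {x, h₁, h₂} := Subgroup.subset_closure (by simp)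
  have h2 := pow_mem_NrmS h1 hp hpc hk0 (fun y => Subtype.ext (hexp y.1)) ⟨x, hx'⟩
  have h4 : Subgroup.closure {x ^ k, h₁, h₂} ≤ Subgroup.closure {x, h₁, h₂} := by
    rw [Subgroup.closure_le]
    rintro w (rfl | rfl | rfl)
    · exact Subgroup.pow_mem _ hx' k
    · exact Subgroup.subset_closure (by simp)
    · exact Subgroup.subset_closure (by simp)
  have h5 := hG.not_bad_of hX _ h2 h4
  exact h5

theorem Good.KT_KS (hG : Good N (c + 1) G) : KT c hG.KS := by
  intro e h₁ h₂ hb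
  apply e.2 h₁.1 h₂.1
  have h2 := (bad_map hG.KS.subtype hG.KS.subtype_injective).2 hb
  rw [closure3_map] at h2
  exact h2

theorem FC_of_two [Finite X] (hk : OK X) (h : ∀ a b : X, FC c (Subgroup.closure {a, b})) :
    FC c X := by
  refine ⟨inferInstance, fun S _ hS hX => ?_⟩
  obtain ⟨H, f, hf⟩ := id hX
  have hfS : Finite S := Finite.of_surjective f hf
  obtain ⟨s, t, hst⟩ := hk S hS hfS hX
  obtain ⟨a, rfl⟩ := hf s
  obtain ⟨b, rfl⟩ := hf t
  have h1 : FC c (Subgroup.closure {a, b}) := by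
    refine (h a.1 b.1).emb H.subtype ?_ (fun n _ h => Subtype.ext h)
    intro n hn
    have h2 : (Subgroup.closure {a, b}).map H.subtype = Subgroup.closure {a.1, b.1} := by
      rw [MonoidHom.map_closure, Set.image_pair]
      rfl
    rw [← h2]
    exact ⟨n, hn, rfl⟩
  refine h1.2 S hS ⟨⊤, (f.comp (Subgroup.closure {a, b}).subtype).comp (Subgroup.subtype _), ?_⟩
  intro y
  have h3 : y ∈ (Subgroup.closure {a, b}).map f := by
    rw [MonoidHom.map_closure, Set.image_pair, hst]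
    trivial
  obtain ⟨z, hz, rfl⟩ := h3
  exact ⟨⟨⟨z, hz⟩, trivial⟩, rfl⟩

theorem Good.R1_KS (hG : Good N (c + 1) G) (hR : R1 c G) : R1 c hG.KS := by
  have hK : Good N (c + 1) hG.KS := hG.of_inj hG.KS.subtype hG.KS.subtype_injective
  let T : Subgroup G := hK.RS.map hG.KS.subtype
  have hTn : T.Normal := by
    constructor
    rintro _ ⟨t, ht, rfl⟩ g
    refine ⟨MulAut.conjNormal g t, ?_, rfl⟩
    intro h₁ h₂
    have h3 := (inRad_map (MulAut.conjNormal g : MulAut hG.KS).toMonoidHom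
      (MulAut.conjNormal g : MulAut hG.KS).injective).2
      (ht ((MulAut.conjNormal g : MulAut hG.KS)⁻¹ h₁) ((MulAut.conjNormal g : MulAut hG.KS)⁻¹ h₂))
    rw [closure3_map] at h3
    have e : ∀ y : hG.KS, (MulAut.conjNormal g : MulAut hG.KS).toMonoidHom
        ((MulAut.conjNormal g : MulAut hG.KS)⁻¹ y) = y :=
      fun y => MulAut.apply_inv_self _ _ _
    rw [e, e] at h3
    exact h3
  intro e he
  have heT : e.1 ∈ T := ⟨e, he, rfl⟩
  apply Subtype.ext
  apply hR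
  intro h₁ h₂
  obtain ⟨X, hX⟩ : ∃ X : Subgroup G, X = Subgroup.closure {e.1, h₁, h₂} := ⟨_, rfl⟩
  have hXa : X ≤ g6 ![e.1, h₁, h₂, 1, 1, 1] := by rw [hX]; exact c3_le e.1 h₁ h₂
  rw [← hX]
  have heX : e.1 ∈ X := by
    rw [hX]
    exact Subgroup.subset_closure (by simp)
  refine ⟨X ⊓ T, inf_le_left, ?_, ?_, heX, heT⟩
  · rintro y hy m ⟨hm, hmT⟩
    exact ⟨X.mul_mem (X.mul_mem hy hm) (X.inv_mem hy), hTn.conj_mem m hmT y⟩
  · obtain ⟨-, h1, hk⟩ := hG.sub (inf_le_left.trans hXa : X ⊓ T ≤ _)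
    have := h1.fin
    apply FC_of_two hk
    intro a b
    obtain ⟨ta, hta, hta'⟩ := a.2.2
    obtain ⟨tb, htb, htb'⟩ := b.2.2
    let f : hK.RS →* G := hG.KS.subtype.comp hK.RS.subtype
    have h2 : FC c (Subgroup.closure {(⟨ta, hta⟩ : hK.RS), ⟨tb, htb⟩, 1}) :=
      (hK.good_RS.sub (c3_le _ _ _)).2.1
    refine (h2.map f).emb (X ⊓ T).subtype ?_ (fun n _ h => Subtype.ext h)
    intro n hn
    have h3 : (Subgroup.closure {a, b}).map (X ⊓ T).subtype ≤
        (Subgroup.closure {(⟨ta, hta⟩ : hK.RS), ⟨tb, htb⟩, 1}).map f := by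
      rw [MonoidHom.map_closure, Set.image_pair, Subgroup.closure_le]
      rintro w (rfl | rfl)
      · exact ⟨⟨ta, hta⟩, Subgroup.subset_closure (by simp), hta'⟩
      · exact ⟨⟨tb, htb⟩, Subgroup.subset_closure (by simp), htb'⟩
    exact h3 ⟨n, hn, rfl⟩

end Pool.Agent.V5helper75.SG
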