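import Pool.Agent.V5helper75.SG.Grp
import Pool.Agent.H32BU.All

/-!
# The induction
-/

set_option autoImplicit false

open scoped commutatorElement

namespace Pool.Agent.V5helper75.SG

open Pool.Agent.H32BU (LF LocFin c3 DD qp x_IND x_SCH x_LFD x_LFS x_MAPI)

variable {X Y A G K Q : Type} [Group X] [Group Y] [Group A] [Group G] [Group K] [Group Q] {N c : ℕ}

theorem derived_eq_bot [Finite X] [hs : Group.IsSolvable X] (k : ℕ) :
    derivedSeries X k = ⊥ ∨ Nat.card (derivedSeries X k) + k ≤ Nat.card X := by
  induction k with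
  | zero =>
    right
    rw [derivedSeries_zero, Nat.card_congr Subgroup.topEquiv.toEquiv]
    omega
  | succ k ih =>
    by_cases h : derivedSeries X k = ⊥
    · left
      rw [derivedSeries_succ, h, eq_bot_iff]
      exact Subgroup.commutator_le_left _ _
    · right
      have h1 := Group.IsSolvable.commutator_lt_of_ne_bot h
      rw [← derivedSeries_succ] at h1
      have h2 : Nat.card (derivedSeries X (k + 1)) < Nat.card (derivedSeries X k) := by
        by_contra h3
        have h4 := Subgroup.eq_of_le_of_card_ge h1.le (by omega)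
        exact h1.ne h4
      rcases ih with h3 | h3
      · exact absurd h3 h
      · omega

theorem sol_of_FC0 : ∀ (n : ℕ) (X : Type) [Group X], Nat.card X ≤ n → FC 0 X →
    Group.IsSolvable X := by
  intro n
  induction n with
  | zero =>
    intro X _ hn hX
    have := hX.fin
    have := Nat.card_pos (α := X)
    omega
  | succ n ih =>
    intro X _ hn hX
    have hfin := hX.fin
    by_cases hsub : Subsingleton X
    · infer_instance
    rw [not_subsingleton_iff_nontrivial] at hsub
    obtain ⟨M, hM⟩ := (Set.toFinite {M : Subgroup X | M.Normal ∧ M ≠ ⊤}).exists_maximal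
      ⟨⊥, inferInstance, bot_ne_top⟩
    have hMn : M.Normal := hM.1.1
    have hq : Function.Surjective (QuotientGroup.mk' M) := QuotientGroup.mk'_surjective M
    have hnt : Nontrivial (X ⧸ M) := QuotientGroup.nontrivial_iff.2 hM.1.2
    have hsimple : IsSimpleGroup (X ⧸ M) := by
      constructor
      intro H hH
      by_cases h1 : H.comap (QuotientGroup.mk' M) = ⊤
      · right
        rw [eq_top_iff]
        intro y _
        obtain ⟨x, rfl⟩ := hq y
        have : x ∈ H.comap (QuotientGroup.mk' M) := by rw [h1]; trivial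
        exact this
      · left
        have h2 : M ≤ H.comap (QuotientGroup.mk' M) := by
          intro m hm
          rw [Subgroup.mem_comap]
          have : QuotientGroup.mk' M m = 1 := (QuotientGroup.eq_one_iff m).2 hm
          rw [this]
          exact H.one_mem
        have h3 : H.comap (QuotientGroup.mk' M) ≤ M := hM.2 ⟨hH.comap _, h1⟩ h2
        rw [eq_bot_iff]
        intro y hy
        obtain ⟨x, rfl⟩ := hq y
        exact (QuotientGroup.eq_one_iff x).2 (h3 hy)
    have hcomm : ∀ a b : X ⧸ M, a * b = b * a := by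
      by_contra hc
      push Not at hc
      have hS : NAS (X ⧸ M) := ⟨hsimple, hc⟩
      have h1 := hX.2 (X ⧸ M) hS (Sec.self.of_surj (QuotientGroup.mk' M) hq)
      have := Nat.card_pos (α := X ⧸ M)
      omega
    rw [Group.isSolvable_iff_subgroup_quotient M]
    refine ⟨ih M ?_ (hX.sub M), Group.isSolvable_of_comm hcomm⟩
    have h1 : Nat.card M < Nat.card X := by
      by_contra h2
      apply hM.1.2
      apply Subgroup.eq_top_of_card_eq
      have := Nat.card_le_card_of_injective _ M.subtype_injective
      omega
    omega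

theorem base {n : ℕ} (hn : 1 ≤ n) (hp : ∀ p : ℕ, p.Prime → LocFin (qp p n))
    (hexp : ∀ x : G, x ^ n = 1) (hG : Good N 0 G) : LF G := by
  refine x_IND n hn hp N G hexp (fun a x z => ?_)
  obtain ⟨h1, h2, h3⟩ := hG.sub (c3_le a x z)
  have hfin := h2.fin
  have hs : Group.IsSolvable (Subgroup.closure {a, x, z}) := sol_of_FC0 _ _ le_rfl h2
  refine ⟨hfin, hs, ?_⟩
  have h4 : derivedSeries (Subgroup.closure {a, x, z}) N = ⊥ := by
    rcases derived_eq_bot (X := Subgroup.closure {a, x, z}) N with h | h
    · exact h
    · exfalso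
      have := Nat.card_pos (α := derivedSeries (Subgroup.closure {a, x, z}) N)
      omega
  have h5 := x_MAPI (Subgroup.closure {a, x, z}) G (Subgroup.closure {a, x, z}).subtype
    (Subgroup.subtype_injective _) ⊤ N
  have h6 : (⊤ : Subgroup (Subgroup.closure {a, x, z})).map (Subgroup.closure {a, x, z}).subtype =
      c3 a x z := by
    rw [← MonoidHom.range_eq_map, Subgroup.range_subtype]
    rfl
  rw [h6] at h5
  rw [← h5, eq_bot_iff]
  have h7 := Pool.Agent.H32BU.TSOLH.DD_le (G := Subgroup.closure {a, x, z}) N
  rw [h4] at h7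
  rw [le_bot_iff.1 h7, Subgroup.map_bot]

theorem lf_ext (M : Subgroup G) [M.Normal] (h1 : LF M) (h2 : LF (G ⧸ M)) : LF G :=
  x_SCH G M h1 h2

theorem main : ∀ (c : ℕ) (n : ℕ), 1 ≤ n → (∀ p : ℕ, p.Prime → LocFin (qp p n)) →
    ∀ (N : ℕ) (G : Type) [Group G], (∀ x : G, x ^ n = 1) → Good N c G → LF G := by
  intro c
  induction c with
  | zero =>
    intro n hn hp N G _ hexp hG
    exact base hn hp hexp hG
  | succ c ihc =>
    intro n
    induction n using Nat.strong_induction_on with
    | h n ihn =>
      intro hn hp N G _ hexp hG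
      -- a prime divisor of `c + 1`
      rcases Nat.eq_zero_or_pos c with hc0 | hc0
      · subst hc0
        exact ihc n hn hp N G hexp (fun a => ⟨(hG a).1, FC_zero_of_one (hG a).2.1, (hG a).2.2⟩)
      obtain ⟨p, hpp, hpc⟩ := Nat.exists_prime_and_dvd (n := c + 1) (by omega)
      by_cases hpn : p ∣ n
      · obtain ⟨k, rfl⟩ := hpn
        have hk0 : k ≠ 0 := by
          rintro rfl
          omega
        have hR := ihc (p * k) hn hp N hG.RS (fun x => Subtype.ext (hexp x.1)) hG.good_RS
        refine lf_ext hG.RS hR ?_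
        have hexp' : ∀ x : G ⧸ hG.RS, x ^ (p * k) = 1 := by
          intro x
          obtain ⟨g, rfl⟩ := QuotientGroup.mk_surjective x
          rw [← QuotientGroup.mk_pow, hexp g]
          rfl
        have hG' : Good N (c + 1) (G ⧸ hG.RS) :=
          hG.of_surj (QuotientGroup.mk' _) (QuotientGroup.mk'_surjective _)
        have hR1 := hG.R1_quot
        have hstep : ∀ (Q : Type) [Group Q], (∀ x : Q, x ^ (p * k) = 1) → Good N (c + 1) Q →
            R1 c Q → LF Q := by
          intro Q _ hexpQ hQ hR1Q
          have hK : LF hQ.KS := (hQ.of_inj hQ.KS.subtype hQ.KS.subtype_injective).lf_of_KT hQ.KT_KS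
            (hQ.R1_KS hR1Q)
          refine lf_ext hQ.KS hK ?_
          refine ihn k ?_ (by omega) ?_ N (Q ⧸ hQ.KS) ?_
            (hQ.of_surj (QuotientGroup.mk' _) (QuotientGroup.mk'_surjective _))
          · have h2 := hpp.two_le
            nlinarith [Nat.pos_of_ne_zero hk0]
          · intro r hr
            refine x_LFD.1 _ _ ?_ (hp r hr)
            exact Nat.ordProj_dvd_ordProj_of_dvd (by omega) (dvd_mul_left k p) r
          · intro x
            obtain ⟨g, rfl⟩ := QuotientGroup.mk_surjective x
            rw [← QuotientGroup.mk_pow, QuotientGroup.eq_one_iff]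
            exact hQ.pow_mem_KS hpp hpc hk0 hexpQ g
        exact hstep _ hexp' hG' hR1
      · exact ihc n hn hp N G hexp (fun a => ⟨(hG a).1,
          FC_of_not_dvd (hG a).2.1 hpp hpc hpn (fun y => Subtype.ext (hexp y.1)), (hG a).2.2⟩)

end Pool.Agent.V5helper75.SG
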