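import Pool.Agent.V5helper75.SG.Rad

/-!
# Groups without quotients in the class `FC c`
-/

set_option autoImplicit false

namespace Pool.Agent.V5helper75.SG

variable {X Y Z G D : Type} [Group X] [Group Y] [Group Z] [Group G] [Group D]

theorem FC.prod {c : ℕ} (h1 : FC c X) (h2 : FC c Y) : FC c (X × Y) := by
  apply FC.ext (MonoidHom.fst X Y)
  · refine h2.of_inj ((MonoidHom.snd X Y).comp (MonoidHom.fst X Y).ker.subtype) ?_
    rw [injective_iff_map_eq_one]
    rintro ⟨⟨a, b⟩, h⟩ hb
    exact Subtype.ext (Prod.ext h hb)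
  · exact h1.sub _

theorem FC.pi {c : ℕ} (h : FC c Y) (ι : Type) [Finite ι] : FC c (ι → Y) := by
  induction ι using Finite.induction_empty_option with
  | @of_equiv α β e ih =>
    exact ih.of_inj
      { toFun := fun f a => f (e a), map_one' := rfl, map_mul' := fun _ _ => rfl }
      (fun f g hfg => by
        funext b
        have := congrFun hfg (e.symm b)
        simpa using this)
  | h_empty => exact FC.of_comm fun a b => Subsingleton.elim _ _
  | @h_option α _ ih =>
    refine (h.prod ih).of_inj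
      { toFun := fun f => (f none, fun a => f (some a)), map_one' := rfl, map_mul' := fun _ _ => rfl }
      (fun f g hfg => ?_)
    funext b
    cases b with
    | none => exact congrArg Prod.fst hfg
    | some a => exact congrFun (congrArg Prod.snd hfg) a

/-- no nontrivial quotient of class `FC c` -/
def Perf (c : ℕ) (D : Type) [Group D] : Prop :=
  ∀ (Y : Type) [Group Y] (f : D →* Y), FC c f.range → ∀ d, f d = 1

theorem Perf.surj {c : ℕ} (p : X →* Y) (hp : Function.Surjective p) (h : Perf c X) : Perf c Y := by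
  intro Z _ f hf y
  obtain ⟨x, rfl⟩ := hp y
  refine h Z (f.comp p) ?_ x
  refine hf.of_le ?_
  rintro _ ⟨x, rfl⟩
  exact ⟨p x, rfl⟩

theorem Perf.iso {c : ℕ} (e : X ≃* Y) (h : Perf c X) : Perf c Y :=
  h.surj e.toMonoidHom e.surjective

/-- the kernels of the homomorphisms onto groups of class `FC c` -/
def RK (c : ℕ) (N : Subgroup X) : Prop :=
  ∃ (Y : Type) (_ : Group Y) (f : X →* Y), FC c f.range ∧ f.ker = N

theorem RK.normal {c : ℕ} {N : Subgroup X} (h : RK c N) : N.Normal := by
  obtain ⟨Y, _, f, _, rfl⟩ := h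
  infer_instance

theorem RK_iff {c : ℕ} (N : Subgroup X) [N.Normal] : RK c N ↔ FC c (X ⧸ N) := by
  constructor
  · rintro ⟨Y, _, f, hf, rfl⟩
    exact hf.iso (QuotientGroup.quotientKerEquivRange f).symm
  · intro h
    exact ⟨X ⧸ N, inferInstance, QuotientGroup.mk' N, h.sub _, QuotientGroup.ker_mk' N⟩

theorem RK.inf {c : ℕ} {M N : Subgroup X} (hM : RK c M) (hN : RK c N) : RK c (M ⊓ N) := by
  obtain ⟨Y, _, f, hf, rfl⟩ := hM
  obtain ⟨Z, _, g, hg, rfl⟩ := hN
  refine ⟨Y × Z, inferInstance, f.prod g, ?_, ?_⟩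
  · refine ((hf.prod hg).iso (Subgroup.prodEquiv f.range g.range).symm).of_le ?_
    rintro _ ⟨x, rfl⟩
    exact ⟨⟨x, rfl⟩, ⟨x, rfl⟩⟩
  · ext x
    simp [MonoidHom.mem_ker, Subgroup.mem_inf, Prod.ext_iff]

theorem exists_perf (c : ℕ) (X : Type) [Group X] [Finite X] :
    ∃ D : Subgroup X, RK c D ∧ Perf c D := by
  let T : Set (Subgroup X) := {N | RK c N}
  have hT : T.Finite := Set.toFinite T
  have h0 : (⊤ : Subgroup X) ∈ T :=
    ⟨X, inferInstance, 1, by rw [MonoidHom.range_one]; exact FC.bot, MonoidHom.ker_one⟩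
  obtain ⟨D, hD⟩ := hT.exists_minimal ⟨⊤, h0⟩
  have hDT : RK c D := hD.1
  have hn : D.Normal := hDT.normal
  refine ⟨D, hDT, ?_⟩
  intro Y _ f hf d
  let Φ : D →* (X → f.range) :=
    { toFun := fun d x => ⟨f ⟨x⁻¹ * d.1 * x, by
          simpa using hn.conj_mem d.1 d.2 x⁻¹⟩, _, rfl⟩
      map_one' := by
        funext x
        apply Subtype.ext
        have : (⟨x⁻¹ * (1 : D).1 * x, by
          simpa using hn.conj_mem (1 : D).1 (1 : D).2 x⁻¹⟩ : D) = 1 := Subtype.ext (by simp)
        simp only [this, map_one]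
        rfl
      map_mul' := by
        intro a b
        funext x
        apply Subtype.ext
        change f _ = f _ * f _
        rw [← map_mul]
        congr 1
        apply Subtype.ext
        simp [mul_assoc] }
  have hΦ : FC c Φ.range := (hf.pi X).sub _
  let M : Subgroup X := Φ.ker.map D.subtype
  have hMD : M ≤ D := by
    rintro _ ⟨m, _, rfl⟩
    exact m.2
  have hM : M.Normal := by
    constructor
    rintro _ ⟨m, hm, rfl⟩ g
    refine ⟨⟨g * m.1 * g⁻¹, hn.conj_mem m.1 m.2 g⟩, ?_, rfl⟩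
    rw [SetLike.mem_coe, MonoidHom.mem_ker] at hm ⊢
    funext x
    have h1 := congrFun hm (g⁻¹ * x)
    apply Subtype.ext
    have h2 := congrArg Subtype.val h1
    change f _ = 1 at h2
    change f _ = 1
    rw [← h2]
    congr 1
    apply Subtype.ext
    simp [mul_assoc]
  have hRK : RK c M := by
    rw [RK_iff]
    let A : Subgroup (X ⧸ M) := D.map (QuotientGroup.mk' M)
    have hA : A.Normal := hn.map _ (QuotientGroup.mk'_surjective M)
    have hA1 : FC c A := by
      let q : D →* A := (QuotientGroup.mk' M).subgroupMap D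
      have hq : Function.Surjective q := (QuotientGroup.mk' M).subgroupMap_surjective D
      have hk : Φ.rangeRestrict.ker ≤ q.ker := by
        intro m hm
        rw [MonoidHom.ker_rangeRestrict] at hm
        rw [MonoidHom.mem_ker]
        apply Subtype.ext
        exact (QuotientGroup.eq_one_iff m.1).2 ⟨m, hm, rfl⟩
      refine hΦ.of_surj (Φ.rangeRestrict.liftOfSurjective Φ.rangeRestrict_surjective ⟨q, hk⟩) ?_
      intro a
      obtain ⟨m, rfl⟩ := hq a
      exact ⟨Φ.rangeRestrict m, MonoidHom.liftOfRightInverse_comp_apply _ _ _ _ _⟩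
    have hA2 : FC c ((X ⧸ M) ⧸ A) :=
      ((RK_iff D).1 hDT).iso (QuotientGroup.quotientQuotientEquivQuotient M D hMD).symm
    exact FC.ext' A hA1 hA2
  have hDM : D ≤ M := hD.2 hRK hMD
  obtain ⟨m, hm, hmd⟩ := hDM d.2
  have : m = d := Subtype.ext hmd
  subst this
  have h1 := congrFun (MonoidHom.mem_ker.1 hm) 1
  have h2 := congrArg Subtype.val h1
  change f _ = 1 at h2
  rw [← h2]
  congr 1
  apply Subtype.ext
  simp

/-- onto a simple group of large order -/
theorem exists_perf_onto {c : ℕ} [Finite X] (π : X →* Y) (hπ : Function.Surjective π)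
    (hY : NAS Y) (hc : ¬ FC c Y) : ∃ D : Subgroup X, Perf c D ∧ D.map π = ⊤ := by
  obtain ⟨D, hD, hp⟩ := exists_perf c X
  have := hD.normal
  refine ⟨D, hp, ?_⟩
  rcases hY.simple.eq_bot_or_eq_top_of_normal (D.map π) (this.map π hπ) with h0 | h1
  · exfalso
    apply hc
    have h2 : FC c (X ⧸ D) := (RK_iff D).1 hD
    have h3 : D ≤ π.ker := by
      intro d hd
      have : π d ∈ D.map π := ⟨d, hd, rfl⟩
      rw [h0] at this
      exact Subgroup.mem_bot.1 this
    refine h2.of_surj (QuotientGroup.lift D π h3) ?_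
    intro y
    obtain ⟨x, rfl⟩ := hπ y
    exact ⟨QuotientGroup.mk x, rfl⟩
  · exact h1

/-- a perfect subgroup inside an extension of `P` by a group of class `FC c` lies in `P` -/
theorem Perf.le_of {c : ℕ} {D P R : Subgroup X} (hD : Perf c D) [P.Normal] (hR : FC c R)
    (h : ∀ d ∈ D, ∃ p ∈ P, ∃ r ∈ R, d = p * r) : D ≤ P := by
  intro d hd
  let f : D →* X ⧸ P := (QuotientGroup.mk' P).comp D.subtype
  have hf : FC c f.range := by
    refine (hR.map (QuotientGroup.mk' P)).of_le ?_
    rintro _ ⟨d, rfl⟩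
    obtain ⟨p, hp, r, hr, h1⟩ := h d.1 d.2
    refine ⟨r, hr, ?_⟩
    change (QuotientGroup.mk r : X ⧸ P) = QuotientGroup.mk d.1
    rw [h1, QuotientGroup.mk_mul, (QuotientGroup.eq_one_iff p).2 hp, one_mul]
  have := hD (X ⧸ P) f hf ⟨d, hd⟩
  exact (QuotientGroup.eq_one_iff d).1 this

end Pool.Agent.V5helper75.SG
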