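import Pool.Agent.V5helper75.SG.Good

/-!
# Residual boundedness
-/

set_option autoImplicit false

open scoped commutatorElement

namespace Pool.Agent.V5helper75.SG

variable {X Y A G K Q : Type} [Group X] [Group Y] [Group A] [Group G] [Group K] [Group Q] {N c : ℕ}

theorem rnc_le_self {Y : Subgroup G} {x : G} (hx : x ∈ Y) : rnc Y x ≤ Y :=
  rnc_le (fun _ hy _ hm => Y.mul_mem (Y.mul_mem hy hm) (Y.inv_mem hy)) hx

theorem Good.next (hG : Good N (c + 1) K) (hR : R1 c K) {w : K} (hw : w ≠ 1) :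
    ∃ (D : Subgroup K) (w' : K), Perf c D ∧ (∃ h₁ h₂, D ≤ Subgroup.closure {w, h₁, h₂}) ∧
      D ≤ Subgroup.normalClosure {w} ∧ w' ∈ D ∧ w' ≠ 1 := by
  have h0 : ∃ h₁ h₂ : K, ¬ InRad c (Subgroup.closure {w, h₁, h₂}) w := by
    by_contra h
    push Not at h
    exact hw (hR w h)
  obtain ⟨h₁, h₂, hn⟩ := h0
  obtain ⟨Y, hY⟩ : ∃ Y : Subgroup K, Y = Subgroup.closure {w, h₁, h₂} := ⟨_, rfl⟩
  rw [← hY] at hn
  have hwY : w ∈ Y := by
    rw [hY]
    exact Subgroup.subset_closure (by simp)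
  have hLY : rnc Y w ≤ Y := rnc_le_self hwY
  have hYa : Y ≤ g6 ![w, h₁, h₂, 1, 1, 1] := by rw [hY]; exact c3_le w h₁ h₂
  obtain ⟨-, h1, hk⟩ := hG.sub (hLY.trans hYa)
  have := h1.fin
  obtain ⟨D, hRK, hD⟩ := exists_perf c (rnc Y w)
  have hD1 : D ≠ ⊥ := by
    rintro rfl
    obtain ⟨Z, _, f, hf, hker⟩ := hRK
    apply hn
    refine ⟨rnc Y w, hLY, fun y hy m hm => rnc_conj hy hm, ?_, self_mem_rnc Y w⟩
    refine hf.of_inj f.rangeRestrict ?_
    rw [← MonoidHom.ker_eq_bot_iff, MonoidHom.ker_rangeRestrict]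
    exact hker
  obtain ⟨d, hd⟩ := Subgroup.ne_bot_iff_exists_ne_one.1 hD1
  have hle : D.map (rnc Y w).subtype ≤ rnc Y w := by
    rintro _ ⟨x, _, rfl⟩
    exact x.2
  refine ⟨D.map (rnc Y w).subtype, d.1.1,
    hD.iso (D.equivMapOfInjective _ (rnc Y w).subtype_injective), ⟨h₁, h₂, ?_⟩, ?_,
    ⟨d.1, d.2, rfl⟩, ?_⟩
  · rw [← hY]
    exact hle.trans hLY
  · refine hle.trans (rnc_le (fun y _ m hm => ?_) (Subgroup.subset_normalClosure (by simp)))
    exact Subgroup.normalClosure_normal.conj_mem m hm y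
  · intro h
    exact hd (Subtype.ext (Subtype.ext h))

theorem comm_mod {P : Subgroup K} (hP : P.Normal) {u g : K}
    (h : ∀ y, ⁅y * u * y⁻¹, g⁆ ∈ P) {a b : K} (ha : a ∈ Subgroup.normalClosure {u} ⊔ P)
    (hb : b ∈ Subgroup.normalClosure {g} ⊔ P) :
    QuotientGroup.mk' P a * QuotientGroup.mk' P b = QuotientGroup.mk' P b * QuotientGroup.mk' P a := by
  set q := QuotientGroup.mk' P with hq
  have hP1 : ∀ p ∈ P, q p = 1 := fun p hp => (QuotientGroup.eq_one_iff p).2 hp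
  have h1 : ∀ y z : K, q (y * u * y⁻¹) * q (z * g * z⁻¹) = q (z * g * z⁻¹) * q (y * u * y⁻¹) := by
    intro y z
    rw [← commutatorElement_eq_one_iff_mul_comm, ← map_commutatorElement]
    have h2 := hP.conj_mem _ (h (z⁻¹ * y)) z
    apply hP1
    convert h2 using 1
    simp only [commutatorElement_def]
    group
  let C₁ : Subgroup K := (Subgroup.centralizer {x | ∃ z : K, x = q (z * g * z⁻¹)}).comap q
  have hA : Subgroup.normalClosure {u} ⊔ P ≤ C₁ := by
    rw [sup_le_iff]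
    constructor
    · unfold Subgroup.normalClosure
      rw [Subgroup.closure_le]
      intro v hv
      obtain ⟨u', hu, huv⟩ := Group.mem_conjugatesOfSet_iff.1 hv
      obtain ⟨y, rfl⟩ := isConj_iff.1 huv
      rw [Set.mem_singleton_iff.1 hu]
      rw [SetLike.mem_coe, Subgroup.mem_comap, Subgroup.mem_centralizer_iff]
      rintro _ ⟨z, rfl⟩
      exact (h1 y z).symm
    · intro p hp
      rw [Subgroup.mem_comap, hP1 p hp]
      exact Subgroup.one_mem _
  let C₂ : Subgroup K := (Subgroup.centralizer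
    ((Subgroup.normalClosure {u} ⊔ P).map q : Set (K ⧸ P))).comap q
  have hB : Subgroup.normalClosure {g} ⊔ P ≤ C₂ := by
    rw [sup_le_iff]
    constructor
    · unfold Subgroup.normalClosure
      rw [Subgroup.closure_le]
      intro v hv
      obtain ⟨u', hu, huv⟩ := Group.mem_conjugatesOfSet_iff.1 hv
      obtain ⟨z, rfl⟩ := isConj_iff.1 huv
      rw [Set.mem_singleton_iff.1 hu]
      rw [SetLike.mem_coe, Subgroup.mem_comap, Subgroup.mem_centralizer_iff]
      rintro _ ⟨x, hx, rfl⟩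
      have h3 := hA hx
      rw [Subgroup.mem_comap, Subgroup.mem_centralizer_iff] at h3
      exact (h3 _ ⟨z, rfl⟩).symm
    · intro p hp
      rw [Subgroup.mem_comap, hP1 p hp]
      exact Subgroup.one_mem _
  have h4 := hB hb
  rw [Subgroup.mem_comap, Subgroup.mem_centralizer_iff] at h4
  exact h4 _ ⟨a, ha, rfl⟩

theorem Good.exists_prime (hG : Good N (c + 1) K) (hR : R1 c K) {w : K} (hw : w ≠ 1) :
    ∃ P : Subgroup K, P.Normal ∧ w ∉ P ∧
      (∀ u g : K, (∀ y, ⁅y * u * y⁻¹, g⁆ ∈ P) → u ∈ P ∨ g ∈ P) ∧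
      ∃ D : Subgroup K, Perf c D ∧ ¬ D ≤ P ∧ ∃ h₁ h₂, D ≤ Subgroup.closure {w, h₁, h₂} := by
  choose D f hD hcl hnc hf hf1 using fun v : {v : K // v ≠ 1} => hG.next hR v.2
  let s : ℕ → {v : K // v ≠ 1} := fun i => Nat.rec ⟨w, hw⟩ (fun _ v => ⟨f v, hf1 v⟩) i
  have hs : ∀ i, (s (i + 1)).1 = f (s i) := fun i => rfl
  obtain ⟨P, -, hP⟩ := zorn_le_nonempty₀ {P : Subgroup K | P.Normal ∧ ∀ i, (s i).1 ∉ P} (by
    intro C hC hch y hy
    refine ⟨sSup C, ⟨⟨?_⟩, ?_⟩, fun z hz => le_sSup hz⟩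
    · intro x hx g
      rw [Subgroup.mem_sSup_of_directedOn ⟨y, hy⟩ hch.directedOn] at hx ⊢
      obtain ⟨M, hM, hxM⟩ := hx
      exact ⟨M, hM, (hC hM).1.conj_mem x hxM g⟩
    · intro i hi
      rw [Subgroup.mem_sSup_of_directedOn ⟨y, hy⟩ hch.directedOn] at hi
      obtain ⟨M, hM, hxM⟩ := hi
      exact (hC hM).2 i hxM) ⊥ ⟨inferInstance, fun i hi => (s i).2 (Subgroup.mem_bot.1 hi)⟩
  have hPn : P.Normal := hP.1.1
  -- subgroups which are larger contain almost all terms of the sequence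
  have hbig : ∀ u : K, u ∉ P → ∃ i, ∀ j, i ≤ j → (s j).1 ∈ Subgroup.normalClosure {u} ⊔ P := by
    intro u hu
    have h1 : ¬ (∀ i, (s i).1 ∉ Subgroup.normalClosure {u} ⊔ P) := by
      intro h
      have h2 : Subgroup.normalClosure {u} ⊔ P ≤ P := hP.2
        ⟨Subgroup.sup_normal _ _, h⟩ le_sup_right
      exact hu (h2 (Subgroup.mem_sup_left (Subgroup.subset_normalClosure (by simp))))
    push Not at h1
    obtain ⟨i, hi⟩ := h1
    refine ⟨i, fun j hj => ?_⟩
    induction j, hj using Nat.le_induction with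
    | base => exact hi
    | succ j hj ih =>
      rw [hs]
      have hn : (Subgroup.normalClosure {u} ⊔ P).Normal := Subgroup.sup_normal _ _
      have h2 : Subgroup.normalClosure {(s j).1} ≤ Subgroup.normalClosure {u} ⊔ P :=
        Subgroup.normalClosure_le_normal (by simpa using ih)
      exact h2 (hnc _ (hf _))
  refine ⟨P, hPn, hP.1.2 0, ?_, D (s 0), hD _, ?_, hcl _⟩
  · intro u g h
    by_contra hcon
    push Not at hcon
    obtain ⟨i, hi⟩ := hbig u hcon.1
    obtain ⟨j, hj⟩ := hbig g hcon.2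
    have h1 := hi (max i j) (le_max_left _ _)
    have h2 := hj (max i j) (le_max_right _ _)
    obtain ⟨k, hk⟩ : ∃ k, k = max i j := ⟨_, rfl⟩
    rw [← hk] at h1 h2
    have hn1 : (Subgroup.normalClosure {u} ⊔ P).Normal := Subgroup.sup_normal _ _
    have hn2 : (Subgroup.normalClosure {g} ⊔ P).Normal := Subgroup.sup_normal _ _
    have h3 : D (s k) ≤ Subgroup.normalClosure {u} ⊔ P :=
      (hnc _).trans (Subgroup.normalClosure_le_normal (by simpa using h1))
    have h4 : D (s k) ≤ Subgroup.normalClosure {g} ⊔ P :=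
      (hnc _).trans (Subgroup.normalClosure_le_normal (by simpa using h2))
    obtain ⟨k₁, k₂, hk12⟩ := hcl (s k)
    have hfin : Finite (D (s k)) := (hG.sub (hk12.trans (c3_le _ _ _))).2.1.fin
    have h5 := hD (s k) (K ⧸ P) ((QuotientGroup.mk' P).comp (D (s k)).subtype) (by
      have : Finite ((QuotientGroup.mk' P).comp (D (s k)).subtype).range :=
        Set.finite_range ((QuotientGroup.mk' P).comp (D (s k)).subtype)
      apply FC.of_comm
      rintro ⟨_, a, rfl⟩ ⟨_, b, rfl⟩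
      exact Subtype.ext (comm_mod hPn h (h3 a.2) (h4 b.2))) ⟨f (s k), hf _⟩
    apply hP.1.2 (k + 1)
    rw [hs]
    exact (QuotientGroup.eq_one_iff _).1 h5
  · intro h
    exact hP.1.2 1 (h (hf _))

end Pool.Agent.V5helper75.SG
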