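import Pool.Agent.V5helper75.SG.Sec

/-!
# The largest normal subgroup with small nonabelian simple sections
-/

set_option autoImplicit false

namespace Pool.Agent.V5helper75.SG

variable {X Y G : Type} [Group X] [Group Y] [Group G]

theorem FC.of_le {c : ℕ} {A B : Subgroup X} (h : A ≤ B) (hB : FC c B) : FC c A :=
  hB.of_inj (Subgroup.inclusion h) (Subgroup.inclusion_injective h)

theorem FC.map {c : ℕ} {M : Subgroup X} (f : X →* Y) (hM : FC c M) : FC c (M.map f) :=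
  hM.of_surj (f.subgroupMap M) (f.subgroupMap_surjective M)

/-- an embedding of a subgroup -/
theorem FC.emb {c : ℕ} {M : Subgroup X} {N : Subgroup Y} (f : Y →* X) (hf : ∀ n ∈ N, f n ∈ M)
    (hi : ∀ n ∈ N, f n = 1 → n = 1) (hM : FC c M) : FC c N := by
  refine hM.of_inj ((f.comp N.subtype).codRestrict M (fun n => hf n.1 n.2)) ?_
  rw [injective_iff_map_eq_one]
  intro n hn
  exact Subtype.ext (hi n.1 n.2 (congrArg Subtype.val hn))

theorem FC.sup {c : ℕ} (N M : Subgroup X) [M.Normal] (hN : FC c N) (hM : FC c M) :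
    FC c ↥(N ⊔ M) := by
  apply FC.ext' (M.subgroupOf (N ⊔ M))
  · exact hM.emb (N ⊔ M).subtype (fun n hn => hn) (fun n _ h => Subtype.ext h)
  · exact (hN.of_surj (QuotientGroup.mk' (M.subgroupOf N)) (QuotientGroup.mk'_surjective _)).iso
      (QuotientGroup.quotientInfEquivProdNormalQuotient N M)

/-- the union of the normal subgroups of class `FC c` -/
def rad (c : ℕ) (X : Type) [Group X] : Subgroup X where
  carrier := {x | ∃ M : Subgroup X, M.Normal ∧ FC c M ∧ x ∈ M}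
  one_mem' := ⟨⊥, inferInstance, FC.bot, Subgroup.one_mem _⟩
  mul_mem' := by
    rintro x y ⟨M, hM, hM1, hx⟩ ⟨N, hN, hN1, hy⟩
    exact ⟨M ⊔ N, Subgroup.sup_normal M N, FC.sup M N hM1 hN1,
      Subgroup.mul_mem_sup hx hy⟩
  inv_mem' := by
    rintro x ⟨M, hM, hM1, hx⟩
    exact ⟨M, hM, hM1, M.inv_mem hx⟩

theorem le_rad {c : ℕ} {M : Subgroup X} (hM : M.Normal) (h : FC c M) : M ≤ rad c X :=
  fun _ hx => ⟨M, hM, h, hx⟩

instance rad_normal (c : ℕ) (X : Type) [Group X] : (rad c X).Normal := by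
  constructor
  rintro x ⟨M, hM, hM1, hx⟩ g
  exact ⟨M, hM, hM1, hM.conj_mem x hx g⟩

theorem rad_FC (c : ℕ) (X : Type) [Group X] [Finite X] : FC c (rad c X) := by
  let T : Set (Subgroup X) := {M | M.Normal ∧ FC c M}
  have hT : T.Finite := Set.toFinite T
  obtain ⟨M, hM⟩ := hT.exists_maximal ⟨⊥, inferInstance, FC.bot⟩
  have hMn := hM.1.1
  have : rad c X = M := by
    apply le_antisymm
    · rintro x ⟨N, hN, hN1, hx⟩
      have h1 : N ⊔ M ∈ T := ⟨Subgroup.sup_normal N M, FC.sup N M hN1 hM.1.2⟩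
      exact hM.2 h1 le_sup_right (le_sup_left (a := N) (b := M) hx)
    · exact le_rad hM.1.1 hM.1.2
  rw [this]
  exact hM.1.2

theorem FC_iff_rad {c : ℕ} [Finite X] : FC c X ↔ rad c X = ⊤ := by
  constructor
  · intro h
    rw [eq_top_iff]
    exact le_rad inferInstance (h.sub ⊤)
  · intro h
    have := rad_FC c X
    rw [h] at this
    exact this.iso Subgroup.topEquiv

theorem rad_comap {c : ℕ} (f : Y →* X) (hf : Function.Injective f) [Finite X] :
    (rad c X).comap f ≤ rad c Y := by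
  apply le_rad inferInstance
  exact (rad_FC c X).emb f (fun n hn => hn) (fun n _ h => hf (h.trans (map_one f).symm))

theorem rad_map {c : ℕ} (p : X →* Y) (hp : Function.Surjective p) : (rad c X).map p ≤ rad c Y := by
  rintro _ ⟨x, ⟨M, hM, hM1, hx⟩, rfl⟩
  exact ⟨M.map p, hM.map p hp, hM1.map p, x, hx, rfl⟩

theorem FC.comap {c : ℕ} (p : X →* Y) {N : Subgroup Y} (hk : FC c p.ker) (hN : FC c N) :
    FC c (N.comap p) := by
  let q : N.comap p →* Y := p.comp (N.comap p).subtype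
  apply FC.ext q
  · exact hk.emb (N.comap p).subtype (fun n hn => hn) (fun n _ h => Subtype.ext h)
  · refine hN.of_le ?_
    rintro _ ⟨x, rfl⟩
    exact x.2

theorem rad_comap_ker {c : ℕ} (p : X →* Y) (hk : FC c p.ker) [Finite Y] :
    (rad c Y).comap p ≤ rad c X :=
  le_rad inferInstance (FC.comap p hk (rad_FC c Y))

theorem rad_quot (c : ℕ) (X : Type) [Group X] [Finite X] : rad c (X ⧸ rad c X) = ⊥ := by
  have h1 : (rad c (X ⧸ rad c X)).comap (QuotientGroup.mk' (rad c X)) ≤ rad c X := by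
    apply rad_comap_ker
    rw [QuotientGroup.ker_mk']
    exact rad_FC c X
  rw [eq_bot_iff]
  intro y hy
  obtain ⟨x, rfl⟩ := QuotientGroup.mk'_surjective _ y
  have h2 : x ∈ rad c X := h1 hy
  rw [Subgroup.mem_bot]
  exact (QuotientGroup.eq_one_iff x).2 h2

/-! ## The relative version -/

/-- `x` lies in a subgroup of `Y` of class `FC c` which is normalised by `Y` -/
def InRad (c : ℕ) (Y : Subgroup X) (x : X) : Prop :=
  ∃ M : Subgroup X, M ≤ Y ∧ (∀ y ∈ Y, ∀ m ∈ M, y * m * y⁻¹ ∈ M) ∧ FC c M ∧ x ∈ M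

theorem inRad_iff {c : ℕ} {Y : Subgroup X} {x : X} :
    InRad c Y x ↔ ∃ h : x ∈ Y, (⟨x, h⟩ : Y) ∈ rad c Y := by
  constructor
  · rintro ⟨M, hM, hn, hF, hx⟩
    refine ⟨hM hx, M.subgroupOf Y, ⟨?_⟩, ?_, hx⟩
    · intro m hm y
      exact hn y.1 y.2 m.1 hm
    · exact hF.emb Y.subtype (fun n hn => hn) (fun n _ h => Subtype.ext h)
  · rintro ⟨h, M, hM, hF, hx⟩
    refine ⟨M.map Y.subtype, ?_, ?_, hF.map _, ⟨⟨x, h⟩, hx, rfl⟩⟩
    · rintro _ ⟨m, _, rfl⟩
      exact m.2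
    · rintro y hy _ ⟨m, hm, rfl⟩
      exact ⟨⟨y, hy⟩ * m * ⟨y, hy⟩⁻¹, hM.conj_mem m hm ⟨y, hy⟩, rfl⟩

theorem InRad.restrict {c : ℕ} {Y Y' : Subgroup X} {x : X} (h : Y ≤ Y') (hx : x ∈ Y)
    (hr : InRad c Y' x) : InRad c Y x := by
  obtain ⟨M, hM, hn, hF, hxM⟩ := hr
  refine ⟨M ⊓ Y, inf_le_right, ?_, hF.of_le inf_le_left, hxM, hx⟩
  rintro y hy m ⟨hm, hmY⟩
  exact ⟨hn y (h hy) m hm, Y.mul_mem (Y.mul_mem hy hmY) (Y.inv_mem hy)⟩

theorem inRad_map {c : ℕ} (i : X →* G) (hi : Function.Injective i) {Y : Subgroup X} {x : X} :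
    InRad c (Y.map i) (i x) ↔ InRad c Y x := by
  constructor
  · rintro ⟨M, hM, hn, hF, hx⟩
    refine ⟨M.comap i, ?_, ?_, ?_, hx⟩
    · intro m hm
      obtain ⟨y, hy, hym⟩ := hM hm
      rwa [← hi hym]
    · intro y hy m hm
      rw [Subgroup.mem_comap, map_mul, map_mul, map_inv]
      exact hn (i y) ⟨y, hy, rfl⟩ (i m) hm
    · exact hF.emb i (fun n hn => hn) (fun n _ h => hi (h.trans (map_one i).symm))
  · rintro ⟨M, hM, hn, hF, hx⟩
    refine ⟨M.map i, Subgroup.map_mono hM, ?_, hF.map i, ⟨x, hx, rfl⟩⟩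
    rintro _ ⟨y, hy, rfl⟩ _ ⟨m, hm, rfl⟩
    exact ⟨y * m * y⁻¹, hn y hy m hm, by simp⟩

theorem InRad.mul {c : ℕ} {Y : Subgroup X} {x y : X} (hx : InRad c Y x) (hy : InRad c Y y) :
    InRad c Y (x * y) := by
  rw [inRad_iff] at *
  obtain ⟨h1, h2⟩ := hx
  obtain ⟨h3, h4⟩ := hy
  exact ⟨Y.mul_mem h1 h3, (rad c Y).mul_mem h2 h4⟩

theorem InRad.inv {c : ℕ} {Y : Subgroup X} {x : X} (hx : InRad c Y x) : InRad c Y x⁻¹ := by
  obtain ⟨M, hM, hn, hF, hxM⟩ := hx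
  exact ⟨M, hM, hn, hF, M.inv_mem hxM⟩

theorem inRad_one (c : ℕ) (Y : Subgroup X) : InRad c Y 1 :=
  ⟨⊥, bot_le, by simp, FC.bot, Subgroup.one_mem _⟩

theorem inRad_top {c : ℕ} {x : X} : InRad c (⊤ : Subgroup X) x ↔ x ∈ rad c X := by
  constructor
  · rintro ⟨M, _, hn, hF, hx⟩
    exact ⟨M, ⟨fun m hm y => hn y trivial m hm⟩, hF, hx⟩
  · rintro ⟨M, hM, hF, hx⟩
    exact ⟨M, le_top, fun y _ m hm => hM.conj_mem m hm y, hF, hx⟩

end Pool.Agent.V5helper75.SG
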