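import Pool.Agent.V5helper75.SG.Prime
import Pool.Agent.H32BU.Defs

/-!
# Groups with trivial radical all of whose elements normalise the components
-/

set_option autoImplicit false

open scoped commutatorElement

namespace Pool.Agent.V5helper75.SG

open Pool.Agent.H32BU (LF LocFin)

variable {X Y A G K Q : Type} [Group X] [Group Y] [Group A] [Group G] [Group K] [Group Q] {N c : ℕ}

theorem Good.residual (hG : Good N (c + 1) K) (hT : KT c K) (hR : R1 c K) {w : K} (hw : w ≠ 1) :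
    ∃ P : Subgroup K, P.Normal ∧ w ∉ P ∧ Finite (K ⧸ P) ∧ Nat.card (K ⧸ P) ≤ N ^ N := by
  obtain ⟨P, hP, hwP, hprime, D, hD, hDP, h₁, h₂, hDY⟩ := hG.exists_prime hR hw
  obtain ⟨Y, hY⟩ : ∃ Y : Subgroup K, Y = Subgroup.closure {w, h₁, h₂} := ⟨_, rfl⟩
  rw [← hY] at hDY
  have hYa : Y ≤ g6 ![w, h₁, h₂, 1, 1, 1] := by rw [hY]; exact c3_le w h₁ h₂
  obtain ⟨-, k1, kk⟩ := hG.sub hYa
  have kfin := k1.fin
  have kN : NrmS c Y = ⊤ := eq_top_iff.2 fun x _ => hG.nrm hYa x (hT x.1)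
  have kD : Perf c (D.subgroupOf Y) := hD.iso (Subgroup.subgroupOfEquivOfLe hDY).symm
  have knP : ¬ D.subgroupOf Y ≤ P.subgroupOf Y := by
    intro h
    apply hDP
    intro d hd
    exact h (show (⟨d, hDY hd⟩ : Y) ∈ D.subgroupOf Y from hd)
  obtain ⟨V, hV, -, hVP⟩ := alive k1 kk kN kD (hP.subgroupOf Y) knP
  have hk' : OK (Y ⧸ rad c Y) := quot_ok kk
  obtain ⟨t₁, t₂, ht⟩ := exists_lift (QuotientGroup.mk' (rad c Y)) (QuotientGroup.mk'_surjective _)
    (hk' V hV.nas inferInstance (Sec.sub V))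
  have hnF : ¬ FC c V := hV.not_FC (quot_h0 c Y) (quot_h1 k1) le_rfl
  obtain ⟨D₁, hD₁t, hD₁, hD₁V⟩ := exists_perf_in (QuotientGroup.mk' (rad c Y)) hV.nas hnF ht.ge
  have hD₀ : Perf c (D₁.map Y.subtype) := hD₁.iso (D₁.equivMapOfInjective _ Y.subtype_injective)
  have hD₀t : D₁.map Y.subtype ≤ Subgroup.closure {t₁.1, t₂.1} := by
    refine (Subgroup.map_mono hD₁t).trans ?_
    rw [MonoidHom.map_closure, Set.image_pair]
    rfl
  have hD₀P : ¬ D₁.map Y.subtype ≤ P := by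
    intro h
    apply hV.ne_bot
    rw [eq_bot_iff, ← hVP]
    refine le_inf le_rfl ?_
    rw [← hD₁V]
    apply Subgroup.map_mono
    intro d hd
    exact h ⟨d, hd, rfl⟩
  have hstep := fun (e : K) (z : K) (hz : z ∈ D₁.map Y.subtype) =>
    hG.step hT hR hP hprime hD₀ hD₀t hD₀P e hz
  set D₀ := D₁.map Y.subtype with hD₀def
  have hcard := (hG.sub (X := D₀) (a := ![t₁.1, t₂.1, 1, 1, 1, 1]) (by
    refine hD₀t.trans ?_
    rw [Subgroup.closure_le]
    rintro x (rfl | rfl)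
    · exact mem_g6 ![t₁.1, t₂.1, 1, 1, 1, 1] 0
    · exact mem_g6 ![t₁.1, t₂.1, 1, 1, 1, 1] 1))
  have hD₀fin := hcard.2.1.fin
  set q := QuotientGroup.mk' P with hq
  have hqs : Function.Surjective q := QuotientGroup.mk'_surjective P
  have hq1 : ∀ p, q p = 1 ↔ p ∈ P := fun p => QuotientGroup.eq_one_iff p
  have hSn : ∀ (x : K ⧸ P), ∀ s ∈ D₀.map q, x * s * x⁻¹ ∈ D₀.map q := by
    rintro x _ ⟨z, hz, rfl⟩
    obtain ⟨e, rfl⟩ := hqs x
    obtain ⟨z', hz', h⟩ := hstep e z hz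
    refine ⟨z', hz', ?_⟩
    have h2 := (hq1 _).2 h
    rw [map_mul, map_mul, map_mul, map_inv, map_inv, mul_inv_eq_one] at h2
    exact h2.symm
  have hSs := q.subgroupMap_surjective D₀
  have hSfin : Finite (D₀.map q) := Finite.of_surjective _ hSs
  have hSc : Nat.card (D₀.map q) ≤ N := (Nat.card_le_card_of_surjective _ hSs).trans hcard.1
  let Φ : K ⧸ P → (D₀.map q → D₀.map q) := fun x s => ⟨x * s.1 * x⁻¹, hSn x s.1 s.2⟩
  have hΦ : Function.Injective Φ := by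
    intro x y hxy
    obtain ⟨k, hk⟩ := hqs (y⁻¹ * x)
    obtain ⟨u, hu, huP⟩ : ∃ u ∈ D₀, u ∉ P := by
      by_contra h
      push Not at h
      exact hD₀P h
    have h1 : ∀ s ∈ D₀.map q, q k * s = s * q k := by
      intro s hs
      have h2 : x * s * x⁻¹ = y * s * y⁻¹ := congrArg (fun f => (f ⟨s, hs⟩).1) hxy
      rw [hk]
      calc y⁻¹ * x * s = y⁻¹ * (x * s * x⁻¹) * x := by group
        _ = s * (y⁻¹ * x) := by rw [h2]; group
    have h3 : u ∈ P ∨ k ∈ P := by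
      apply hprime
      intro z
      rw [← hq1, map_commutatorElement, commutatorElement_eq_one_iff_mul_comm]
      symm
      apply h1
      rw [map_mul, map_mul, map_inv]
      exact hSn _ _ ⟨u, hu, rfl⟩
    have h4 : q k = 1 := (hq1 k).2 (h3.resolve_left huP)
    rw [h4] at hk
    exact (inv_mul_eq_one.1 hk.symm).symm
  have hfin : Finite (K ⧸ P) := Finite.of_injective Φ hΦ
  refine ⟨P, hP, hwP, hfin, ?_⟩
  refine (Nat.card_le_card_of_injective Φ hΦ).trans ?_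
  rw [Nat.card_fun]
  have h5 : 0 < Nat.card (D₀.map q) := Nat.card_pos
  calc Nat.card (D₀.map q) ^ Nat.card (D₀.map q) ≤ N ^ Nat.card (D₀.map q) :=
        Nat.pow_le_pow_left hSc _
    _ ≤ N ^ N := Nat.pow_le_pow_right (h5.trans_le hSc) hSc

/-- residually of bounded order -/
theorem lf_of_residual {B : ℕ} (h : ∀ w : K, w ≠ 1 → ∃ P : Subgroup K, P.Normal ∧ w ∉ P ∧
    Finite (K ⧸ P) ∧ Nat.card (K ⧸ P) ≤ B) : LF K := by
  intro S
  have h1 : ∀ w : K, w ≠ 1 → ∃ φ : K →* Equiv.Perm (Fin B), φ w ≠ 1 := by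
    intro w hw
    obtain ⟨P, hP, hwP, hfin, hcard⟩ := h w hw
    have e := Finite.equivFin (K ⧸ P)
    let ι : K ⧸ P ↪ Fin B := e.toEmbedding.trans (Fin.castLEEmb hcard)
    refine ⟨((Equiv.Perm.viaEmbeddingHom ι).comp (MulAction.toPermHom (K ⧸ P) (K ⧸ P))).comp
      (QuotientGroup.mk' P), ?_⟩
    intro h2
    have h3 : MulAction.toPermHom (K ⧸ P) (K ⧸ P) (QuotientGroup.mk' P w) = 1 :=
      Equiv.Perm.viaEmbeddingHom_injective ι (h2.trans (map_one _).symm)
    have h4 := congrArg (fun f : Equiv.Perm (K ⧸ P) => f 1) h3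
    apply hwP
    rw [← QuotientGroup.eq_one_iff]
    simpa using h4
  have hT : Finite (Subgroup.closure (S : Set K) →* Equiv.Perm (Fin B)) := by
    refine Finite.of_injective (β := S → Equiv.Perm (Fin B))
      (fun φ s => φ ⟨s.1, Subgroup.subset_closure s.2⟩) ?_
    intro φ ψ hφψ
    ext1 ⟨x, hx⟩
    induction hx using Subgroup.closure_induction with
    | mem x hx => exact congrFun hφψ ⟨x, hx⟩
    | one => exact (map_one φ).trans (map_one ψ).symm
    | mul x y hx hy ihx ihy =>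
      have e1 : (⟨x * y, Subgroup.mul_mem _ hx hy⟩ : Subgroup.closure (S : Set K)) =
        ⟨x, hx⟩ * ⟨y, hy⟩ := rfl
      rw [e1, map_mul, map_mul, ihx, ihy]
    | inv x hx ihx =>
      have e1 : (⟨x⁻¹, Subgroup.inv_mem _ hx⟩ : Subgroup.closure (S : Set K)) =
        ⟨x, hx⟩⁻¹ := rfl
      rw [e1, map_inv, map_inv, ihx]
  refine Finite.of_injective (β := (Subgroup.closure (S : Set K) →* Equiv.Perm (Fin B)) →
    Equiv.Perm (Fin B)) (fun x φ => φ x) ?_
  intro x y hxy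
  by_contra hne
  have h2 : (x * y⁻¹).1 ≠ 1 := by
    intro h3
    apply hne
    have h4 : x * y⁻¹ = 1 := Subtype.ext h3
    exact mul_inv_eq_one.1 h4
  obtain ⟨φ, hφ⟩ := h1 _ h2
  apply hφ
  have h3 := congrFun hxy (φ.comp (Subgroup.closure (S : Set K)).subtype)
  have h4 : φ x.1 = φ y.1 := h3
  have h5 : (x * y⁻¹).1 = x.1 * y.1⁻¹ := rfl
  rw [h5, map_mul, map_inv, h4, mul_inv_cancel]

theorem Good.lf_of_KT (hG : Good N (c + 1) K) (hT : KT c K) (hR : R1 c K) : LF K :=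
  lf_of_residual fun _ hw => hG.residual hT hR hw

end Pool.Agent.V5helper75.SG
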