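import Mathlib

/-!
# Sections of groups; the class of the finite groups with small nonabelian simple sections
-/

set_option autoImplicit false

open scoped commutatorElement

namespace Pool.Agent.V5helper75.SG

/-- nonabelian simple group -/
structure NAS (S : Type) [Group S] : Prop where
  simple : IsSimpleGroup S
  nonab : ∃ a b : S, a * b ≠ b * a

/-- `S` is a section of `X`: a homomorphic image of a subgroup -/
def Sec (X S : Type) [Group X] [Group S] : Prop :=
  ∃ (H : Subgroup X) (f : H →* S), Function.Surjective f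

/-- finite groups all of whose nonabelian simple sections have order at most `c` -/
def FC (c : ℕ) (X : Type) [Group X] : Prop :=
  Finite X ∧ ∀ (S : Type) [Group S], NAS S → Sec X S → Nat.card S ≤ c

/-- generated by two elements -/
def TG (S : Type) [Group S] : Prop := ∃ a b : S, Subgroup.closure {a, b} = ⊤

/-- the finite nonabelian simple sections are generated by two elements -/
def OK (X : Type) [Group X] : Prop :=
  ∀ (S : Type) [Group S], NAS S → Finite S → Sec X S → TG S

variable {X Y S : Type} [Group X] [Group Y] [Group S]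

theorem Sec.of_inj (i : Y →* X) (hi : Function.Injective i) (h : Sec Y S) : Sec X S := by
  obtain ⟨H, f, hf⟩ := h
  refine ⟨H.map i, f.comp (H.equivMapOfInjective i hi).symm.toMonoidHom, ?_⟩
  exact hf.comp (MulEquiv.surjective _)

theorem Sec.of_surj (p : X →* Y) (hp : Function.Surjective p) (h : Sec Y S) : Sec X S := by
  obtain ⟨H, f, hf⟩ := h
  let q : H.comap p →* H := (p.comp (H.comap p).subtype).codRestrict H (fun x => x.2)
  refine ⟨H.comap p, f.comp q, hf.comp ?_⟩
  intro y
  obtain ⟨x, hx⟩ := hp y.1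
  exact ⟨⟨x, by rw [Subgroup.mem_comap, hx]; exact y.2⟩, Subtype.ext hx⟩

theorem Sec.self : Sec X X := ⟨⊤, (⊤ : Subgroup X).subtype, fun x => ⟨⟨x, trivial⟩, rfl⟩⟩

theorem Sec.ext (p : X →* Y) (hS : NAS S) (h : Sec X S) : Sec p.ker S ∨ Sec Y S := by
  obtain ⟨H, f, hf⟩ := h
  have := hS.simple
  let A : Subgroup H := p.ker.subgroupOf H
  have hA : A.Normal := inferInstance
  rcases this.eq_bot_or_eq_top_of_normal (A.map f) (hA.map f hf) with h0 | h1
  · right
    let q : H →* H.map p := (p.comp H.subtype).codRestrict (H.map p) (fun x => ⟨x.1, x.2, rfl⟩)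
    have hq : Function.Surjective q := by
      rintro ⟨y, x, hx, rfl⟩
      exact ⟨⟨x, hx⟩, rfl⟩
    have hk : q.ker ≤ f.ker := by
      intro x hx
      rw [MonoidHom.mem_ker] at hx ⊢
      have h2 : p x.1 = 1 := congrArg Subtype.val hx
      have h3 : f x ∈ A.map f := ⟨x, by rw [SetLike.mem_coe, Subgroup.mem_subgroupOf]; exact h2, rfl⟩
      rw [h0] at h3
      exact Subgroup.mem_bot.1 h3
    refine ⟨H.map p, q.liftOfSurjective hq ⟨f, hk⟩, ?_⟩
    intro s
    obtain ⟨x, rfl⟩ := hf s
    exact ⟨q x, MonoidHom.liftOfRightInverse_comp_apply _ _ _ _ _⟩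
  · left
    let B : Subgroup p.ker := H.subgroupOf p.ker
    let g : B →* S := f.comp ((p.ker.subtype.comp B.subtype).codRestrict H (fun x => x.2))
    refine ⟨B, g, ?_⟩
    intro s
    have h2 : s ∈ A.map f := by rw [h1]; trivial
    obtain ⟨x, hx, rfl⟩ := h2
    exact ⟨⟨⟨x.1, hx⟩, x.2⟩, rfl⟩

theorem FC.fin {c : ℕ} (h : FC c X) : Finite X := h.1

theorem FC.of_inj {c : ℕ} (i : Y →* X) (hi : Function.Injective i) (h : FC c X) : FC c Y :=
  ⟨have := h.1; Finite.of_injective i hi, fun S _ hS hY => h.2 S hS (hY.of_inj i hi)⟩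

theorem FC.of_surj {c : ℕ} (p : X →* Y) (hp : Function.Surjective p) (h : FC c X) : FC c Y :=
  ⟨have := h.1; Finite.of_surjective p hp, fun S _ hS hY => h.2 S hS (hY.of_surj p hp)⟩

theorem FC.sub {c : ℕ} (h : FC c X) (H : Subgroup X) : FC c H :=
  h.of_inj H.subtype H.subtype_injective

theorem FC.mono {c d : ℕ} (hcd : c ≤ d) (h : FC c X) : FC d X :=
  ⟨h.1, fun S _ hS hX => (h.2 S hS hX).trans hcd⟩

theorem FC.ext {c : ℕ} (p : X →* Y) (h1 : FC c p.ker) (h2 : FC c p.range) : FC c X := by
  have := h1.1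
  have := h2.1
  constructor
  · have h3 : Finite (X ⧸ p.ker) := Finite.of_equiv _ (QuotientGroup.quotientKerEquivRange p).toEquiv.symm
    exact Finite.of_subgroup_quotient p.ker
  · intro S _ hS hX
    rcases hX.ext p.rangeRestrict hS with h | h
    · refine h1.2 S hS ?_
      rwa [MonoidHom.ker_rangeRestrict] at h
    · exact h2.2 S hS h

theorem FC.ext' {c : ℕ} (N : Subgroup X) [N.Normal] (h1 : FC c N) (h2 : FC c (X ⧸ N)) : FC c X := by
  apply FC.ext (QuotientGroup.mk' N)
  · rwa [QuotientGroup.ker_mk']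
  · exact h2.sub _

theorem Sec.card_le [Finite X] (h : Sec X S) : Nat.card S ≤ Nat.card X := by
  obtain ⟨H, f, hf⟩ := h
  exact (Nat.card_le_card_of_surjective f hf).trans (Nat.card_le_card_of_injective _ H.subtype_injective)

theorem FC.of_card {c : ℕ} [Finite X] (h : Nat.card X ≤ c) : FC c X :=
  ⟨inferInstance, fun _ _ _ hX => hX.card_le.trans h⟩

theorem FC.of_comm {c : ℕ} [Finite X] (h : ∀ a b : X, a * b = b * a) : FC c X := by
  refine ⟨inferInstance, fun S _ hS hX => ?_⟩
  obtain ⟨H, f, hf⟩ := hX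
  obtain ⟨a, b, hab⟩ := hS.nonab
  obtain ⟨x, rfl⟩ := hf a
  obtain ⟨y, rfl⟩ := hf b
  exfalso
  apply hab
  rw [← map_mul, ← map_mul]
  congr 1
  exact Subtype.ext (h x.1 y.1)

theorem FC.bot {c : ℕ} : FC c (⊥ : Subgroup X) :=
  FC.of_comm fun _ _ => Subsingleton.elim _ _

theorem FC.iso {c : ℕ} (e : X ≃* Y) (h : FC c X) : FC c Y := h.of_surj e.toMonoidHom e.surjective

theorem OK.of_inj (i : Y →* X) (hi : Function.Injective i) (h : OK X) : OK Y :=
  fun S _ hS hf hY => h S hS hf (hY.of_inj i hi)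

theorem OK.of_surj (p : X →* Y) (hp : Function.Surjective p) (h : OK X) : OK Y :=
  fun S _ hS hf hY => h S hS hf (hY.of_surj p hp)

/-! ## Simple groups -/

theorem NAS.comm_top (h : NAS S) : commutator S = ⊤ := by
  have := h.simple
  rcases this.eq_bot_or_eq_top_of_normal (commutator S) inferInstance with h0 | h1
  · exfalso
    obtain ⟨a, b, hab⟩ := h.nonab
    apply hab
    have h2 : ⁅a, b⁆ ∈ commutator S :=
      Subgroup.commutator_mem_commutator (Subgroup.mem_top a) (Subgroup.mem_top b)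
    rw [h0, Subgroup.mem_bot, commutatorElement_def] at h2
    have h3 : a * b * a⁻¹ * b⁻¹ = 1 := h2
    calc a * b = (a * b * a⁻¹ * b⁻¹) * (b * a) := by group
      _ = b * a := by rw [h3, one_mul]
  · exact h1

theorem NAS.center (h : NAS S) {z : S} (hz : ∀ s : S, z * s = s * z) : z = 1 := by
  have := h.simple
  rcases this.eq_bot_or_eq_top_of_normal (Subgroup.center S) inferInstance with h0 | h1
  · have : z ∈ Subgroup.center S := Subgroup.mem_center_iff.2 fun g => (hz g).symm
    rw [h0] at this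
    exact Subgroup.mem_bot.1 this
  · exfalso
    obtain ⟨a, b, hab⟩ := h.nonab
    have h2 : b ∈ Subgroup.center S := by rw [h1]; trivial
    exact hab (Subgroup.mem_center_iff.1 h2 a)

theorem NAS.iso (e : S ≃* X) (h : NAS S) : NAS X := by
  have := h.simple
  refine ⟨e.symm.isSimpleGroup, ?_⟩
  · obtain ⟨a, b, hab⟩ := h.nonab
    refine ⟨e a, e b, fun h2 => hab (e.injective ?_)⟩
    rw [map_mul, map_mul, h2]

end Pool.Agent.V5helper75.SG
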