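import Pool.Agent.V5helper75.SG.Ind

/-!
# Characteristic series
-/

set_option autoImplicit false

open scoped commutatorElement

namespace Pool.Agent.V5helper75.SG

variable {X Y A G K Q : Type} [Group X] [Group Y] [Group A] [Group G] [Group K] [Group Q] {N c : ℕ}

/-- the factor `M / P` has an exponent which is a prime power dividing `n`, or it is residually of
order at most `B` -/
def Lay (n B : ℕ) (P M : Subgroup G) : Prop :=
  (∃ p k : ℕ, p.Prime ∧ p ^ k ∣ n ∧ ∀ x ∈ M, x ^ p ^ k ∈ P) ∨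
    ∀ w ∈ M, w ∉ P → ∃ L : Subgroup G, P ≤ L ∧ L ≤ M ∧ (∀ m ∈ M, ∀ x ∈ L, m * x * m⁻¹ ∈ L) ∧
      w ∉ L ∧ L.relIndex M ≠ 0 ∧ L.relIndex M ≤ B

theorem Lay.refl (n B : ℕ) (P : Subgroup G) : Lay n B P P :=
  Or.inl ⟨2, 0, Nat.prime_two, by simp, fun x hx => by simpa using hx⟩

theorem Lay.mono {n n' B : ℕ} (h : n ∣ n') {P M : Subgroup G} (hl : Lay n B P M) :
    Lay n' B P M := by
  rcases hl with ⟨p, k, hp, hk, hx⟩ | hl
  · exact Or.inl ⟨p, k, hp, hk.trans h, hx⟩
  · exact Or.inr hl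

theorem Lay.map {n B : ℕ} {P M : Subgroup X} (f : X →* G) (hf : Function.Injective f)
    (h : Lay n B P M) : Lay n B (P.map f) (M.map f) := by
  rcases h with ⟨p, k, hp, hk, hx⟩ | h
  · refine Or.inl ⟨p, k, hp, hk, ?_⟩
    rintro _ ⟨x, hxM, rfl⟩
    exact ⟨_, hx x hxM, map_pow f _ _⟩
  · right
    rintro _ ⟨w, hw, rfl⟩ hwP
    obtain ⟨L, h1, h2, h3, h4, h5, h6⟩ := h w hw (fun h => hwP ⟨w, h, rfl⟩)
    refine ⟨L.map f, Subgroup.map_mono h1, Subgroup.map_mono h2, ?_, ?_, ?_, ?_⟩
    · rintro _ ⟨m, hm, rfl⟩ _ ⟨x, hx, rfl⟩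
      exact ⟨m * x * m⁻¹, h3 m hm x hx, by simp⟩
    · rintro ⟨x, hx, hxw⟩
      rw [hf hxw] at hx
      exact h4 hx
    · rwa [Subgroup.relIndex_map_map_of_injective _ _ hf]
    · rwa [Subgroup.relIndex_map_map_of_injective _ _ hf]

theorem Lay.comap {n B : ℕ} {P M : Subgroup Q} (f : G →* Q) (hf : Function.Surjective f)
    (h : Lay n B P M) : Lay n B (P.comap f) (M.comap f) := by
  rcases h with ⟨p, k, hp, hk, hx⟩ | h
  · refine Or.inl ⟨p, k, hp, hk, ?_⟩
    intro x hxM
    rw [Subgroup.mem_comap, map_pow]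
    exact hx _ hxM
  · right
    intro w hw hwP
    obtain ⟨L, h1, h2, h3, h4, h5, h6⟩ := h (f w) hw hwP
    refine ⟨L.comap f, Subgroup.comap_mono h1, Subgroup.comap_mono h2, ?_, h4, ?_, ?_⟩
    · intro m hm x hx
      rw [Subgroup.mem_comap, map_mul, map_mul, map_inv]
      exact h3 _ hm _ hx
    · rwa [Subgroup.relIndex_comap, Subgroup.map_comap_eq_self_of_surjective hf]
    · rwa [Subgroup.relIndex_comap, Subgroup.map_comap_eq_self_of_surjective hf]

/-- series of characteristic subgroups from the trivial subgroup to `M` -/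
def SerTo (n B l : ℕ) (M : Subgroup G) : Prop :=
  ∃ S : ℕ → Subgroup G, S 0 = ⊥ ∧ (∀ i, l ≤ i → S i = M) ∧
    ∀ i, (S i).Characteristic ∧ S i ≤ S (i + 1) ∧ Lay n B (S i) (S (i + 1))

theorem SerTo.char {n B l : ℕ} {M : Subgroup G} (h : SerTo n B l M) : M.Characteristic := by
  obtain ⟨S, -, h2, h3⟩ := h
  rw [← h2 l le_rfl]
  exact (h3 l).1

theorem SerTo.bot (n B : ℕ) : SerTo n B 0 (⊥ : Subgroup G) :=
  ⟨fun _ => ⊥, rfl, fun _ _ => rfl, fun _ => ⟨inferInstance, le_rfl, Lay.refl _ _ _⟩⟩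

theorem SerTo.mono {n n' B l : ℕ} {M : Subgroup G} (h : n ∣ n') (hs : SerTo n B l M) :
    SerTo n' B l M := by
  obtain ⟨S, h1, h2, h3⟩ := hs
  exact ⟨S, h1, h2, fun i => ⟨(h3 i).1, (h3 i).2.1, (h3 i).2.2.mono h⟩⟩

theorem SerTo.step {n B l : ℕ} {M M' : Subgroup G} (hs : SerTo n B l M) (hM : M'.Characteristic)
    (hle : M ≤ M') (hl : Lay n B M M') : SerTo n B (l + 1) M' := by
  obtain ⟨S, h1, h2, h3⟩ := hs
  refine ⟨fun i => if i ≤ l then S i else M', by simpa using h1, ?_, ?_⟩
  · intro i hi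
    simp [show ¬ i ≤ l by omega]
  · intro i
    rcases lt_trichotomy i l with h | h | h
    · have e1 : i ≤ l := h.le
      have e2 : i + 1 ≤ l := h
      simp only [e1, e2, if_true]
      exact h3 i
    · subst h
      simp only [le_refl, if_true, Nat.succ_le_iff, lt_self_iff_false, if_false]
      rw [h2 i le_rfl]
      refine ⟨?_, hle, hl⟩
      rw [← h2 i le_rfl]
      exact (h3 i).1
    · have e1 : ¬ i ≤ l := by omega
      have e2 : ¬ i + 1 ≤ l := by omega
      simp only [e1, e2, if_false]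
      exact ⟨hM, le_rfl, Lay.refl _ _ _⟩

theorem char_comap {M : Subgroup G} (hM : M.Characteristic) [M.Normal] {L : Subgroup (G ⧸ M)}
    (hL : L.Characteristic) : (L.comap (QuotientGroup.mk' M)).Characteristic := by
  rw [Subgroup.characteristic_iff_le_comap] at *
  intro φ x hx
  have e : M.map φ.toMonoidHom = M := (Subgroup.characteristic_iff_map_eq.1
    (Subgroup.characteristic_iff_le_comap.2 hM)) φ
  have h1 := hL (QuotientGroup.congr M M φ e) hx
  exact h1

theorem char_map {M : Subgroup G} (hM : M.Characteristic) {L : Subgroup M}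
    (hL : L.Characteristic) : (L.map M.subtype).Characteristic := by
  rw [Subgroup.characteristic_iff_le_comap] at *
  rintro φ _ ⟨x, hx, rfl⟩
  let ψ : M ≃* M :=
    { toFun := fun y => ⟨φ y.1, hM φ y.2⟩
      invFun := fun y => ⟨φ.symm y.1, hM φ.symm y.2⟩
      left_inv := fun y => Subtype.ext (φ.symm_apply_apply y.1)
      right_inv := fun y => Subtype.ext (φ.apply_symm_apply y.1)
      map_mul' := fun y z => Subtype.ext (map_mul φ y.1 z.1) }
  exact ⟨ψ x, hL ψ hx, rfl⟩

theorem SerTo.quot {n B l l' : ℕ} {M : Subgroup G} [M.Normal] (hs : SerTo n B l M)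
    (hs' : SerTo n B l' (⊤ : Subgroup (G ⧸ M))) : SerTo n B (l + l') (⊤ : Subgroup G) := by
  have hM := hs.char
  obtain ⟨S, h1, h2, h3⟩ := hs
  obtain ⟨S', h1', h2', h3'⟩ := hs'
  have hq : Function.Surjective (QuotientGroup.mk' M) := QuotientGroup.mk'_surjective M
  have e0 : (S' 0).comap (QuotientGroup.mk' M) = M := by
    rw [h1', MonoidHom.comap_bot, QuotientGroup.ker_mk']
  refine ⟨fun i => if i ≤ l then S i else (S' (i - l)).comap (QuotientGroup.mk' M),
    by simpa using h1, ?_, ?_⟩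
  · intro i hi
    rcases Nat.eq_zero_or_pos l' with h0 | h0
    · subst h0
      rcases Nat.eq_or_lt_of_le hi with h | h
      · have e1 : i ≤ l := by omega
        simp only [e1, if_true]
        rw [h2 i (by omega), ← e0, h2' 0 le_rfl, Subgroup.comap_top]
      · have e1 : ¬ i ≤ l := by omega
        simp only [e1, if_false]
        rw [h2' _ (by omega), Subgroup.comap_top]
    · have e1 : ¬ i ≤ l := by omega
      simp only [e1, if_false]
      rw [h2' _ (by omega), Subgroup.comap_top]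
  · intro i
    rcases lt_trichotomy i l with h | h | h
    · have e1 : i ≤ l := h.le
      have e2 : i + 1 ≤ l := h
      simp only [e1, e2, if_true]
      exact h3 i
    · subst h
      have e2 : ¬ i + 1 ≤ i := by omega
      simp only [le_refl, e2, if_true, if_false, Nat.add_sub_cancel_left]
      refine ⟨(h3 i).1, ?_, ?_⟩
      · rw [h2 i le_rfl]
        exact e0.ge.trans (Subgroup.comap_mono (h3' 0).2.1)
      · rw [h2 i le_rfl]
        have h4 := (h3' 0).2.2.comap _ hq
        rw [e0] at h4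
        exact h4
    · have e1 : ¬ i ≤ l := by omega
      have e2 : ¬ i + 1 ≤ l := by omega
      simp only [e1, e2, if_false]
      rw [show i + 1 - l = (i - l) + 1 by omega]
      exact ⟨char_comap hM (h3' _).1, Subgroup.comap_mono (h3' _).2.1, (h3' _).2.2.comap _ hq⟩

theorem SerTo.sub {n B l : ℕ} {M : Subgroup G} (hM : M.Characteristic)
    (hs : SerTo n B l (⊤ : Subgroup M)) : SerTo n B l M := by
  obtain ⟨S, h1, h2, h3⟩ := hs
  refine ⟨fun i => (S i).map M.subtype, by simp [h1], ?_, ?_⟩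
  · intro i hi
    simp only [h2 i hi]
    rw [← MonoidHom.range_eq_map, Subgroup.range_subtype]
  · intro i
    exact ⟨char_map hM (h3 i).1, Subgroup.map_mono (h3 i).2.1,
      (h3 i).2.2.map _ M.subtype_injective⟩

/-! ## The subgroups used are characteristic -/

theorem Good.RS_char (hG : Good N (c + 1) G) : hG.RS.Characteristic := by
  rw [Subgroup.characteristic_iff_le_comap]
  intro φ e he h₁ h₂
  have h := (inRad_map φ.toMonoidHom φ.injective).2 (he (φ.symm h₁) (φ.symm h₂))
  rw [closure3_map] at h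
  have e1 : ∀ y, φ.toMonoidHom (φ.symm y) = y := fun y => φ.apply_symm_apply y
  rw [e1, e1] at h
  exact h

theorem Good.KS_char (hG : Good N (c + 1) G) : hG.KS.Characteristic := by
  rw [Subgroup.characteristic_iff_le_comap]
  intro φ e he h₁ h₂ hb
  apply he (φ.symm h₁) (φ.symm h₂)
  rw [← bad_map φ.toMonoidHom φ.injective, closure3_map]
  have e1 : ∀ y, φ.toMonoidHom (φ.symm y) = y := fun y => φ.apply_symm_apply y
  rw [e1, e1]
  exact hb

end Pool.Agent.V5helper75.SG
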