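import Pool.Agent.V5helper75.SG.Ser

/-!
# Series: the soluble case and the induction
-/

set_option autoImplicit false

open scoped commutatorElement

namespace Pool.Agent.V5helper75.SG

open Pool.Agent.H32BU

variable {X Y A G K Q : Type} [Group X] [Group Y] [Group A] [Group G] [Group K] [Group Q] {N c : ℕ}

theorem nset_char (q : ℕ) : (Subgroup.closure (Nset q : Set G)).Characteristic := by
  rw [Subgroup.characteristic_iff_le_comap]
  intro φ
  rw [Subgroup.closure_le]
  rintro e ⟨he, he2⟩
  refine Subgroup.subset_closure ⟨?_, ?_⟩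
  · change (φ e) ^ q = 1
    rw [← map_pow, he, map_one]
  · intro y hy w hw
    have h1 : (c2 e (φ.symm y)).map φ.toMonoidHom = c2 (φ e) y := by
      rw [map_c2]
      congr 1
      exact φ.apply_symm_apply y
    change w ∈ c2 (φ e) y at hw
    rw [← h1] at hw
    obtain ⟨v, hv, rfl⟩ := hw
    rw [← map_pow, he2 (φ.symm y) (by rw [← map_pow, hy, map_one]) v hv, map_one]

theorem exists_M (n B : ℕ) (G : Type) [Group G] : ∃ M : Subgroup G,
    SerTo n B n.primeFactors.card M ∧ ∀ p : ℕ, p.Prime → (Nset (qp p n) : Set G) ⊆ M := by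
  have key : ∀ s : Finset ℕ, (∀ p ∈ s, p.Prime) → ∃ M : Subgroup G, SerTo n B s.card M ∧
      ∀ p ∈ s, (Nset (qp p n) : Set G) ⊆ M := by
    intro s
    induction s using Finset.induction_on with
    | empty =>
      intro _
      exact ⟨⊥, SerTo.bot n B, by simp⟩
    | insert p s hps ih =>
      intro hs
      obtain ⟨M, hM, hMs⟩ := ih (fun q hq => hs q (Finset.mem_insert_of_mem hq))
      have hp := hs p (Finset.mem_insert_self _ _)
      have hMc := hM.char
      have hMn : M.Normal := inferInstance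
      have hc := nset_char (G := G) (qp p n)
      refine ⟨Subgroup.closure (Nset (qp p n) : Set G) ⊔ M, ?_, ?_⟩
      · rw [Finset.card_insert_of_notMem hps]
        refine hM.step inferInstance le_sup_right
          (Or.inl ⟨p, n.factorization p, hp, Nat.ordProj_dvd n p, ?_⟩)
        intro x hx
        rw [← QuotientGroup.eq_one_iff]
        have h1 : QuotientGroup.mk' M x ∈
            (Subgroup.closure (Nset (qp p n) : Set G)).map (QuotientGroup.mk' M) := by
          have h2 : QuotientGroup.mk' M x ∈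
            (Subgroup.closure (Nset (qp p n) : Set G) ⊔ M).map (QuotientGroup.mk' M) := ⟨x, hx, rfl⟩
          rw [Subgroup.map_sup] at h2
          have h3 : M.map (QuotientGroup.mk' M) = ⊥ := by
            rw [Subgroup.map_eq_bot_iff, QuotientGroup.ker_mk']
          rwa [h3, sup_bot_eq] at h2
        obtain ⟨a, ha, hax⟩ := h1
        have h4 : a ^ qp p n = 1 := (x_NS G (qp p n)).1 a ha
        have h5 : (QuotientGroup.mk (x ^ p ^ n.factorization p) : G ⧸ M) =
            QuotientGroup.mk' M (a ^ qp p n) := by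
          rw [map_pow, hax]
          rfl
        rw [h5, h4, map_one]
      · intro q hq'
        rcases Finset.mem_insert.1 hq' with rfl | h
        · exact Subgroup.subset_closure.trans (le_sup_left (α := Subgroup G))
        · exact (hMs q h).trans (le_sup_right (α := Subgroup G))
  obtain ⟨M, hM, hMs⟩ := key n.primeFactors (fun p hp => Nat.prime_of_mem_primeFactors hp)
  refine ⟨M, hM, ?_⟩
  intro p hp
  by_cases hpn : p ∈ n.primeFactors
  · exact hMs p hpn
  · have h0 : qp p n = 1 := by
      unfold qp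
      have : n.factorization p = 0 := by
        rw [Nat.factorization_eq_zero_iff]
        by_contra hcon
        push Not at hcon
        apply hpn
        exact Nat.mem_primeFactors.2 ⟨hp, hcon.2.1, hcon.2.2⟩
      rw [this, pow_zero]
    rw [h0]
    rintro e ⟨he, -⟩
    rw [pow_one] at he
    rw [he]
    exact M.one_mem

theorem down {n : ℕ} (hn : 1 ≤ n) {m : ℕ} (hG : ∀ x : G, x ^ n = 1)
    (h : ∀ a x z : G, Finite (c3 a x z) ∧ Group.IsSolvable (c3 a x z) ∧ DD (c3 a x z) (m + 1) = ⊥)
    (M : Subgroup G) [M.Normal] (hMs : ∀ p : ℕ, p.Prime → (Nset (qp p n) : Set G) ⊆ M) :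
    ∀ a x z : G ⧸ M, Finite (c3 a x z) ∧ Group.IsSolvable (c3 a x z) ∧ DD (c3 a x z) m = ⊥ := by
  have htor : ∀ x : G, IsOfFinOrder x := fun x => isOfFinOrder_iff_pow_eq_one.2 ⟨n, by omega, hG x⟩
  have htwo : ∀ a x : G, DD (c2 a x) m ≤ M := by
    intro a x e he
    apply mem_of_parts M n hn e
    intro p hp
    apply hMs p hp
    have hpe : (e ^ (n / qp p n)) ^ qp p n = 1 := by
      rw [← pow_mul, show n / qp p n * qp p n = n from Nat.div_mul_cancel (Nat.ordProj_dvd n p),
        hG]
    refine ⟨hpe, ?_⟩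
    intro y hy
    obtain ⟨hf, hs, hd⟩ := h a x y
    have hle : c2 a x ≤ c3 a x y := by
      unfold c2 c3
      apply Subgroup.closure_mono
      intro t ht
      simp only [Set.mem_insert_iff, Set.mem_singleton_iff] at ht ⊢
      tauto
    have hyin : y ∈ c3 a x y := Subgroup.subset_closure (by simp)
    exact x_COPC G (c3 a x y) hf n hn (fun t _ => hG t) m hd p hp _
      (Subgroup.pow_mem _ ((x_MON G).1 _ _ hle m he) _) hpe y hyin hy
  intro a' x' z'
  obtain ⟨a, rfl⟩ := QuotientGroup.mk_surjective a'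
  obtain ⟨x, rfl⟩ := QuotientGroup.mk_surjective x'
  obtain ⟨z, rfl⟩ := QuotientGroup.mk_surjective z'
  obtain ⟨hf, hs, hd⟩ := h a x z
  have hmap : (c3 a x z).map (QuotientGroup.mk' M) =
      c3 (a : G ⧸ M) (x : G ⧸ M) (z : G ⧸ M) := map_c3 _ a x z
  rw [← hmap]
  have hsurj := (QuotientGroup.mk' M).subgroupMap_surjective (c3 a x z)
  have hf' : Finite ((c3 a x z).map (QuotientGroup.mk' M)) := Finite.of_surjective _ hsurj
  have hs' : Group.IsSolvable ((c3 a x z).map (QuotientGroup.mk' M)) :=
    Group.isSolvable_of_surjective hsurj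
  refine ⟨hf', hs', ?_⟩
  set F : Subgroup (G ⧸ M) := (c3 a x z).map (QuotientGroup.mk' M) with hF
  have h7 : DD (⊤ : Subgroup F) m = ⊥ := by
    apply x_TWO F hf' hs' m
    intro b y
    have h8 := x_MAPI F (G ⧸ M) F.subtype F.subtype_injective (c2 b y) m
    have h9 : DD ((c2 b y).map F.subtype) m = ⊥ := by
      rw [map_c2]
      obtain ⟨b', hb'⟩ := QuotientGroup.mk_surjective (b : G ⧸ M)
      obtain ⟨y', hy'⟩ := QuotientGroup.mk_surjective (y : G ⧸ M)
      have h10 : c2 (F.subtype b) (F.subtype y) = (c2 b' y').map (QuotientGroup.mk' M) := by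
        rw [map_c2]
        simp [hb', hy']
      rw [h10, ← x_MAPS G (G ⧸ M) (QuotientGroup.mk' M) htor]
      rw [eq_bot_iff]
      rintro _ ⟨w, hw, rfl⟩
      rw [Subgroup.mem_bot]
      exact (QuotientGroup.eq_one_iff w).2 (htwo b' y' hw)
    rw [h9] at h8
    exact (Subgroup.map_eq_bot_iff_of_injective _ F.subtype_injective).1 h8
  have h11 := x_MAPI F (G ⧸ M) F.subtype F.subtype_injective ⊤ m
  rw [h7, Subgroup.map_bot, ← MonoidHom.range_eq_map, Subgroup.range_subtype] at h11
  exact h11.symm

theorem ser_height (n B : ℕ) (hn : 1 ≤ n) : ∀ (m : ℕ) (G : Type) [Group G],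
    (∀ x : G, x ^ n = 1) →
    (∀ a x z : G, Finite (c3 a x z) ∧ Group.IsSolvable (c3 a x z) ∧ DD (c3 a x z) m = ⊥) →
    SerTo n B (m * n.primeFactors.card) (⊤ : Subgroup G) := by
  intro m
  induction m with
  | zero =>
    intro G _ hG h
    have h0 : (⊤ : Subgroup G) = ⊥ := by
      rw [eq_bot_iff]
      intro a _
      have h3 : c3 a a a = ⊥ := (h a a a).2.2
      have h4 : a ∈ c3 a a a := Subgroup.subset_closure (by simp)
      rw [h3] at h4
      exact h4
    rw [h0, zero_mul]
    exact SerTo.bot n B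
  | succ m ih =>
    intro G _ hG h
    obtain ⟨M, hM, hMs⟩ := exists_M n B G
    have hMc := hM.char
    have hMn : M.Normal := inferInstance
    have h1 := ih (G ⧸ M) (by
      intro x
      obtain ⟨g, rfl⟩ := QuotientGroup.mk_surjective x
      rw [← QuotientGroup.mk_pow, hG g]
      rfl) (down hn hG h M hMs)
    have h2 := hM.quot h1
    rwa [show (m + 1) * n.primeFactors.card =
      n.primeFactors.card + m * n.primeFactors.card by ring]

theorem height_of_good (hG : Good N 0 G) (a x z : G) :
    Finite (c3 a x z) ∧ Group.IsSolvable (c3 a x z) ∧ DD (c3 a x z) N = ⊥ := by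
  obtain ⟨h1, h2, h3⟩ := hG.sub (c3_le a x z)
  have hfin := h2.fin
  have hs : Group.IsSolvable (Subgroup.closure {a, x, z}) := sol_of_FC0 _ _ le_rfl h2
  refine ⟨hfin, hs, ?_⟩
  have h4 : derivedSeries (Subgroup.closure {a, x, z}) N = ⊥ := by
    rcases derived_eq_bot (X := Subgroup.closure {a, x, z}) N with h | h
    · exact h
    · exfalso
      have := Nat.card_pos (α := derivedSeries (Subgroup.closure {a, x, z}) N)
      omega
  have h5 := x_MAPI (Subgroup.closure {a, x, z}) G (Subgroup.closure {a, x, z}).subtype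
    (Subgroup.subtype_injective _) ⊤ N
  have h6 : (⊤ : Subgroup (Subgroup.closure {a, x, z})).map (Subgroup.closure {a, x, z}).subtype =
      c3 a x z := by
    rw [← MonoidHom.range_eq_map, Subgroup.range_subtype]
    rfl
  rw [h6] at h5
  rw [← h5, eq_bot_iff]
  have h7 := TSOLH.DD_le (G := Subgroup.closure {a, x, z}) N
  rw [h4] at h7
  rw [le_bot_iff.1 h7, Subgroup.map_bot]

theorem Good.ser_KS (hG : Good N (c + 1) K) (hT : KT c K) (hR : R1 c K) (n : ℕ) :
    SerTo n (N ^ N) 1 (⊤ : Subgroup K) := by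
  refine (SerTo.bot n (N ^ N)).step inferInstance bot_le (Or.inr ?_)
  intro w _ hw
  have hw1 : w ≠ 1 := fun h => hw (Subgroup.mem_bot.2 h)
  obtain ⟨P, hP, hwP, hfin, hcard⟩ := hG.residual hT hR hw1
  refine ⟨P, bot_le, le_top, fun m _ x hx => hP.conj_mem x hx m, hwP, ?_, ?_⟩
  · rw [Subgroup.relIndex_top_right]
    exact Nat.card_pos.ne'
  · rw [Subgroup.relIndex_top_right]
    exact hcard

theorem ser_main : ∀ (c : ℕ) (n : ℕ), 1 ≤ n → ∀ (N : ℕ), ∃ l : ℕ,
    ∀ (G : Type) [Group G], (∀ x : G, x ^ n = 1) → Good N c G →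
      SerTo n (N ^ N) l (⊤ : Subgroup G) := by
  intro c
  induction c with
  | zero =>
    intro n hn N
    exact ⟨_, fun G _ hexp hG => ser_height n (N ^ N) hn N G hexp
      (height_of_good hG)⟩
  | succ c ihc =>
    intro n
    induction n using Nat.strong_induction_on with
    | h n ihn =>
      intro hn N
      rcases Nat.eq_zero_or_pos c with hc0 | hc0
      · subst hc0
        obtain ⟨l, hl⟩ := ihc n hn N
        exact ⟨l, fun G _ hexp hG => hl G hexp
          (fun a => ⟨(hG a).1, FC_zero_of_one (hG a).2.1, (hG a).2.2⟩)⟩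
      obtain ⟨p, hpp, hpc⟩ := Nat.exists_prime_and_dvd (n := c + 1) (by omega)
      obtain ⟨l₁, hl₁⟩ := ihc n hn N
      by_cases hpn : p ∣ n
      · obtain ⟨k, rfl⟩ := hpn
        have hk0 : k ≠ 0 := by
          rintro rfl
          omega
        obtain ⟨l₂, hl₂⟩ := ihn k (by
          have h2 := hpp.two_le
          nlinarith [Nat.pos_of_ne_zero hk0]) (by omega) N
        refine ⟨l₁ + (1 + l₂), fun G _ hexp hG => ?_⟩
        have hR := hl₁ hG.RS (fun x => Subtype.ext (hexp x.1)) hG.good_RS
        refine (hR.sub hG.RS_char).quot ?_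
        have hexp' : ∀ x : G ⧸ hG.RS, x ^ (p * k) = 1 := by
          intro x
          obtain ⟨g, rfl⟩ := QuotientGroup.mk_surjective x
          rw [← QuotientGroup.mk_pow, hexp g]
          rfl
        have hG' : Good N (c + 1) (G ⧸ hG.RS) :=
          hG.of_surj (QuotientGroup.mk' _) (QuotientGroup.mk'_surjective _)
        have hR1 := hG.R1_quot
        have hstep : ∀ (Q : Type) [Group Q], (∀ x : Q, x ^ (p * k) = 1) → Good N (c + 1) Q →
            R1 c Q → SerTo (p * k) (N ^ N) (1 + l₂) (⊤ : Subgroup Q) := by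
          intro Q _ hexpQ hQ hR1Q
          have hK := (hQ.of_inj hQ.KS.subtype hQ.KS.subtype_injective).ser_KS hQ.KT_KS
            (hQ.R1_KS hR1Q) (p * k)
          refine (hK.sub hQ.KS_char).quot ?_
          refine (hl₂ (Q ⧸ hQ.KS) ?_
            (hQ.of_surj (QuotientGroup.mk' _) (QuotientGroup.mk'_surjective _))).mono
            (dvd_mul_left k p)
          intro x
          obtain ⟨g, rfl⟩ := QuotientGroup.mk_surjective x
          rw [← QuotientGroup.mk_pow, QuotientGroup.eq_one_iff]
          exact hQ.pow_mem_KS hpp hpc hk0 hexpQ g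
        exact hstep _ hexp' hG' hR1
      · exact ⟨l₁, fun G _ hexp hG => hl₁ G hexp (fun a => ⟨(hG a).1,
          FC_of_not_dvd (hG a).2.1 hpp hpc hpn (fun y => Subtype.ext (hexp y.1)), (hG a).2.2⟩)⟩

end Pool.Agent.V5helper75.SG
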