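import Pool.Agent.V5helper75.SG.SerBase
import Pool.Agent.Y50.FE.Word

/-!
# Local finiteness from the series
-/

set_option autoImplicit false

open scoped commutatorElement

namespace Pool.Agent.V5helper75.SG

open Pool.Agent.H32BU

variable {X Y A G K Q : Type} [Group X] [Group Y] [Group A] [Group G] [Group K] [Group Q] {N c : ℕ}

theorem lf_five (G : Type) [Group G] (h5 : ∀ x : G, x ^ 5 = 1)
    (h3 : ∀ x y z : G, Finite (Subgroup.closure {x, y, z})) : LF G :=
  fun S => Pool.Agent.Y50.FE.main5_u G h5 h3 (S : Set G) S.finite_toSet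

theorem fin3_surj (p : G →* Q) (hp : Function.Surjective p)
    (h3 : ∀ x y z : G, Finite (Subgroup.closure {x, y, z})) (x y z : Q) :
    Finite (Subgroup.closure {x, y, z}) := by
  obtain ⟨x, rfl⟩ := hp x
  obtain ⟨y, rfl⟩ := hp y
  obtain ⟨z, rfl⟩ := hp z
  have := h3 x y z
  rw [← closure3_map]
  exact Finite.of_surjective _ (p.subgroupMap_surjective (Subgroup.closure {x, y, z}))

theorem fin3_inj (i : K →* G) (hi : Function.Injective i)
    (h3 : ∀ x y z : G, Finite (Subgroup.closure {x, y, z})) (x y z : K) :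
    Finite (Subgroup.closure {x, y, z}) := by
  have := h3 (i x) (i y) (i z)
  rw [← closure3_map] at this
  exact Finite.of_equiv _ ((Subgroup.closure {x, y, z}).equivMapOfInjective i hi).symm.toEquiv

theorem lf_layer {n B : ℕ} (hq : ∀ p k : ℕ, p.Prime → p ^ k ∣ n → 5 < p ^ k → LocFin (p ^ k))
    (h3 : ∀ x y z : G, Finite (Subgroup.closure {x, y, z})) {P M : Subgroup G} (hP : P.Normal)
    (hl : Lay n B P M) (hlf : LF P) (hle : P ≤ M) : LF M := by
  have hPn : (P.subgroupOf M).Normal := inferInstance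
  have h1 : LF (P.subgroupOf M) :=
    x_LFS.2.1 _ _ (Subgroup.subgroupOfEquivOfLe hle).toMonoidHom
      (Subgroup.subgroupOfEquivOfLe hle).injective hlf
  refine lf_ext (P.subgroupOf M) h1 ?_
  have hs : Function.Surjective (QuotientGroup.mk' (P.subgroupOf M)) :=
    QuotientGroup.mk'_surjective _
  rcases hl with ⟨p, k, hp, hk, hx⟩ | hres
  · have hexp : ∀ y : M ⧸ P.subgroupOf M, y ^ p ^ k = 1 := by
      intro y
      obtain ⟨x, rfl⟩ := hs y
      rw [← map_pow]
      exact (QuotientGroup.eq_one_iff _).2 (hx x.1 x.2)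
    rcases lt_trichotomy (p ^ k) 5 with h | h | h
    · exact small_pp x_LFD x_L34 p k hp (by omega) _ hexp
    · rw [h] at hexp
      exact lf_five _ hexp (fin3_surj _ hs (fin3_inj M.subtype M.subtype_injective h3))
    · exact hq p k hp hk h _ hexp
  · apply lf_of_residual (B := B)
    intro w hw
    obtain ⟨x, rfl⟩ := hs w
    have hxP : x.1 ∉ P := fun h => hw ((QuotientGroup.eq_one_iff x).2 h)
    obtain ⟨L, hPL, hLM, hLn, hxL, hL0, hLB⟩ := hres x.1 x.2 hxP
    have hLn' : (L.subgroupOf M).Normal := ⟨fun y hy m => hLn m.1 m.2 y.1 hy⟩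
    refine ⟨(L.subgroupOf M).map (QuotientGroup.mk' (P.subgroupOf M)), hLn'.map _ hs, ?_, ?_, ?_⟩
    · rintro ⟨y, hy, hyx⟩
      have h2 : y⁻¹ * x ∈ P.subgroupOf M := by
        rw [← QuotientGroup.eq_one_iff]
        change QuotientGroup.mk' (P.subgroupOf M) (y⁻¹ * x) = 1
        rw [map_mul, map_inv, hyx, inv_mul_cancel]
      apply hxL
      have h3 : x.1 = y.1 * (y⁻¹ * x).1 := by
        change x.1 = y.1 * (y.1⁻¹ * x.1)
        group
      rw [h3]
      exact L.mul_mem hy (hPL h2)
    all_goals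
      have e : ((L.subgroupOf M).map (QuotientGroup.mk' (P.subgroupOf M))).index = L.relIndex M := by
        rw [Subgroup.index_map_eq _ hs (by
          rw [QuotientGroup.ker_mk']
          intro y hy
          exact hPL hy), Subgroup.relIndex]
    · exact Nat.finite_of_card_ne_zero (by
        rw [← Subgroup.index_eq_card, e]
        exact hL0)
    · rw [← Subgroup.index_eq_card, e]
      exact hLB

theorem lf_of_ser {n B l : ℕ}
    (hq : ∀ p k : ℕ, p.Prime → p ^ k ∣ n → 5 < p ^ k → LocFin (p ^ k))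
    (h3 : ∀ x y z : G, Finite (Subgroup.closure {x, y, z}))
    (hs : SerTo n B l (⊤ : Subgroup G)) : LF G := by
  obtain ⟨S, h0, htop, hS⟩ := hs
  have key : ∀ i, LF (S i) := by
    intro i
    induction i with
    | zero =>
      rw [h0]
      intro T
      infer_instance
    | succ i ih =>
      have hc := (hS i).1
      exact lf_layer hq h3 inferInstance (hS i).2.2 ih (hS i).2.1
  have h1 := key l
  rw [htop l le_rfl] at h1
  exact x_LFS.2.1 _ _ (Subgroup.topEquiv (G := G)).symm.toMonoidHom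
    (Subgroup.topEquiv (G := G)).symm.injective h1

theorem Good.fin3 (hG : Good N c G) (x y z : G) : Finite (Subgroup.closure {x, y, z}) :=
  (hG.sub (c3_le x y z)).2.1.fin

theorem lf_of_good {n : ℕ} (hn : 1 ≤ n)
    (hq : ∀ p k : ℕ, p.Prime → p ^ k ∣ n → 5 < p ^ k → LocFin (p ^ k))
    (hexp : ∀ x : G, x ^ n = 1) (hG : Good N c G) : LF G := by
  obtain ⟨l, hl⟩ := ser_main c n hn N
  exact lf_of_ser hq hG.fin3 (hl G hexp hG)

end Pool.Agent.V5helper75.SG
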